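import Mathlib

/-! Averaging operators attached to primes and shifts: the algebra of the large sieve for several shifts.
Author: helper37. -/

set_option autoImplicit false

open Finset

namespace Pool.Agent.D0H37.KS

/-- commuting averaging operators `e p`, `p ∈ P`, on the functions on a finite set -/
structure Sys (Ω : Type) [Fintype Ω] (P : Finset ℕ) where
  e : ℕ → Module.End ℝ (Ω → ℝ)
  two : ∀ p ∈ P, 2 ≤ p
  comm : ∀ p ∈ P, ∀ q ∈ P, Commute (e p) (e q)
  idem : ∀ p ∈ P, ∀ f, e p (e p f) = e p f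
  mod : ∀ p ∈ P, ∀ f g : Ω → ℝ, e p f = f → e p (f * g) = f * e p g
  mean : ∀ p ∈ P, ∀ f : Ω → ℝ, ∑ x, e p f x = ∑ x, f x
  pos : ∀ p ∈ P, ∀ f, 0 ≤ f → 0 ≤ e p f
  one : ∀ p ∈ P, e p 1 = 1

variable {Ω : Type} [Fintype Ω] {P : Finset ℕ}

lemma Sys.one_lt (S : Sys Ω P) {p : ℕ} (hp : p ∈ P) : (1 : ℝ) ≤ (p : ℝ) - 1 := by
  have := S.two p hp
  have h2 : (2 : ℝ) ≤ p := by exact_mod_cast this
  linarith

/-- the functions `z p = p 1[hit] - 1` of one shift -/
structure Shift (S : Sys Ω P) where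
  z : ℕ → Ω → ℝ
  inv : ∀ p ∈ P, ∀ q ∈ P, p ≠ q → S.e q (z p) = z p
  ez : ∀ p ∈ P, S.e p (z p) = 0
  sq : ∀ p ∈ P, z p * z p = ((p : ℝ) - 2) • z p + ((p : ℝ) - 1) • (1 : Ω → ℝ)

/-- squared norm -/
def nrm (f : Ω → ℝ) : ℝ := ∑ x, f x ^ 2

lemma nrm_nonneg (f : Ω → ℝ) : 0 ≤ nrm f := Finset.sum_nonneg (fun x _ => sq_nonneg _)

lemma nrm_zero : nrm (0 : Ω → ℝ) = 0 := by simp [nrm]

namespace Shift

variable {S : Sys Ω P} (T : Shift S)

/-- multiplication by `z p` -/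
noncomputable def Z (p : ℕ) : Module.End ℝ (Ω → ℝ) := LinearMap.mulLeft ℝ (T.z p)

lemma Z_apply (p : ℕ) (f : Ω → ℝ) : T.Z p f = T.z p * f := rfl

/-- the component `h p` -/
noncomputable def H (p : ℕ) : Module.End ℝ (Ω → ℝ) := ((p : ℝ) - 1)⁻¹ • (S.e p * T.Z p)

/-- the projection on the span of `1`, `z p` over the invariant functions -/
noncomputable def A (p : ℕ) : Module.End ℝ (Ω → ℝ) := S.e p + T.Z p * T.H p

/-- the rest -/
noncomputable def U (p : ℕ) : Module.End ℝ (Ω → ℝ) := 1 - T.A p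

lemma H_apply (p : ℕ) (f : Ω → ℝ) : T.H p f = ((p : ℝ) - 1)⁻¹ • S.e p (T.z p * f) := rfl

lemma A_apply (p : ℕ) (f : Ω → ℝ) : T.A p f = S.e p f + T.z p * T.H p f := rfl

lemma U_apply (p : ℕ) (f : Ω → ℝ) : T.U p f = f - T.A p f := rfl

lemma comm_eZ {p q : ℕ} (hp : p ∈ P) (hq : q ∈ P) (hpq : p ≠ q) : Commute (S.e p) (T.Z q) := by
  refine LinearMap.ext fun f => ?_
  change S.e p (T.z q * f) = T.z q * S.e p f
  exact S.mod p hp _ _ (T.inv q hq p hp (Ne.symm hpq))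

lemma comm_ZZ (p q : ℕ) : Commute (T.Z p) (T.Z q) := by
  refine LinearMap.ext fun f => ?_
  change T.z p * (T.z q * f) = T.z q * (T.z p * f)
  ring

lemma comm_eH {p q : ℕ} (hp : p ∈ P) (hq : q ∈ P) (hpq : p ≠ q) : Commute (S.e p) (T.H q) := by
  unfold H
  exact ((S.comm p hp q hq).mul_right (T.comm_eZ hp hq hpq)).smul_right _

lemma comm_ZH {p q : ℕ} (hp : p ∈ P) (hq : q ∈ P) (hpq : p ≠ q) : Commute (T.Z p) (T.H q) := by
  unfold H
  exact ((T.comm_eZ hq hp (Ne.symm hpq)).symm.mul_right (T.comm_ZZ p q)).smul_right _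

lemma comm_HH {p q : ℕ} (hp : p ∈ P) (hq : q ∈ P) (hpq : p ≠ q) : Commute (T.H p) (T.H q) := by
  have h1 := T.comm_eH hp hq hpq
  have h2 := T.comm_ZH hp hq hpq
  have h3 : Commute (((p : ℝ) - 1)⁻¹ • (S.e p * T.Z p)) (T.H q) := (h1.mul_left h2).smul_left _
  exact h3

lemma comm_XA {q : ℕ} (X : Module.End ℝ (Ω → ℝ))
    (h1 : Commute X (S.e q)) (h2 : Commute X (T.Z q)) (h3 : Commute X (T.H q)) :
    Commute X (T.A q) := by
  unfold A
  exact h1.add_right (h2.mul_right h3)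

lemma comm_eA {p q : ℕ} (hp : p ∈ P) (hq : q ∈ P) (hpq : p ≠ q) : Commute (S.e p) (T.A q) :=
  T.comm_XA _ (S.comm p hp q hq) (T.comm_eZ hp hq hpq) (T.comm_eH hp hq hpq)

lemma comm_HA {p q : ℕ} (hp : p ∈ P) (hq : q ∈ P) (hpq : p ≠ q) : Commute (T.H p) (T.A q) :=
  T.comm_XA _ (T.comm_eH hq hp (Ne.symm hpq)).symm (T.comm_ZH hq hp (Ne.symm hpq)).symm
    (T.comm_HH hp hq hpq)

lemma comm_ZA {p q : ℕ} (hp : p ∈ P) (hq : q ∈ P) (hpq : p ≠ q) : Commute (T.Z p) (T.A q) :=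
  T.comm_XA _ (T.comm_eZ hq hp (Ne.symm hpq)).symm (T.comm_ZZ p q) (T.comm_ZH hp hq hpq)

lemma comm_AA {p q : ℕ} (hp : p ∈ P) (hq : q ∈ P) (hpq : p ≠ q) : Commute (T.A p) (T.A q) := by
  have h1 := T.comm_eA hp hq hpq
  have h2 := T.comm_ZA hp hq hpq
  have h3 := T.comm_HA hp hq hpq
  have h4 : Commute (S.e p + T.Z p * T.H p) (T.A q) := h1.add_left (h2.mul_left h3)
  exact h4

lemma comm_HU {p q : ℕ} (hp : p ∈ P) (hq : q ∈ P) (hpq : p ≠ q) : Commute (T.H p) (T.U q) := by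
  unfold U
  exact (Commute.one_right _).sub_right (T.comm_HA hp hq hpq)

lemma comm_eU {p q : ℕ} (hp : p ∈ P) (hq : q ∈ P) (hpq : p ≠ q) : Commute (S.e p) (T.U q) := by
  unfold U
  exact (Commute.one_right _).sub_right (T.comm_eA hp hq hpq)

lemma comm_AU {p q : ℕ} (hp : p ∈ P) (hq : q ∈ P) (hpq : p ≠ q) : Commute (T.A p) (T.U q) := by
  unfold U
  exact (Commute.one_right _).sub_right (T.comm_AA hp hq hpq)

lemma comm_UU {p q : ℕ} (hp : p ∈ P) (hq : q ∈ P) (hpq : p ≠ q) : Commute (T.U p) (T.U q) := by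
  have h1 : Commute (1 - T.A p) (T.U q) := (Commute.one_left _).sub_left (T.comm_AU hp hq hpq)
  exact h1

omit [Fintype Ω] in
lemma ap {X Y : Module.End ℝ (Ω → ℝ)} (h : Commute X Y) (f : Ω → ℝ) : X (Y f) = Y (X f) :=
  LinearMap.congr_fun h.eq f

/-! ### one prime -/

section one
variable {p : ℕ} (hp : p ∈ P)
include hp

lemma e_e (f : Ω → ℝ) : S.e p (S.e p f) = S.e p f := S.idem p hp f

lemma e_H (f : Ω → ℝ) : S.e p (T.H p f) = T.H p f := by
  rw [H_apply, map_smul, S.idem p hp]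

lemma e_zi (f : Ω → ℝ) (hf : S.e p f = f) : S.e p (T.z p * f) = 0 := by
  rw [mul_comm, S.mod p hp f _ hf, T.ez p hp, mul_zero]

lemma e_zz : S.e p (T.z p * T.z p) = ((p : ℝ) - 1) • (1 : Ω → ℝ) := by
  rw [T.sq p hp, map_add, map_smul, map_smul, T.ez p hp, S.one p hp, smul_zero, zero_add]

lemma e_zzi (f : Ω → ℝ) (hf : S.e p f = f) : S.e p (T.z p * (T.z p * f)) = ((p : ℝ) - 1) • f := by
  have h : T.z p * (T.z p * f) = f * (T.z p * T.z p) := by ring
  rw [h, S.mod p hp f _ hf, T.e_zz hp]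
  funext x
  simp [mul_comm]

/-- `p - 1` times `H` is the average of `z f` -/
lemma e_z (f : Ω → ℝ) : S.e p (T.z p * f) = ((p : ℝ) - 1) • T.H p f := by
  have h1 := S.one_lt hp
  rw [H_apply, smul_smul, mul_inv_cancel₀ (by linarith), one_smul]

lemma H_e (f : Ω → ℝ) (hf : S.e p f = f) : T.H p f = 0 := by
  rw [H_apply, T.e_zi hp f hf, smul_zero]

lemma H_z (f : Ω → ℝ) (hf : S.e p f = f) : T.H p (T.z p * f) = f := by
  have h1 := S.one_lt hp
  rw [H_apply, T.e_zzi hp f hf, smul_smul, inv_mul_cancel₀ (by linarith), one_smul]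

lemma e_A (f : Ω → ℝ) : S.e p (T.A p f) = S.e p f := by
  rw [A_apply, map_add, S.idem p hp, T.e_zi hp _ (T.e_H hp f), add_zero]

lemma H_A (f : Ω → ℝ) : T.H p (T.A p f) = T.H p f := by
  rw [A_apply, map_add, T.H_e hp _ (S.idem p hp f), T.H_z hp _ (T.e_H hp f), zero_add]

lemma A_A (f : Ω → ℝ) : T.A p (T.A p f) = T.A p f := by
  rw [A_apply _ _ (T.A p f), T.e_A hp, T.H_A hp, ← A_apply]

lemma e_U (f : Ω → ℝ) : S.e p (T.U p f) = 0 := by
  rw [U_apply, map_sub, T.e_A hp, sub_self]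

lemma H_U (f : Ω → ℝ) : T.H p (T.U p f) = 0 := by
  rw [U_apply, map_sub, T.H_A hp, sub_self]

lemma A_U (f : Ω → ℝ) : T.A p (T.U p f) = 0 := by
  rw [U_apply, map_sub, T.A_A hp, sub_self]

lemma U_U (f : Ω → ℝ) : T.U p (T.U p f) = T.U p f := by
  rw [U_apply _ _ (T.U p f), T.A_U hp, sub_zero]

lemma U_A (f : Ω → ℝ) : T.U p (T.A p f) = 0 := by
  rw [U_apply, T.A_A hp, sub_self]

lemma e_zU (f : Ω → ℝ) : S.e p (T.z p * T.U p f) = 0 := by
  rw [T.e_z hp, T.H_U hp, smul_zero]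

end one

end Shift

/-- sum of a product of an invariant function and another function -/
lemma sum_eq (S : Sys Ω P) {p : ℕ} (hp : p ∈ P) (f g : Ω → ℝ) (h : S.e p f = g) :
    ∑ x, f x = ∑ x, g x := by
  rw [← S.mean p hp f, h]

namespace Shift
variable {S : Sys Ω P} (T : Shift S)

lemma e_cross {p : ℕ} (hp : p ∈ P) (f m h : Ω → ℝ) (hm : S.e p m = m) (hh : S.e p h = h) :
    S.e p ((m + T.z p * h) * T.U p f) = 0 := by
  have e1 : (m + T.z p * h) * T.U p f = m * T.U p f + h * (T.z p * T.U p f) := by ring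
  rw [e1, map_add, S.mod p hp m _ hm, S.mod p hp h _ hh, T.e_U hp, T.e_zU hp]
  simp

/-- Pythagoras for functions of the form `m + z h` -/
lemma nrm_mz {p : ℕ} (hp : p ∈ P) (m h : Ω → ℝ) (hm : S.e p m = m) (hh : S.e p h = h) :
    nrm (m + T.z p * h) = nrm m + ((p : ℝ) - 1) * nrm h := by
  have hmm : S.e p (m * m) = m * m := by rw [S.mod p hp m m hm, hm]
  have hhh : S.e p (h * h) = h * h := by rw [S.mod p hp h h hh, hh]
  have hmh : S.e p (m * h) = m * h := by rw [S.mod p hp m h hm, hh]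
  have e1 : S.e p ((m + T.z p * h) * (m + T.z p * h)) = m * m + ((p : ℝ) - 1) • (h * h) := by
    have e2 : (m + T.z p * h) * (m + T.z p * h) =
        m * m + (2 : ℝ) • (T.z p * (m * h)) + T.z p * (T.z p * (h * h)) := by
      funext x
      simp only [Pi.add_apply, Pi.mul_apply, Pi.smul_apply, smul_eq_mul]
      ring
    rw [e2, map_add, map_add, map_smul, hmm, T.e_zi hp _ hmh, T.e_zzi hp _ hhh, smul_zero, add_zero]
  have e3 := sum_eq S hp _ _ e1
  unfold nrm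
  calc ∑ x, (m + T.z p * h) x ^ 2 = ∑ x, ((m + T.z p * h) * (m + T.z p * h)) x := by
        refine Finset.sum_congr rfl fun x _ => ?_
        simp only [Pi.mul_apply]; ring
    _ = _ := e3
    _ = _ := by
        rw [Finset.mul_sum, ← Finset.sum_add_distrib]
        refine Finset.sum_congr rfl fun x _ => ?_
        simp only [Pi.add_apply, Pi.mul_apply, Pi.smul_apply, smul_eq_mul]; ring

lemma nrm_A {p : ℕ} (hp : p ∈ P) (f : Ω → ℝ) :
    nrm (T.A p f) = nrm (S.e p f) + ((p : ℝ) - 1) * nrm (T.H p f) := by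
  rw [A_apply]
  exact T.nrm_mz hp _ _ (S.idem p hp f) (T.e_H hp f)

/-- Pythagoras -/
lemma nrm_AU {p : ℕ} (hp : p ∈ P) (f : Ω → ℝ) : nrm f = nrm (T.A p f) + nrm (T.U p f) := by
  have h0 := T.e_cross hp f (S.e p f) (T.H p f) (S.idem p hp f) (T.e_H hp f)
  have h1 := sum_eq S hp _ _ h0
  rw [← A_apply] at h1
  simp only [Pi.mul_apply, Pi.zero_apply, Finset.sum_const_zero] at h1
  unfold nrm
  have e : ∀ x, f x ^ 2 = T.A p f x ^ 2 + T.U p f x ^ 2 + 2 * (T.A p f x * T.U p f x) := by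
    intro x
    rw [U_apply]
    simp only [Pi.sub_apply]
    ring
  rw [Finset.sum_congr rfl fun x _ => e x, Finset.sum_add_distrib, Finset.sum_add_distrib,
    ← Finset.mul_sum, h1]
  ring

lemma nrm_all {p : ℕ} (hp : p ∈ P) (f : Ω → ℝ) :
    nrm f = nrm (S.e p f) + ((p : ℝ) - 1) * nrm (T.H p f) + nrm (T.U p f) := by
  rw [T.nrm_AU hp, T.nrm_A hp]

/-- the functions `F = f - e f` -/
lemma nrm_F {p : ℕ} (hp : p ∈ P) (f : Ω → ℝ) :
    nrm (f - S.e p f) = ((p : ℝ) - 1) * nrm (T.H p f) + nrm (T.U p f) := by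
  have h := T.nrm_all hp (f - S.e p f)
  have h1 : S.e p (f - S.e p f) = 0 := by rw [map_sub, S.idem p hp, sub_self]
  have h2 : T.H p (f - S.e p f) = T.H p f := by
    rw [map_sub, T.H_e hp _ (S.idem p hp f), sub_zero]
  have h3 : T.U p (f - S.e p f) = T.U p f := by
    have : T.A p (S.e p f) = S.e p f := by
      rw [A_apply, S.idem p hp, T.H_e hp _ (S.idem p hp f)]
      simp
    rw [map_sub, U_apply _ _ (S.e p f), this, sub_self, sub_zero]
  rw [h1, h2, h3, nrm_zero] at h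
  linarith

/-! ### the weights of the shift -/

/-- the density of the non-hits: `0` on the hits, `p/(p-1)` elsewhere -/
noncomputable def w (p : ℕ) : Ω → ℝ := 1 - ((p : ℝ) - 1)⁻¹ • T.z p

lemma w_apply (p : ℕ) (x : Ω) : T.w p x = 1 - ((p : ℝ) - 1)⁻¹ * T.z p x := rfl

lemma z_cases {p : ℕ} (hp : p ∈ P) (x : Ω) : T.z p x = (p : ℝ) - 1 ∨ T.z p x = -1 := by
  have h := congrFun (T.sq p hp) x
  simp only [Pi.add_apply, Pi.mul_apply, Pi.smul_apply, smul_eq_mul, Pi.one_apply, mul_one] at h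
  have h2 : (T.z p x - ((p : ℝ) - 1)) * (T.z p x + 1) = 0 := by linear_combination h
  rcases mul_eq_zero.1 h2 with h3 | h3
  · left; linarith
  · right; linarith

lemma w_nonneg {p : ℕ} (hp : p ∈ P) (x : Ω) : 0 ≤ T.w p x := by
  have h1 := S.one_lt hp
  rw [w_apply]
  rcases T.z_cases hp x with h | h
  · rw [h, inv_mul_cancel₀ (by linarith), sub_self]
  · rw [h]
    have : (0 : ℝ) ≤ ((p : ℝ) - 1)⁻¹ := inv_nonneg.2 (by linarith)
    linarith

lemma w_le {p : ℕ} (hp : p ∈ P) (x : Ω) : T.w p x ≤ (p : ℝ) / ((p : ℝ) - 1) := by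
  have h1 := S.one_lt hp
  have h2 : (0 : ℝ) < (p : ℝ) - 1 := by linarith
  have h3 : (p : ℝ) / ((p : ℝ) - 1) = 1 + ((p : ℝ) - 1)⁻¹ := by
    field_simp
    ring
  rw [w_apply, h3]
  have h4 : (0 : ℝ) < ((p : ℝ) - 1)⁻¹ := inv_pos.2 h2
  rcases T.z_cases hp x with h | h
  · rw [h, inv_mul_cancel₀ h2.ne']; linarith
  · rw [h]; linarith

lemma wz {p : ℕ} (hp : p ∈ P) : T.w p * T.z p = - T.w p := by
  have h1 := S.one_lt hp
  have h2 : (0 : ℝ) < (p : ℝ) - 1 := by linarith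
  funext x
  simp only [Pi.mul_apply, Pi.neg_apply]
  rw [w_apply]
  rcases T.z_cases hp x with h | h
  · rw [h, inv_mul_cancel₀ h2.ne']; ring
  · rw [h]; ring

lemma e_w {p : ℕ} (hp : p ∈ P) : S.e p (T.w p) = 1 := by
  unfold w
  rw [map_sub, map_smul, T.ez p hp, S.one p hp, smul_zero, sub_zero]

lemma e_w' {p q : ℕ} (hp : p ∈ P) (hq : q ∈ P) (hpq : p ≠ q) : S.e q (T.w p) = T.w p := by
  unfold w
  rw [map_sub, map_smul, T.inv p hp q hq hpq, S.one q hq]

/-- product of the weights over a set of primes -/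
noncomputable def W (L : Finset ℕ) : Ω → ℝ := ∏ p ∈ L, T.w p

lemma W_apply (L : Finset ℕ) (x : Ω) : T.W L x = ∏ p ∈ L, T.w p x := by
  unfold W
  rw [Finset.prod_apply]

lemma W_nonneg {L : Finset ℕ} (hL : L ⊆ P) (x : Ω) : 0 ≤ T.W L x := by
  rw [W_apply]
  exact Finset.prod_nonneg fun p hp => T.w_nonneg (hL hp) x

lemma e_W {L : Finset ℕ} (hL : L ⊆ P) {q : ℕ} (hq : q ∈ P) (hqL : q ∉ L) : S.e q (T.W L) = T.W L := by
  unfold W
  induction L using Finset.induction_on with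
  | empty => simp only [Finset.prod_empty]; exact S.one q hq
  | insert a L ha ih =>
    rw [Finset.prod_insert ha]
    have h1 : a ∈ P := hL (mem_insert_self a L)
    have h2 : a ≠ q := fun h => hqL (h ▸ mem_insert_self a L)
    rw [S.mod q hq _ _ (T.e_w' h1 hq h2), ih (fun x hx => hL (mem_insert_of_mem hx))
      (fun h => hqL (mem_insert_of_mem h))]

lemma W_insert {L : Finset ℕ} {p : ℕ} (hp : p ∉ L) : T.W (insert p L) = T.w p * T.W L := by
  unfold W
  rw [Finset.prod_insert hp]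

/-- `E(w W (m + z h)²) = E(W (m - h)²)` -/
lemma sum_wmz {L : Finset ℕ} (hL : L ⊆ P) {p : ℕ} (hp : p ∈ P) (hpL : p ∉ L) (m h : Ω → ℝ)
    (hm : S.e p m = m) (hh : S.e p h = h) :
    ∑ x, T.W (insert p L) x * (m x + T.z p x * h x) ^ 2 = ∑ x, T.W L x * (m x - h x) ^ 2 := by
  have hd : S.e p (m - h) = m - h := by rw [map_sub, hm, hh]
  have hdd : S.e p ((m - h) * (m - h)) = (m - h) * (m - h) := by rw [S.mod p hp _ _ hd, hd]
  have hW := T.e_W hL hp hpL
  have hWd : S.e p (T.W L * ((m - h) * (m - h))) = T.W L * ((m - h) * (m - h)) := by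
    rw [S.mod p hp _ _ hW, hdd]
  have e1 : S.e p (T.W L * ((m - h) * (m - h)) * T.w p) = T.W L * ((m - h) * (m - h)) := by
    rw [S.mod p hp _ _ hWd, T.e_w hp, mul_one]
  have e2 := sum_eq S hp _ _ e1
  calc ∑ x, T.W (insert p L) x * (m x + T.z p x * h x) ^ 2
      = ∑ x, (T.W L * ((m - h) * (m - h)) * T.w p) x := by
        refine Finset.sum_congr rfl fun x _ => ?_
        rw [T.W_insert hpL]
        simp only [Pi.mul_apply, Pi.sub_apply]
        have hz : T.w p x * T.z p x = - T.w p x := congrFun (T.wz hp) x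
        have hz2 : T.w p x * T.z p x * T.z p x = T.w p x := by rw [hz]; linarith
        linear_combination (2 * T.W L x * m x * h x) * hz + (T.W L x * h x ^ 2) * hz2
    _ = _ := e2
    _ = _ := by
        refine Finset.sum_congr rfl fun x _ => ?_
        simp only [Pi.mul_apply, Pi.sub_apply]; ring

/-- splitting off the part `U` -/
lemma sum_wU {L : Finset ℕ} (hL : L ⊆ P) {p : ℕ} (hp : p ∈ P) (hpL : p ∉ L) (f : Ω → ℝ) :
    ∑ x, T.W (insert p L) x * f x ^ 2 ≤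
      ∑ x, T.W (insert p L) x * (T.A p f x) ^ 2 +
        (p : ℝ) / ((p : ℝ) - 1) * ∑ x, T.W L x * (T.U p f x) ^ 2 := by
  -- the cross term vanishes
  have hm : S.e p (S.e p f) = S.e p f := S.idem p hp f
  have hh : S.e p (T.H p f) = T.H p f := T.e_H hp f
  have hd : S.e p (S.e p f - T.H p f) = S.e p f - T.H p f := by rw [map_sub, hm, hh]
  have hW := T.e_W hL hp hpL
  have hWd : S.e p (T.W L * (S.e p f - T.H p f)) = T.W L * (S.e p f - T.H p f) := by
    rw [S.mod p hp _ _ hW, hd]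
  have e1 : S.e p (T.w p * T.U p f) = 0 := by
    have : T.w p * T.U p f = T.U p f - ((p : ℝ) - 1)⁻¹ • (T.z p * T.U p f) := by
      funext x
      simp only [Pi.mul_apply, Pi.sub_apply, Pi.smul_apply, smul_eq_mul, w_apply]
      ring
    rw [this, map_sub, map_smul, T.e_U hp, T.e_zU hp, smul_zero, sub_zero]
  have e2 : S.e p (T.W L * (S.e p f - T.H p f) * (T.w p * T.U p f)) = 0 := by
    rw [S.mod p hp _ _ hWd, e1, mul_zero]
  have e3 := sum_eq S hp _ _ e2
  simp only [Pi.mul_apply, Pi.sub_apply, Pi.zero_apply, Finset.sum_const_zero] at e3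
  have key : ∀ x, T.W (insert p L) x * f x ^ 2 = T.W (insert p L) x * (T.A p f x) ^ 2 +
      T.W L x * (T.w p x * (T.U p f x) ^ 2) +
      2 * (T.W L x * (S.e p f x - T.H p f x) * (T.w p x * T.U p f x)) := by
    intro x
    rw [T.W_insert hpL]
    simp only [Pi.mul_apply]
    have hf : f x = T.A p f x + T.U p f x := by
      rw [U_apply]; simp only [Pi.sub_apply]; ring
    have hz : T.w p x * T.z p x = - T.w p x := congrFun (T.wz hp) x
    have hA : T.w p x * T.A p f x = T.w p x * (S.e p f x - T.H p f x) := by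
      rw [A_apply]; simp only [Pi.add_apply, Pi.mul_apply]
      linear_combination (T.H p f x) * hz
    have : T.w p x * T.W L x * f x ^ 2 = T.w p x * T.W L x * (T.A p f x + T.U p f x) ^ 2 := by
      rw [← hf]
    rw [this]
    linear_combination (2 * T.W L x * T.U p f x) * hA
  rw [Finset.sum_congr rfl fun x _ => key x, Finset.sum_add_distrib, Finset.sum_add_distrib,
    ← Finset.mul_sum, e3, mul_zero, add_zero]
  refine add_le_add le_rfl ?_
  rw [Finset.mul_sum]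
  refine Finset.sum_le_sum fun x _ => ?_
  have h1 := T.w_le hp x
  have h2 := T.W_nonneg hL x
  have h3 : 0 ≤ T.W L x * (T.U p f x) ^ 2 := mul_nonneg h2 (sq_nonneg _)
  calc T.W L x * (T.w p x * (T.U p f x) ^ 2) = T.w p x * (T.W L x * (T.U p f x) ^ 2) := by ring
    _ ≤ _ := mul_le_mul_of_nonneg_right h1 h3

end Shift

end Pool.Agent.D0H37.KS
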