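import Pool.Agent.H343R2.PhiSum

/-! Analytic lemmas: sums of `1/φ` over the squarefree numbers prime to a set of primes, and a partial summation.
Author: helper37. -/

set_option autoImplicit false

open Finset

namespace Pool.Agent.D0H37.KS

/-- `∑ 1/φ(d)` over the squarefree `d ≤ n` not divisible by the primes of `m` -/
noncomputable def G (m : Finset ℕ) (n : ℕ) : ℝ :=
  ∑ d ∈ (Ioc 0 n).filter (fun d => Squarefree d ∧ ∀ p ∈ m, ¬ p ∣ d), (1 : ℝ) / Nat.totient d

lemma G_empty (n : ℕ) : G ∅ n = H343.LL 0 n := by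
  unfold G H343.LL H343.Mod
  congr 1
  ext d
  simp

lemma G_nonneg (m : Finset ℕ) (n : ℕ) : 0 ≤ G m n :=
  Finset.sum_nonneg fun _ _ => by positivity

/-- splitting by a prime -/
lemma G_split (m : Finset ℕ) {p : ℕ} (hp : p.Prime) (hm : ∀ q ∈ m, q.Prime) (hpm : p ∉ m) (n : ℕ) :
    G m n = G (insert p m) n + (1 / ((p : ℝ) - 1)) * G (insert p m) (n / p) := by
  unfold G
  rw [← Finset.sum_filter_add_sum_filter_not
    ((Ioc 0 n).filter (fun d => Squarefree d ∧ ∀ q ∈ m, ¬ q ∣ d)) (fun d => ¬ p ∣ d)]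
  congr 1
  · refine Finset.sum_congr ?_ fun _ _ => rfl
    ext d
    simp only [mem_filter, mem_insert, forall_eq_or_imp]
    tauto
  · rw [Finset.mul_sum]
    symm
    refine Finset.sum_bij (fun d _ => p * d) ?_ ?_ ?_ ?_
    · intro d hd
      simp only [mem_filter, mem_Ioc, mem_insert, forall_eq_or_imp, not_not] at hd ⊢
      obtain ⟨⟨h1, h2⟩, h3, h4, h5⟩ := hd
      refine ⟨⟨⟨Nat.mul_pos hp.pos h1, ?_⟩, ?_, ?_⟩, dvd_mul_right p d⟩
      · exact (Nat.mul_le_mul_left p h2).trans (Nat.mul_div_le n p)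
      · exact (Nat.squarefree_mul ((Nat.Prime.coprime_iff_not_dvd hp).2 h4)).2 ⟨hp.squarefree, h3⟩
      · intro q hq hd
        rcases (Nat.Prime.dvd_mul (hm q hq)).1 hd with h | h
        · have := (Nat.prime_dvd_prime_iff_eq (hm q hq) hp).1 h
          exact hpm (this ▸ hq)
        · exact h5 q hq h
    · intro a _ b _ hab
      exact Nat.eq_of_mul_eq_mul_left hp.pos hab
    · intro d hd
      simp only [mem_filter, mem_Ioc, not_not] at hd
      obtain ⟨⟨⟨h1, h2⟩, h3, h4⟩, c, rfl⟩ := hd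
      refine ⟨c, ?_, rfl⟩
      simp only [mem_filter, mem_Ioc, mem_insert, forall_eq_or_imp]
      have hc0 : 0 < c := Nat.pos_of_ne_zero (by rintro rfl; simp at h1)
      refine ⟨⟨hc0, ?_⟩, ?_, ?_, ?_⟩
      · exact (Nat.le_div_iff_mul_le hp.pos).2 (by rw [mul_comm]; exact h2)
      · exact h3.squarefree_of_dvd (dvd_mul_left c p)
      · intro hpc
        have h5 : p * p ∣ p * c := Nat.mul_dvd_mul_left p hpc
        exact hp.one_lt.ne' (Nat.isUnit_iff.1 (h3 p h5))
      · intro q hq hqc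
        exact h4 q hq (hqc.mul_left p)
    · intro d hd
      simp only [mem_filter, mem_Ioc, mem_insert, forall_eq_or_imp] at hd
      obtain ⟨⟨h1, h2⟩, h3, h4, h5⟩ := hd
      rw [Nat.totient_mul ((Nat.Prime.coprime_iff_not_dvd hp).2 h4), Nat.totient_prime hp]
      have h6 : 1 ≤ p := hp.one_le
      push_cast [Nat.cast_sub h6]
      rw [one_div_mul_one_div]

lemma G_mono_diff (m : Finset ℕ) {a b : ℕ} (hab : a ≤ b) : G m b - G m a ≤ G ∅ b - G ∅ a := by
  have h : ∀ m : Finset ℕ, G m b - G m a =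
      ∑ d ∈ (Ioc a b).filter (fun d => Squarefree d ∧ ∀ p ∈ m, ¬ p ∣ d), (1 : ℝ) / Nat.totient d := by
    intro m
    unfold G
    rw [sub_eq_iff_eq_add, ← Finset.Ioc_union_Ioc_eq_Ioc (Nat.zero_le a) hab, Finset.filter_union,
      Finset.sum_union, add_comm]
    refine Finset.disjoint_filter_filter ?_
    rw [Finset.disjoint_left]
    intro x hx hx'
    rw [mem_Ioc] at hx hx'
    omega
  rw [h m, h ∅]
  refine Finset.sum_le_sum_of_subset_of_nonneg ?_ fun _ _ _ => by positivity
  intro d hd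
  simp only [mem_filter, notMem_empty, false_implies, implies_true, and_true] at hd ⊢
  exact ⟨hd.1, hd.2.1⟩

/-- `∏ p/(p-1)` -/
noncomputable def sg (m : Finset ℕ) : ℝ := ∏ p ∈ m, (p : ℝ) / ((p : ℝ) - 1)

lemma fac_one_le {p : ℕ} (hp : p.Prime) : 1 ≤ (p : ℝ) / ((p : ℝ) - 1) := by
  have : (2 : ℝ) ≤ p := by exact_mod_cast hp.two_le
  rw [le_div_iff₀ (by linarith)]
  linarith

lemma sg_one_le (m : Finset ℕ) (hm : ∀ q ∈ m, q.Prime) : 1 ≤ sg m := by
  unfold sg
  exact Finset.one_le_prod (fun p hp => fac_one_le (hm p hp))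

/-- the constant of the estimate of `G ∅` -/
lemma G_log : ∃ C : ℝ, 0 < C ∧ (∀ n : ℕ, 1 ≤ n → G ∅ n ≤ Real.log n + C) ∧
    ∀ n p : ℕ, 1 ≤ n → 1 ≤ p → G ∅ n - G ∅ (n / p) ≤ Real.log p + C := by
  obtain ⟨C, hC, h⟩ := H343.PhiSum.totient_upper
  refine ⟨C + Real.log 2, by have := Real.log_pos one_lt_two; linarith, ?_, ?_⟩
  · intro n hn
    rw [G_empty]
    have := h n hn
    have := Real.log_pos one_lt_two
    linarith
  · intro n p hn hp
    rw [G_empty, G_empty]
    have h1 := h n hn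
    have hl2 := Real.log_pos one_lt_two
    have hn0 : (0 : ℝ) < n := by exact_mod_cast hn
    have hp0 : (0 : ℝ) < p := by exact_mod_cast hp
    rcases lt_or_ge n p with hnp | hnp
    · rw [Nat.div_eq_of_lt hnp]
      have h0 : H343.LL 0 0 = 0 := by simp [H343.LL, H343.Mod]
      rw [h0]
      have : Real.log n ≤ Real.log p := Real.log_le_log hn0 (by exact_mod_cast hnp.le)
      linarith
    · have h2 : 1 ≤ n / p := (Nat.one_le_div_iff hp).2 hnp
      have h3 := H343.PhiSum.totient_lower (n / p) h2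
      have h4 : (n : ℝ) ≤ 2 * p * ((n / p : ℕ) : ℝ) := by
        have h5 : n < p * (n / p) + p := by
          have := Nat.div_add_mod n p
          have := Nat.mod_lt n hp
          omega
        have h6 : p ≤ p * (n / p) := Nat.le_mul_of_pos_right p h2
        have h7 : n ≤ 2 * p * (n / p) := by nlinarith
        exact_mod_cast h7
      have h5 : Real.log n ≤ Real.log 2 + Real.log p + Real.log ((n / p : ℕ) : ℝ) := by
        have h6 : (0 : ℝ) < ((n / p : ℕ) : ℝ) := by exact_mod_cast h2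
        have := Real.log_le_log hn0 h4
        rwa [Real.log_mul (by positivity) h6.ne', Real.log_mul (by norm_num) hp0.ne'] at this
      linarith

/-- the upper bound for `G` -/
lemma G_upper {C : ℝ} (hC : 0 < C) (h1 : ∀ n : ℕ, 1 ≤ n → G ∅ n ≤ Real.log n + C)
    (h2 : ∀ n p : ℕ, 1 ≤ n → 1 ≤ p → G ∅ n - G ∅ (n / p) ≤ Real.log p + C)
    (m : Finset ℕ) : (∀ q ∈ m, q.Prime) → ∀ n : ℕ, 1 ≤ n →
      sg m * G m n ≤ Real.log n + C + sg m * ∑ p ∈ m, (Real.log p + C) / p := by
  induction m using Finset.induction_on with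
  | empty =>
    intro _ n hn
    simp only [sg, Finset.prod_empty, one_mul, Finset.sum_empty, add_zero]
    exact h1 n hn
  | insert p m hpm ih =>
    intro hm n hn
    have hp : p.Prime := hm p (mem_insert_self p m)
    have hm' : ∀ q ∈ m, q.Prime := fun q hq => hm q (mem_insert_of_mem hq)
    have ih' := ih hm' n hn
    have hp2 : (2 : ℝ) ≤ p := by exact_mod_cast hp.two_le
    have hp1 : (0 : ℝ) < (p : ℝ) - 1 := by linarith
    have hs := G_split m hp hm' hpm n
    have hd := (G_mono_diff (insert p m) (Nat.div_le_self n p)).trans (h2 n p hn hp.one_le)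
    have hsg : sg (insert p m) = (p : ℝ) / ((p : ℝ) - 1) * sg m := by
      unfold sg; rw [Finset.prod_insert hpm]
    have hsg1 := sg_one_le m hm'
    have e1 : (p : ℝ) / ((p : ℝ) - 1) * G (insert p m) n ≤ G m n + (Real.log p + C) / ((p : ℝ) - 1) := by
      have e2 : (p : ℝ) / ((p : ℝ) - 1) * G (insert p m) n =
          G m n + (G (insert p m) n - G (insert p m) (n / p)) / ((p : ℝ) - 1) := by
        rw [hs]
        field_simp
        ring
      rw [e2]
      have := div_le_div_of_nonneg_right hd hp1.le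
      linarith
    have hS : 0 ≤ ∑ q ∈ m, (Real.log q + C) / q :=
      Finset.sum_nonneg fun q _ => div_nonneg (add_nonneg (Real.log_natCast_nonneg q) hC.le)
        (Nat.cast_nonneg q)
    rw [Finset.sum_insert hpm]
    have e3 : sg (insert p m) * G (insert p m) n ≤
        sg m * G m n + sg m * ((Real.log p + C) / ((p : ℝ) - 1)) := by
      rw [hsg]
      have := mul_le_mul_of_nonneg_left e1 (by linarith : (0 : ℝ) ≤ sg m)
      calc (p : ℝ) / ((p : ℝ) - 1) * sg m * G (insert p m) n =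
          sg m * ((p : ℝ) / ((p : ℝ) - 1) * G (insert p m) n) := by ring
        _ ≤ _ := this
        _ = _ := by ring
    have e4 : sg m * ((Real.log p + C) / ((p : ℝ) - 1)) =
        sg (insert p m) * ((Real.log p + C) / p) := by
      rw [hsg]
      field_simp
    have e5 : sg m * ∑ q ∈ m, (Real.log q + C) / q ≤
        sg (insert p m) * ∑ q ∈ m, (Real.log q + C) / q := by
      refine mul_le_mul_of_nonneg_right ?_ hS
      rw [hsg]
      have := fac_one_le hp
      nlinarith
    rw [mul_add]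
    linarith

/-- partial summation -/
lemma AL (f : ℕ → ℝ) (E C κ : ℝ) (hC : 0 < C) (hκ : 0 < κ) (X : ℕ)
    (hS : ∀ n : ℕ, 1 ≤ n → n ≤ X → ∑ d ∈ Ioc 0 n, f d ≤ Real.log n + E) (hX : 1 ≤ X) :
    ∑ d ∈ Ioc 0 X, f d / (C + κ * Real.log d) ≤
      E / C + (Real.log (C + κ * Real.log X) - Real.log C) / κ := by
  have key : ∀ n : ℕ, 1 ≤ n → n ≤ X → ∑ d ∈ Ioc 0 n, f d / (C + κ * Real.log d) ≤
      (∑ d ∈ Ioc 0 n, f d - Real.log n - E) / (C + κ * Real.log n) + E / C +
        (Real.log (C + κ * Real.log n) - Real.log C) / κ := by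
    intro n hn
    induction n, hn using Nat.le_induction with
    | base =>
      intro _
      simp only [Nat.cast_one, Real.log_one, mul_zero, add_zero, sub_zero, sub_self, zero_div]
      rw [show Ioc 0 1 = {1} by rfl]
      simp only [Finset.sum_singleton, Nat.cast_one, Real.log_one, mul_zero, add_zero]
      rw [← add_div]
      apply le_of_eq
      congr 1
      ring
    | succ n hn ih =>
      intro hnX
      have ih' := ih (by omega)
      have hS' := hS n hn (by omega)
      have hIoc : Ioc 0 (n + 1) = insert (n + 1) (Ioc 0 n) := by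
        ext x; simp only [mem_insert, mem_Ioc]; omega
      have hnot : n + 1 ∉ Ioc 0 n := by simp
      rw [hIoc, Finset.sum_insert hnot, Finset.sum_insert hnot]
      set w := Real.log n with hw
      set v := Real.log ((n + 1 : ℕ) : ℝ) with hv
      have hw0 : 0 ≤ w := Real.log_natCast_nonneg n
      have hn0 : (0 : ℝ) < n := by exact_mod_cast hn
      have hvw : w ≤ v := Real.log_le_log hn0 (by push_cast; linarith)
      have hFn : 0 < C + κ * w := by positivity
      have hFv : 0 < C + κ * v := by nlinarith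
      set s := ∑ d ∈ Ioc 0 n, f d with hs
      have h1 : (s - w - E) / (C + κ * w) ≤ (s - w - E) / (C + κ * v) := by
        have hneg : s - w - E ≤ 0 := by linarith
        rw [div_le_div_iff₀ hFn hFv]
        have : C + κ * w ≤ C + κ * v := by nlinarith
        nlinarith
      have h2 : (v - w) / (C + κ * v) ≤ (Real.log (C + κ * v) - Real.log (C + κ * w)) / κ := by
        have h3 := Real.one_sub_inv_le_log_of_pos (div_pos hFv hFn)
        rw [Real.log_div hFv.ne' hFn.ne', inv_div] at h3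
        rw [le_div_iff₀ hκ]
        refine le_trans (le_of_eq ?_) h3
        rw [one_sub_div hFv.ne', div_mul_eq_mul_div]
        congr 1
        ring
      have h3 : (f (n + 1) + s - v - E) / (C + κ * v) =
          f (n + 1) / (C + κ * v) + (s - w - E) / (C + κ * v) - (v - w) / (C + κ * v) := by
        rw [← add_div, ← sub_div]
        congr 1
        ring
      have h4 : (Real.log (C + κ * v) - Real.log C) / κ =
          (Real.log (C + κ * v) - Real.log (C + κ * w)) / κ + (Real.log (C + κ * w) - Real.log C) / κ := by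
        rw [← add_div]
        congr 1
        ring
      rw [h3, h4]
      linarith
  have h1 := key X hX le_rfl
  have h2 := hS X hX le_rfl
  have hF : 0 < C + κ * Real.log X := by
    have := Real.log_natCast_nonneg X
    positivity
  have h3 : (∑ d ∈ Ioc 0 X, f d - Real.log X - E) / (C + κ * Real.log X) ≤ 0 :=
    div_nonpos_of_nonpos_of_nonneg (by linarith) hF.le
  linarith

/-! ### bounds for sets of primes with a small product -/

/-- the sum of `1/p` -/
lemma sum_inv_le (m : Finset ℕ) (hm : ∀ q ∈ m, q.Prime) (L : ℝ) (hL : 1 ≤ L)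
    (h : ∑ p ∈ m, Real.log p ≤ L) : ∑ p ∈ m, (1 : ℝ) / p ≤ 3 + Real.log L := by
  classical
  rw [← Finset.sum_filter_add_sum_filter_not m (fun p : ℕ => (p : ℝ) ≤ L)]
  have h1 : ∑ p ∈ m.filter (fun p : ℕ => (p : ℝ) ≤ L), (1 : ℝ) / p ≤ 1 + Real.log L := by
    have h2 : ∑ p ∈ m.filter (fun p : ℕ => (p : ℝ) ≤ L), (1 : ℝ) / p ≤
        ∑ n ∈ Icc 1 ⌊L⌋₊, (1 : ℝ) / n := by
      refine Finset.sum_le_sum_of_subset_of_nonneg ?_ fun _ _ _ => by positivity
      intro p hp
      rw [mem_filter] at hp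
      rw [mem_Icc]
      exact ⟨(hm p hp.1).one_le, Nat.le_floor hp.2⟩
    refine h2.trans ?_
    have h3 := harmonic_floor_le_one_add_log L hL
    refine le_trans (le_of_eq ?_) h3
    rw [harmonic_eq_sum_Icc]
    push_cast
    exact Finset.sum_congr rfl fun n _ => by rw [one_div]
  have h2 : ∑ p ∈ m.filter (fun p : ℕ => ¬ (p : ℝ) ≤ L), (1 : ℝ) / p ≤ 2 := by
    have h3 : ∀ p ∈ m.filter (fun p : ℕ => ¬ (p : ℝ) ≤ L), (1 : ℝ) / p ≤
        (1 / (L * Real.log 2)) * Real.log p := by
      intro p hp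
      rw [mem_filter, not_le] at hp
      have hp2 : (2 : ℝ) ≤ p := by exact_mod_cast (hm p hp.1).two_le
      have hl2 := Real.log_pos one_lt_two
      have h4 : Real.log 2 ≤ Real.log p := Real.log_le_log (by norm_num) hp2
      have hL0 : 0 < L := by linarith
      rw [one_div_mul_eq_div, div_le_div_iff₀ (by linarith) (by positivity)]
      nlinarith
    refine (Finset.sum_le_sum h3).trans ?_
    rw [← Finset.mul_sum]
    have h4 : ∑ p ∈ m.filter (fun p : ℕ => ¬ (p : ℝ) ≤ L), Real.log p ≤ L :=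
      (Finset.sum_le_sum_of_subset_of_nonneg (filter_subset _ _)
        fun _ _ _ => Real.log_natCast_nonneg _).trans h
    have hl2 : 1 / 2 ≤ Real.log 2 := by linarith [Real.log_two_gt_d9]
    have hL0 : 0 < L := by linarith
    calc 1 / (L * Real.log 2) * ∑ p ∈ m.filter (fun p : ℕ => ¬ (p : ℝ) ≤ L), Real.log p
        ≤ 1 / (L * Real.log 2) * L := mul_le_mul_of_nonneg_left h4 (by positivity)
      _ = 1 / Real.log 2 := by field_simp
      _ ≤ 2 := by
        rw [div_le_iff₀ (by linarith)]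
        linarith
  linarith

/-- the sum of `log p / p` -/
lemma sum_log_le (m : Finset ℕ) (hm : ∀ q ∈ m, q.Prime) (L : ℝ) (hL : 1 ≤ L)
    (h : ∑ p ∈ m, Real.log p ≤ L) :
    ∑ p ∈ m, Real.log p / p ≤ Real.log L * (1 + Real.log L) + 1 := by
  classical
  rw [← Finset.sum_filter_add_sum_filter_not m (fun p : ℕ => (p : ℝ) ≤ L)]
  have hLL : 0 ≤ Real.log L := Real.log_nonneg hL
  have h1 : ∑ p ∈ m.filter (fun p : ℕ => (p : ℝ) ≤ L), Real.log p / p ≤
      Real.log L * (1 + Real.log L) := by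
    have h2 : ∑ p ∈ m.filter (fun p : ℕ => (p : ℝ) ≤ L), Real.log p / p ≤
        ∑ p ∈ m.filter (fun p : ℕ => (p : ℝ) ≤ L), Real.log L * ((1 : ℝ) / p) := by
      refine Finset.sum_le_sum fun p hp => ?_
      rw [mem_filter] at hp
      have hp0 : (0 : ℝ) < p := by exact_mod_cast (hm p hp.1).pos
      rw [mul_one_div]
      exact div_le_div_of_nonneg_right (Real.log_le_log hp0 hp.2) hp0.le
    refine h2.trans ?_
    rw [← Finset.mul_sum]
    refine mul_le_mul_of_nonneg_left ?_ hLL
    have h2 : ∑ p ∈ m.filter (fun p : ℕ => (p : ℝ) ≤ L), (1 : ℝ) / p ≤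
        ∑ n ∈ Icc 1 ⌊L⌋₊, (1 : ℝ) / n := by
      refine Finset.sum_le_sum_of_subset_of_nonneg ?_ fun _ _ _ => by positivity
      intro p hp
      rw [mem_filter] at hp
      rw [mem_Icc]
      exact ⟨(hm p hp.1).one_le, Nat.le_floor hp.2⟩
    refine h2.trans ?_
    have h3 := harmonic_floor_le_one_add_log L hL
    refine le_trans (le_of_eq ?_) h3
    rw [harmonic_eq_sum_Icc]
    push_cast
    exact Finset.sum_congr rfl fun n _ => by rw [one_div]
  have h2 : ∑ p ∈ m.filter (fun p : ℕ => ¬ (p : ℝ) ≤ L), Real.log p / p ≤ 1 := by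
    have h3 : ∀ p ∈ m.filter (fun p : ℕ => ¬ (p : ℝ) ≤ L), Real.log p / p ≤
        (1 / L) * Real.log p := by
      intro p hp
      rw [mem_filter, not_le] at hp
      have hL0 : 0 < L := by linarith
      rw [one_div_mul_eq_div]
      exact div_le_div_of_nonneg_left (Real.log_natCast_nonneg p) hL0 hp.2.le
    refine (Finset.sum_le_sum h3).trans ?_
    rw [← Finset.mul_sum]
    have h4 : ∑ p ∈ m.filter (fun p : ℕ => ¬ (p : ℝ) ≤ L), Real.log p ≤ L :=
      (Finset.sum_le_sum_of_subset_of_nonneg (filter_subset _ _)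
        fun _ _ _ => Real.log_natCast_nonneg _).trans h
    have hL0 : 0 < L := by linarith
    calc 1 / L * ∑ p ∈ m.filter (fun p : ℕ => ¬ (p : ℝ) ≤ L), Real.log p
        ≤ 1 / L * L := mul_le_mul_of_nonneg_left h4 (by positivity)
      _ = 1 := by field_simp
  linarith

/-- the product `∏ p/(p-1)` is at most `e^6 L^(1/2)` -/
lemma sg_le (m : Finset ℕ) (hm : ∀ q ∈ m, q.Prime) (L : ℝ) (hL : 1 ≤ L)
    (h : ∑ p ∈ m, Real.log p ≤ L) : sg m ≤ Real.exp (6 + 1 / 2 * Real.log L) := by
  classical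
  have h1 : sg m ≤ Real.exp (∑ p ∈ m, 1 / ((p : ℝ) - 1)) := by
    unfold sg
    rw [Real.exp_sum]
    refine Finset.prod_le_prod (fun p hp => zero_le_one.trans (fac_one_le (hm p hp))) fun p hp => ?_
    have hp2 : (2 : ℝ) ≤ p := by exact_mod_cast (hm p hp).two_le
    have := Real.add_one_le_exp (1 / ((p : ℝ) - 1))
    refine le_trans (le_of_eq ?_) this
    have : (p : ℝ) - 1 ≠ 0 := by linarith
    field_simp
    ring
  refine h1.trans (Real.exp_le_exp.2 ?_)
  -- odd primes at most `L`, larger primes, and `2`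
  have hsub : m ⊆ {2} ∪ (m.filter (fun p : ℕ => p ≠ 2 ∧ (p : ℝ) ≤ L) ∪
      m.filter (fun p : ℕ => ¬ (p : ℝ) ≤ L)) := by
    intro p hp
    simp only [mem_union, mem_singleton, mem_filter]
    tauto
  have hnn : ∀ p : ℕ, p ∈ ({2} ∪ (m.filter (fun p : ℕ => p ≠ 2 ∧ (p : ℝ) ≤ L) ∪
      m.filter (fun p : ℕ => ¬ (p : ℝ) ≤ L))) → 0 ≤ 1 / ((p : ℝ) - 1) := by
    intro p hp
    simp only [mem_union, mem_singleton, mem_filter] at hp
    have : (2 : ℝ) ≤ p := by
      rcases hp with h | h | h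
      · rw [h]; norm_num
      · exact_mod_cast (hm p h.1).two_le
      · exact_mod_cast (hm p h.1).two_le
    exact div_nonneg zero_le_one (by linarith)
  have h2 := Finset.sum_le_sum_of_subset_of_nonneg hsub (fun p hp _ => hnn p hp)
  refine h2.trans ?_
  have hun : ∀ (A B : Finset ℕ) (F : ℕ → ℝ), (∀ x ∈ A ∪ B, 0 ≤ F x) →
      ∑ x ∈ A ∪ B, F x ≤ ∑ x ∈ A, F x + ∑ x ∈ B, F x := by
    intro A B F hF
    rw [← Finset.sum_union_inter]
    exact le_add_of_nonneg_right (Finset.sum_nonneg fun x hx =>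
      hF x (mem_union_left _ (mem_inter.1 hx).1))
  refine (hun _ _ _ hnn).trans ?_
  refine (add_le_add le_rfl (hun _ _ _ fun x hx => hnn x (mem_union_right _ hx))).trans ?_
  have a1 : ∑ p ∈ ({2} : Finset ℕ), 1 / ((p : ℝ) - 1) = 1 := by norm_num
  have hL0 : 0 < L := by linarith
  have a2 : ∑ p ∈ m.filter (fun p : ℕ => p ≠ 2 ∧ (p : ℝ) ≤ L), 1 / ((p : ℝ) - 1) ≤
      1 / 2 * (1 + Real.log L) := by
    have b1 : ∑ p ∈ m.filter (fun p : ℕ => p ≠ 2 ∧ (p : ℝ) ≤ L), 1 / ((p : ℝ) - 1) ≤
        ∑ j ∈ Icc 1 ⌊L⌋₊, (1 / 2 : ℝ) * (1 / (j : ℝ)) := by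
      have b2 : ∑ p ∈ m.filter (fun p : ℕ => p ≠ 2 ∧ (p : ℝ) ≤ L), 1 / ((p : ℝ) - 1) =
          ∑ j ∈ ((m.filter (fun p : ℕ => p ≠ 2 ∧ (p : ℝ) ≤ L)).image (fun p : ℕ => p / 2) :
            Finset ℕ), (1 / 2 : ℝ) * (1 / (j : ℝ)) := by
        rw [Finset.sum_image]
        · refine Finset.sum_congr rfl fun p hp => ?_
          rw [mem_filter] at hp
          have ho := (hm p hp.1).odd_of_ne_two hp.2.1
          obtain ⟨j, hj⟩ := ho
          have : p / 2 = j := by omega
          rw [this, hj]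
          push_cast
          rw [add_sub_cancel_right, one_div_mul_one_div]
        · intro a ha b hb hab
          rw [mem_coe, mem_filter] at ha hb
          obtain ⟨i, hi⟩ := (hm a ha.1).odd_of_ne_two ha.2.1
          obtain ⟨j, hj⟩ := (hm b hb.1).odd_of_ne_two hb.2.1
          simp only at hab
          omega
      rw [b2]
      refine Finset.sum_le_sum_of_subset_of_nonneg ?_ fun _ _ _ => by positivity
      intro j hj
      rw [mem_image] at hj
      obtain ⟨p, hp, rfl⟩ := hj
      rw [mem_filter] at hp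
      rw [mem_Icc]
      have h4 : p ≤ ⌊L⌋₊ := Nat.le_floor hp.2.2
      have h5 := (hm p hp.1).two_le
      omega
    refine b1.trans ?_
    rw [← Finset.mul_sum]
    refine mul_le_mul_of_nonneg_left ?_ (by norm_num)
    have h3 := harmonic_floor_le_one_add_log L hL
    refine le_trans (le_of_eq ?_) h3
    rw [harmonic_eq_sum_Icc]
    push_cast
    exact Finset.sum_congr rfl fun n _ => by rw [one_div]
  have a3 : ∑ p ∈ m.filter (fun p : ℕ => ¬ (p : ℝ) ≤ L), 1 / ((p : ℝ) - 1) ≤ 4 := by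
    have h3 : ∀ p ∈ m.filter (fun p : ℕ => ¬ (p : ℝ) ≤ L), 1 / ((p : ℝ) - 1) ≤
        (2 / (L * Real.log 2)) * Real.log p := by
      intro p hp
      rw [mem_filter, not_le] at hp
      have hp2 : (2 : ℝ) ≤ p := by exact_mod_cast (hm p hp.1).two_le
      have hl2 := Real.log_pos one_lt_two
      have h4 : Real.log 2 ≤ Real.log p := Real.log_le_log (by norm_num) hp2
      rw [div_mul_eq_mul_div, div_le_div_iff₀ (by linarith) (by positivity)]
      nlinarith [mul_le_mul h4 (by linarith : (p : ℝ) ≤ 2 * ((p : ℝ) - 1)) (by linarith) (by linarith)]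
    refine (Finset.sum_le_sum h3).trans ?_
    rw [← Finset.mul_sum]
    have h4 : ∑ p ∈ m.filter (fun p : ℕ => ¬ (p : ℝ) ≤ L), Real.log p ≤ L :=
      (Finset.sum_le_sum_of_subset_of_nonneg (filter_subset _ _)
        fun _ _ _ => Real.log_natCast_nonneg _).trans h
    have hl2 : 1 / 2 ≤ Real.log 2 := by linarith [Real.log_two_gt_d9]
    calc 2 / (L * Real.log 2) * ∑ p ∈ m.filter (fun p : ℕ => ¬ (p : ℝ) ≤ L), Real.log p
        ≤ 2 / (L * Real.log 2) * L := mul_le_mul_of_nonneg_left h4 (by positivity)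
      _ = 2 / Real.log 2 := by field_simp
      _ ≤ 4 := by
        rw [div_le_iff₀ (by linarith)]
        linarith
  rw [a1]
  linarith

end Pool.Agent.D0H37.KS
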