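import Pool.Agent.D0H37.KS.Conc
import Pool.Agent.D0H37.KS.Ana

/-! Assembly. Author: helper37. -/

set_option autoImplicit false

open Finset Filter

namespace Pool.Agent.D0H37.KS

lemma prod_primes_aux (s : Finset ℕ) : (∀ p ∈ s, p.Prime) →
    Squarefree (∏ p ∈ s, p) ∧ ((Nat.totient (∏ p ∈ s, p) : ℕ) : ℝ) = ∏ p ∈ s, ((p : ℝ) - 1) ∧
      (∀ q : ℕ, q.Prime → q ∣ ∏ p ∈ s, p → q ∈ s) ∧ 0 < ∏ p ∈ s, p := by
  induction s using Finset.induction_on with
  | empty =>
    intro _
    refine ⟨by simp, by simp, fun q hq h => ?_, by simp⟩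
    rw [Finset.prod_empty, Nat.dvd_one] at h
    exact absurd h hq.one_lt.ne'
  | insert p s hps ih =>
    intro hs
    have hp := hs p (mem_insert_self p s)
    obtain ⟨h1, h2, h3, h4⟩ := ih fun q hq => hs q (mem_insert_of_mem hq)
    have hcop : Nat.Coprime p (∏ q ∈ s, q) := by
      rw [Nat.Prime.coprime_iff_not_dvd hp]
      intro h
      exact hps (h3 p hp h)
    rw [Finset.prod_insert hps]
    refine ⟨(Nat.squarefree_mul hcop).2 ⟨hp.squarefree, h1⟩, ?_, ?_, Nat.mul_pos hp.pos h4⟩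
    · rw [Nat.totient_mul hcop, Nat.totient_prime hp, Finset.prod_insert hps, Nat.cast_mul, h2,
        Nat.cast_sub hp.one_le, Nat.cast_one]
    · intro q hq hd
      rcases (Nat.Prime.dvd_mul hq).1 hd with h | h
      · rw [(Nat.prime_dvd_prime_iff_eq hq hp).1 h]
        exact mem_insert_self p s
      · exact mem_insert_of_mem (h3 q hq h)

lemma sum_log_prod (s : Finset ℕ) (hs : ∀ p ∈ s, p.Prime) :
    ∑ p ∈ s, Real.log p = Real.log ((∏ p ∈ s, p : ℕ) : ℝ) := by
  rw [Nat.cast_prod, Real.log_prod]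
  intro p hp
  exact_mod_cast (hs p hp).ne_zero

lemma bet_final (m P' : Finset ℕ) (dd : ℕ → ℝ) (hP : ∀ p ∈ P', p.Prime) (hPm : ∀ p ∈ P', p ∉ m)
    (hm : ∀ p ∈ m, p.Prime) (a' y C κ E : ℝ) (hy : 0 ≤ y) (hC : 0 < C) (hyC : y ≤ C) (hκ : 0 < κ)
    (hdd : ∀ S, S ⊆ P' → ∑ p ∈ S, Real.log p ≤ y →
      C + κ * ∑ p ∈ S, Real.log p ≤ a' + ∑ p ∈ S, dd p)
    (hE : ∀ n : ℕ, 1 ≤ n → sg m * G m n ≤ Real.log n + E) :
    sg m * bet (fun p => Real.log p) dd P' a' y ≤ E / C + Real.log (1 + κ) / κ := by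
  classical
  have hsg : 0 ≤ sg m := zero_le_one.trans (sg_one_le m hm)
  set X := ⌊Real.exp y⌋₊ with hX
  have hX1 : 1 ≤ X := Nat.le_floor (by simpa using Real.one_le_exp hy)
  have hXy : Real.log X ≤ y := by
    have h0 : (0 : ℝ) < X := by exact_mod_cast hX1
    rw [Real.log_le_iff_le_exp h0]
    exact Nat.floor_le (Real.exp_pos y).le
  set F : ℕ → ℝ := fun d => (1 : ℝ) / Nat.totient d / (C + κ * Real.log d) with hF
  have hF0 : ∀ d, 0 ≤ F d := by
    intro d
    have := Real.log_natCast_nonneg d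
    simp only [hF]
    positivity
  -- the sum over subsets
  have hb : bet (fun p => Real.log p) dd P' a' y ≤
      ∑ d ∈ (Ioc 0 X).filter (fun d => Squarefree d ∧ ∀ p ∈ m, ¬ p ∣ d), F d := by
    unfold bet
    rw [← Finset.sum_filter]
    have h1 : ∑ S ∈ P'.powerset.filter (fun S : Finset ℕ => ∑ p ∈ S, Real.log (p : ℝ) ≤ y),
        (∏ p ∈ S, ((p : ℝ) - 1)⁻¹) / (a' + ∑ p ∈ S, dd p) ≤
        ∑ S ∈ P'.powerset.filter (fun S : Finset ℕ => ∑ p ∈ S, Real.log (p : ℝ) ≤ y),
          F (∏ p ∈ S, p) := by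
      refine Finset.sum_le_sum fun S hS => ?_
      rw [mem_filter, mem_powerset] at hS
      have hSp : ∀ p ∈ S, p.Prime := fun p hp => hP p (hS.1 hp)
      obtain ⟨-, h2, -, h3⟩ := prod_primes_aux S hSp
      have h4 := hdd S hS.1 hS.2
      simp only [hF]
      rw [h2, ← sum_log_prod S hSp, Finset.prod_inv_distrib, ← one_div]
      have h5 : 0 ≤ ∑ p ∈ S, Real.log p := Finset.sum_nonneg fun p _ => Real.log_natCast_nonneg p
      have h6 : 0 < C + κ * ∑ p ∈ S, Real.log p := by positivity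
      refine div_le_div_of_nonneg_left ?_ h6 h4
      refine one_div_nonneg.2 (Finset.prod_nonneg fun p hp => ?_)
      have : (1 : ℝ) ≤ p := by exact_mod_cast (hSp p hp).one_le
      linarith
    refine h1.trans ?_
    have h2 : ∑ S ∈ P'.powerset.filter (fun S : Finset ℕ => ∑ p ∈ S, Real.log (p : ℝ) ≤ y),
        F (∏ p ∈ S, p) =
        ∑ d ∈ (P'.powerset.filter (fun S : Finset ℕ => ∑ p ∈ S, Real.log (p : ℝ) ≤ y)).image
          (fun S : Finset ℕ => ∏ p ∈ S, p), F d := by
      rw [Finset.sum_image]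
      intro S hS T hT hST
      rw [mem_coe, mem_filter, mem_powerset] at hS hT
      have e1 := Nat.primeFactors_prod (s := S) fun p hp => hP p (hS.1 hp)
      have e2 := Nat.primeFactors_prod (s := T) fun p hp => hP p (hT.1 hp)
      have hST' : ∏ p ∈ S, p = ∏ p ∈ T, p := hST
      rw [← e1, ← e2, hST']
    rw [h2]
    refine Finset.sum_le_sum_of_subset_of_nonneg ?_ fun d _ _ => hF0 d
    intro d hd
    rw [mem_image] at hd
    obtain ⟨S, hS, rfl⟩ := hd
    rw [mem_filter, mem_powerset] at hS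
    have hSp : ∀ p ∈ S, p.Prime := fun p hp => hP p (hS.1 hp)
    obtain ⟨g1, -, g3, g4⟩ := prod_primes_aux S hSp
    rw [mem_filter, mem_Ioc]
    refine ⟨⟨g4, ?_⟩, g1, fun p hp hd => ?_⟩
    · refine Nat.le_floor ?_
      have h5 : (0 : ℝ) < ((∏ p ∈ S, p : ℕ) : ℝ) := by exact_mod_cast g4
      rw [← Real.log_le_iff_le_exp h5, ← sum_log_prod S hSp]
      exact hS.2
    · have := g3 p (hm p hp) hd
      exact hPm p (hS.1 this) hp
  -- partial summation
  set f : ℕ → ℝ := fun d => if Squarefree d ∧ ∀ p ∈ m, ¬ p ∣ d then sg m * ((1 : ℝ) / Nat.totient d)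
    else 0 with hf
  have hfS : ∀ n : ℕ, ∑ d ∈ Ioc 0 n, f d = sg m * G m n := by
    intro n
    unfold G
    rw [Finset.mul_sum, Finset.sum_filter]
  have hAL := AL f E C κ hC hκ X (fun n hn _ => by rw [hfS]; exact hE n hn) hX1
  have hle : sg m * bet (fun p => Real.log p) dd P' a' y ≤
      ∑ d ∈ Ioc 0 X, f d / (C + κ * Real.log d) := by
    refine (mul_le_mul_of_nonneg_left hb hsg).trans (le_of_eq ?_)
    rw [Finset.mul_sum, Finset.sum_filter]
    refine Finset.sum_congr rfl fun d _ => ?_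
    simp only [hf, hF]
    split_ifs
    · rw [← mul_div_assoc]
    · rw [zero_div]
  refine hle.trans (hAL.trans ?_)
  refine add_le_add le_rfl (div_le_div_of_nonneg_right ?_ hκ.le)
  have h0 : 0 ≤ Real.log X := Real.log_natCast_nonneg X
  have h1 : C + κ * Real.log X ≤ (1 + κ) * C := by nlinarith
  have h2 := Real.log_le_log (by positivity) h1
  rw [Real.log_mul (by positivity) hC.ne'] at h2
  linarith

/-- a prime dividing some difference of the shifts -/
def bad {k : ℕ} (h : Fin k → ℤ) (p : ℕ) : Prop := ∃ i j, i ≠ j ∧ (p : ℤ) ∣ h i - h j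

open Classical in
/-- the factors `ρ` -/
noncomputable def rho {k : ℕ} (h : Fin k → ℤ) (p : ℕ) : ℝ :=
  if bad h p then (k : ℝ) else (p : ℝ) / ((p : ℝ) - 1)

lemma bad_sum {k : ℕ} (h : Fin k → ℤ) (hinj : Function.Injective h) (X : ℝ) (hX : 1 ≤ X)
    (hh : ∀ i, |(h i : ℝ)| ≤ X) (S : Finset ℕ) (hS : ∀ p ∈ S, p.Prime) (hb : ∀ p ∈ S, bad h p) :
    ∑ p ∈ S, Real.log p ≤ (k : ℝ) ^ 2 * Real.log (2 * X) := by
  classical
  set D : ℕ := ∏ x ∈ (univ : Finset (Fin k)).offDiag, (h x.1 - h x.2).natAbs with hD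
  have hpos : ∀ x ∈ (univ : Finset (Fin k)).offDiag, 0 < (h x.1 - h x.2).natAbs := by
    intro x hx
    rw [mem_offDiag] at hx
    rw [Int.natAbs_pos, sub_ne_zero]
    exact fun h' => hx.2.2 (hinj h')
  have hD0 : 0 < D := Finset.prod_pos hpos
  have hdvd : ∏ p ∈ S, p ∣ D := by
    refine Finset.prod_primes_dvd D (fun p hp => (hS p hp).prime) fun p hp => ?_
    obtain ⟨i, j, hij, hd⟩ := hb p hp
    have h1 : p ∣ (h i - h j).natAbs := Int.natCast_dvd.1 hd
    have h2 : (i, j) ∈ (univ : Finset (Fin k)).offDiag := mem_offDiag.2 ⟨mem_univ i, mem_univ j, hij⟩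
    have h3 := Finset.dvd_prod_of_mem (fun x : Fin k × Fin k => (h x.1 - h x.2).natAbs) h2
    exact h1.trans h3
  rw [sum_log_prod S hS]
  have h1 : Real.log ((∏ p ∈ S, p : ℕ) : ℝ) ≤ Real.log (D : ℝ) := by
    refine Real.log_le_log ?_ (by exact_mod_cast Nat.le_of_dvd hD0 hdvd)
    exact_mod_cast (prod_primes_aux S hS).2.2.2
  refine h1.trans ?_
  have h2 : Real.log (D : ℝ) = ∑ x ∈ (univ : Finset (Fin k)).offDiag,
      Real.log ((h x.1 - h x.2).natAbs : ℝ) := by
    rw [hD, Nat.cast_prod, Real.log_prod]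
    intro x hx
    exact_mod_cast (hpos x hx).ne'
  rw [h2]
  have h3 : ∀ x ∈ (univ : Finset (Fin k)).offDiag, Real.log ((h x.1 - h x.2).natAbs : ℝ) ≤
      Real.log (2 * X) := by
    intro x hx
    refine Real.log_le_log (by exact_mod_cast hpos x hx) ?_
    rw [Nat.cast_natAbs, Int.cast_abs, Int.cast_sub]
    have := abs_sub (h x.1 : ℝ) (h x.2 : ℝ)
    have := hh x.1
    have := hh x.2
    linarith
  refine (Finset.sum_le_sum h3).trans ?_
  rw [Finset.sum_const, nsmul_eq_mul]
  refine mul_le_mul_of_nonneg_right ?_ (Real.log_nonneg (by linarith))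
  rw [offDiag_card, card_univ, Fintype.card_fin]
  have : k * k - k ≤ k ^ 2 := by
    rw [sq]; exact Nat.sub_le _ _
  exact_mod_cast this

/-- bound for the correction terms -/
lemma corr_le {k : ℕ} (hk : 2 ≤ k) (h : Fin k → ℤ) (hinj : Function.Injective h) (X : ℝ)
    (hX : 1 ≤ X) (hh : ∀ i, |(h i : ℝ)| ≤ X) (S : Finset ℕ) (hS : ∀ p ∈ S, p.Prime) (L : ℝ)
    (hL : 1 ≤ L) (hSL : ∑ p ∈ S, Real.log p ≤ L) :
    ∑ p ∈ S, (rho h p - 1) * Real.log p ≤
      2 * (Real.log L * (1 + Real.log L) + 1) + ((k : ℝ) - 1) * ((k : ℝ) ^ 2 * Real.log (2 * X)) := by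
  classical
  have hk1 : (0 : ℝ) ≤ (k : ℝ) - 1 := by
    have : (2 : ℝ) ≤ k := by exact_mod_cast hk
    linarith
  have h1 : ∀ p ∈ S, (rho h p - 1) * Real.log p ≤ 2 * (Real.log p / p) +
      (if bad h p then ((k : ℝ) - 1) * Real.log p else 0) := by
    intro p hp
    have hp2 : (2 : ℝ) ≤ p := by exact_mod_cast (hS p hp).two_le
    have hlog : 0 ≤ Real.log (p : ℝ) := Real.log_natCast_nonneg p
    unfold rho
    split_ifs with hb
    · have : 0 ≤ 2 * (Real.log p / p) := by positivity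
      linarith
    · have e : (p : ℝ) / ((p : ℝ) - 1) - 1 = 1 / ((p : ℝ) - 1) := by
        have : (p : ℝ) - 1 ≠ 0 := by linarith
        field_simp
        ring
      rw [e, add_zero, one_div_mul_eq_div, ← mul_div_assoc, div_le_div_iff₀ (by linarith) (by linarith)]
      nlinarith
  refine (Finset.sum_le_sum h1).trans ?_
  rw [Finset.sum_add_distrib, ← Finset.mul_sum, ← Finset.sum_filter, ← Finset.mul_sum]
  have h2 := sum_log_le S hS L hL hSL
  have h3 := bad_sum h hinj X hX hh (S.filter (fun p => bad h p))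
    (fun p hp => hS p (mem_filter.1 hp).1) (fun p hp => (mem_filter.1 hp).2)
  have h4 := mul_le_mul_of_nonneg_left h3 hk1
  linarith

/-- the inequality for one modulus, with explicit conditions -/
theorem core {k : ℕ} (hk : 2 ≤ k) (h : Fin k → ℤ) (hinj : Function.Injective h) (X : ℝ)
    (hX : 1 ≤ X) (hh : ∀ i, |(h i : ℝ)| ≤ X) (N : ℕ) [NeZero N] (L η C₀ : ℝ) (hL : 1 ≤ L)
    (hη : 0 < η) (hC₀ : 0 < C₀) (hG1 : ∀ n : ℕ, 1 ≤ n → G ∅ n ≤ Real.log n + C₀)
    (hG2 : ∀ n p : ℕ, 1 ≤ n → 1 ≤ p → G ∅ n - G ∅ (n / p) ≤ Real.log p + C₀)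
    (c1 : 2 * (Real.log L * (1 + Real.log L) + 1) +
      ((k : ℝ) - 1) * ((k : ℝ) ^ 2 * Real.log (2 * X)) ≤ η / 2 * L)
    (c2 : C₀ + Real.exp (6 + 1 / 2 * Real.log L) *
      ((Real.log L * (1 + Real.log L) + 1) + C₀ * (3 + Real.log L)) ≤ η ^ 2 / 2 * L)
    (g : ZMod N → ℝ) (hg : g ∈ Lev (sys N) (fun p => Real.log p) N.primeFactors L) :
    ∑ i, ∑ x, (shift N (h i)).W N.primeFactors x * g x ^ 2 ≤
      (η + Real.log k / ((k : ℝ) - 1)) * (k * ((1 + η) * L) * nrm g) := by
  classical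
  have hk2 : (2 : ℝ) ≤ k := by exact_mod_cast hk
  have hk1 : (0 : ℝ) < (k : ℝ) - 1 := by linarith
  have hkpos : 1 ≤ k := by omega
  have hPp : ∀ p ∈ N.primeFactors, p.Prime := fun p hp => Nat.prime_of_mem_primeFactors hp
  have hlogk : 0 < Real.log k := Real.log_pos (by linarith)
  refine main_alg (fun i => shift N (h i)) (fun p => Real.log p) (fun p => rho h p * Real.log p)
    (fun p _ => Real.log_natCast_nonneg p) ?_ ?_ ((1 + η) * L) L (η + Real.log k / ((k : ℝ) - 1))
    (by positivity) ?_ g hg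
  · intro p hp
    refine mul_le_mul_of_nonneg_right ?_ (Real.log_natCast_nonneg p)
    have hp2 : (2 : ℝ) ≤ p := by exact_mod_cast (hPp p hp).two_le
    unfold rho
    split_ifs
    · exact le_rfl
    · rw [div_le_iff₀ (by linarith)]
      nlinarith
  · intro p hp g
    have hlog : 0 ≤ Real.log (p : ℝ) := Real.log_natCast_nonneg p
    rw [mul_comm (rho h p), mul_assoc]
    refine mul_le_mul_of_nonneg_left ?_ hlog
    by_cases hb : bad h p
    · have e : rho h p = k := by unfold rho; rw [if_pos hb]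
      rw [e]
      exact Shift.sum_H_all (fun i => shift N (h i)) hp g
    · have e : rho h p = (p : ℝ) / ((p : ℝ) - 1) := by unfold rho; rw [if_neg hb]
      rw [e]
      refine Shift.sum_H_disjoint (fun i => shift N (h i)) hp (fun x => ?_) g
      refine hits_disjoint N h (hPp p hp).one_le (fun i j hij hd => hb ⟨i, j, hij, hd⟩) x
  · intro m hm hms
    have hmp : ∀ p ∈ m, p.Prime := fun p hp => hPp p (hm hp)
    set y := L - ∑ p ∈ m, Real.log (p : ℝ) with hy
    have hy0 : 0 ≤ y := by simp only [hy]; linarith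
    -- the main lower bound
    have hmain : ∀ S, S ⊆ N.primeFactors \ m → ∑ p ∈ S, Real.log (p : ℝ) ≤ y →
        (η / 2 * L + y) + ((k : ℝ) - 1) * ∑ p ∈ S, Real.log (p : ℝ) ≤
        ((1 + η) * L - ∑ p ∈ m, rho h p * Real.log p) +
          ∑ p ∈ S, (k * Real.log p - rho h p * Real.log p) := by
      intro S hS hSy
      have hdis : Disjoint m S := by
        rw [Finset.disjoint_left]
        intro p hp hp'
        exact (mem_sdiff.1 (hS hp')).2 hp
      have hun : ∑ p ∈ m ∪ S, Real.log (p : ℝ) ≤ L := by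
        rw [Finset.sum_union hdis]
        simp only [hy] at hSy
        linarith
      have hprime : ∀ p ∈ m ∪ S, p.Prime := by
        intro p hp
        rcases mem_union.1 hp with h' | h'
        · exact hmp p h'
        · exact hPp p (mem_sdiff.1 (hS h')).1
      have hc := (corr_le hk h hinj X hX hh (m ∪ S) hprime L hL hun).trans c1
      rw [Finset.sum_union hdis] at hc
      have e1 : ∑ p ∈ m, (rho h p - 1) * Real.log p =
          ∑ p ∈ m, rho h p * Real.log p - ∑ p ∈ m, Real.log (p : ℝ) := by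
        rw [← Finset.sum_sub_distrib]
        exact Finset.sum_congr rfl fun p _ => by ring
      have e2 : ∑ p ∈ S, (rho h p - 1) * Real.log p =
          ∑ p ∈ S, rho h p * Real.log p - ∑ p ∈ S, Real.log (p : ℝ) := by
        rw [← Finset.sum_sub_distrib]
        exact Finset.sum_congr rfl fun p _ => by ring
      have e3 : ∑ p ∈ S, (k * Real.log p - rho h p * Real.log p) =
          k * ∑ p ∈ S, Real.log (p : ℝ) - ∑ p ∈ S, rho h p * Real.log p := by
        rw [Finset.sum_sub_distrib, Finset.mul_sum]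
      rw [e1, e2] at hc
      rw [e3]
      simp only [hy]
      linarith
    have hLpos : 0 < η / 2 * L := by positivity
    constructor
    · have h0 := hmain ∅ (empty_subset _) (by simpa using hy0)
      simp only [Finset.sum_empty, mul_zero, add_zero] at h0
      linarith
    · have hE : ∀ n : ℕ, 1 ≤ n → sg m * G m n ≤ Real.log n + η ^ 2 / 2 * L := by
        intro n hn
        refine (G_upper hC₀ hG1 hG2 m hmp n hn).trans ?_
        have hsg := sg_le m hmp L hL hms
        have hsg0 : 0 ≤ sg m := zero_le_one.trans (sg_one_le m hmp)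
        have h1 : ∑ p ∈ m, (Real.log p + C₀) / (p : ℝ) ≤
            (Real.log L * (1 + Real.log L) + 1) + C₀ * (3 + Real.log L) := by
          have e : ∑ p ∈ m, (Real.log p + C₀) / (p : ℝ) =
              ∑ p ∈ m, Real.log p / (p : ℝ) + C₀ * ∑ p ∈ m, (1 : ℝ) / p := by
            rw [Finset.mul_sum, ← Finset.sum_add_distrib]
            exact Finset.sum_congr rfl fun p _ => by ring
          rw [e]
          exact add_le_add (sum_log_le m hmp L hL hms)
            (mul_le_mul_of_nonneg_left (sum_inv_le m hmp L hL hms) hC₀.le)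
        have hnn : 0 ≤ ∑ p ∈ m, (Real.log p + C₀) / (p : ℝ) :=
          Finset.sum_nonneg fun q _ => div_nonneg (add_nonneg (Real.log_natCast_nonneg q) hC₀.le)
            (Nat.cast_nonneg q)
        have h2 : sg m * ∑ p ∈ m, (Real.log p + C₀) / (p : ℝ) ≤
            Real.exp (6 + 1 / 2 * Real.log L) *
              ((Real.log L * (1 + Real.log L) + 1) + C₀ * (3 + Real.log L)) :=
          mul_le_mul hsg h1 hnn (Real.exp_pos _).le
        linarith
      have hfin := bet_final m (N.primeFactors \ m) (fun p => k * Real.log p - rho h p * Real.log p)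
        (fun p hp => hPp p (mem_sdiff.1 hp).1) (fun p hp => (mem_sdiff.1 hp).2) hmp
        ((1 + η) * L - ∑ p ∈ m, rho h p * Real.log p) y (η / 2 * L + y) ((k : ℝ) - 1)
        (η ^ 2 / 2 * L) hy0 (by linarith) (by linarith) hk1 hmain hE
      have hsgdef : sg m = ∏ p ∈ m, (p : ℝ) / ((p : ℝ) - 1) := rfl
      rw [← hsgdef]
      refine hfin.trans ?_
      have e1 : 1 + ((k : ℝ) - 1) = k := by ring
      rw [e1]
      refine add_le_add ?_ le_rfl
      rw [div_le_iff₀ (by linarith)]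
      have : η ^ 2 / 2 * L = η * (η / 2 * L) := by ring
      rw [this]
      exact mul_le_mul_of_nonneg_left (by linarith) hη.le

end Pool.Agent.D0H37.KS
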