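import Pool.Agent.D0H37.KS.Sum

/-! The averaging operators on the integers modulo `N`. Author: helper37. -/

set_option autoImplicit false

open Finset

namespace Pool.Agent.D0H37.KS

section av
variable {N : ℕ} [NeZero N]

/-- average over the translations by the multiples of `c` -/
noncomputable def av (c : ZMod N) : Module.End ℝ (ZMod N → ℝ) where
  toFun f := fun x => (N : ℝ)⁻¹ * ∑ y : ZMod N, f (x + c * y)
  map_add' f g := by
    funext x
    simp only [Pi.add_apply]
    rw [Finset.sum_add_distrib, mul_add]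
  map_smul' r f := by
    funext x
    simp only [Pi.smul_apply, smul_eq_mul, RingHom.id_apply]
    rw [← Finset.mul_sum]
    ring

lemma av_apply (c : ZMod N) (f : ZMod N → ℝ) (x : ZMod N) :
    av c f x = (N : ℝ)⁻¹ * ∑ y : ZMod N, f (x + c * y) := rfl

lemma N_pos : (0 : ℝ) < N := by
  have := NeZero.pos N
  exact_mod_cast this

lemma av_shift (c : ZMod N) (f : ZMod N → ℝ) (x y₀ : ZMod N) :
    av c f (x + c * y₀) = av c f x := by
  rw [av_apply, av_apply]
  congr 1
  rw [← Equiv.sum_comp (Equiv.addLeft y₀) (fun y => f (x + c * y))]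
  refine Finset.sum_congr rfl fun y _ => ?_
  simp only [Equiv.coe_addLeft]
  congr 1
  ring

lemma av_inv (c : ZMod N) (f : ZMod N → ℝ) (h : ∀ x y, f (x + c * y) = f x) : av c f = f := by
  funext x
  rw [av_apply]
  simp only [h, Finset.sum_const, Finset.card_univ, ZMod.card, nsmul_eq_mul]
  rw [inv_mul_cancel_left₀ (N_pos (N := N)).ne']

lemma inv_of_av (c : ZMod N) (f : ZMod N → ℝ) (h : av c f = f) (x y : ZMod N) :
    f (x + c * y) = f x := by
  rw [← h, av_shift]

lemma av_idem (c : ZMod N) (f : ZMod N → ℝ) : av c (av c f) = av c f :=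
  av_inv c _ (fun x y => av_shift c f x y)

lemma av_comm (c d : ZMod N) : Commute (av c) (av d) := by
  refine LinearMap.ext fun f => ?_
  change av c (av d f) = av d (av c f)
  funext x
  simp only [av_apply]
  congr 1
  rw [← Finset.mul_sum, ← Finset.mul_sum]
  congr 1
  rw [Finset.sum_comm]
  refine Finset.sum_congr rfl fun y _ => Finset.sum_congr rfl fun y' _ => ?_
  congr 1
  ring

lemma av_mod (c : ZMod N) (f g : ZMod N → ℝ) (h : av c f = f) : av c (f * g) = f * av c g := by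
  funext x
  simp only [Pi.mul_apply, av_apply]
  simp only [inv_of_av c f h]
  rw [← Finset.mul_sum]
  ring

lemma av_mean (c : ZMod N) (f : ZMod N → ℝ) : ∑ x, av c f x = ∑ x, f x := by
  simp only [av_apply]
  rw [← Finset.mul_sum, Finset.sum_comm]
  have h : ∀ y : ZMod N, ∑ x, f (x + c * y) = ∑ x, f x := by
    intro y
    rw [← Equiv.sum_comp (Equiv.addRight (c * y)) f]
    rfl
  simp only [h, Finset.sum_const, Finset.card_univ, ZMod.card, nsmul_eq_mul]
  rw [inv_mul_cancel_left₀ (N_pos (N := N)).ne']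

lemma av_pos (c : ZMod N) (f : ZMod N → ℝ) (h : 0 ≤ f) : 0 ≤ av c f := by
  intro x
  rw [av_apply]
  exact mul_nonneg (inv_nonneg.2 (N_pos (N := N)).le) (Finset.sum_nonneg fun y _ => h _)

lemma av_one (c : ZMod N) : av c 1 = 1 := av_inv c _ (fun _ _ => rfl)

/-- sums of functions of the residue modulo a divisor -/
lemma sum_cast {p : ℕ} [NeZero p] (hp : p ∣ N) (φ : ZMod p → ℝ) :
    (p : ℝ) * ∑ y : ZMod N, φ (ZMod.cast y) = (N : ℝ) * ∑ c, φ c := by
  have h1 : ∀ c₀ : ZMod p, ∑ y : ZMod N, φ (ZMod.cast y) = ∑ y : ZMod N, φ (ZMod.cast y + c₀) := by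
    intro c₀
    rw [← Equiv.sum_comp (Equiv.addRight ((c₀.val : ℕ) : ZMod N))]
    refine Finset.sum_congr rfl fun y _ => ?_
    simp only [Equiv.coe_addRight]
    rw [ZMod.cast_add hp, ZMod.cast_natCast hp, ZMod.natCast_zmod_val]
  have h2 : ∑ c₀ : ZMod p, ∑ y : ZMod N, φ (ZMod.cast y) = (p : ℝ) * ∑ y : ZMod N, φ (ZMod.cast y) := by
    rw [Finset.sum_const, Finset.card_univ, ZMod.card, nsmul_eq_mul]
  rw [← h2, Finset.sum_congr rfl fun c₀ _ => h1 c₀, Finset.sum_comm]
  have h3 : ∀ y : ZMod N, ∑ c₀ : ZMod p, φ (ZMod.cast y + c₀) = ∑ c, φ c := by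
    intro y
    exact Equiv.sum_comp (Equiv.addLeft (ZMod.cast y : ZMod p)) φ
  rw [Finset.sum_congr rfl fun y _ => h3 y, Finset.sum_const, Finset.card_univ, ZMod.card,
    nsmul_eq_mul]

end av

/-- the part of `N` prime to `p` -/
def cp (N p : ℕ) : ℕ := N / p ^ N.factorization p

lemma dvd_cp {N p q : ℕ} (hN : N ≠ 0) (hp : p.Prime) (hq : q ∣ N) (hpq : ¬ p ∣ q) : q ∣ cp N p := by
  have h1 : p ^ N.factorization p * cp N p = N := Nat.ordProj_mul_ordCompl_eq_self N p
  have h2 : Nat.Coprime q (p ^ N.factorization p) :=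
    ((Nat.Prime.coprime_iff_not_dvd hp).2 hpq).symm.pow_right _
  rw [← h1] at hq
  exact h2.dvd_of_dvd_mul_left hq

lemma cp_coprime {N p : ℕ} (hN : N ≠ 0) (hp : p.Prime) : ¬ p ∣ cp N p :=
  Nat.not_dvd_ordCompl hp hN

section sys
variable (N : ℕ) [NeZero N]

/-- the averaging operators of the primes dividing `N` -/
noncomputable def sys : Sys (ZMod N) N.primeFactors where
  e p := av ((cp N p : ℕ) : ZMod N)
  two p hp := (Nat.prime_of_mem_primeFactors hp).two_le
  comm _ _ _ _ := av_comm _ _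
  idem _ _ f := av_idem _ f
  mod _ _ f g h := av_mod _ f g h
  mean _ _ f := av_mean _ f
  pos _ _ f h := av_pos _ f h
  one _ _ := av_one _

lemma sys_e (p : ℕ) : (sys N).e p = av ((cp N p : ℕ) : ZMod N) := rfl

/-- the function `z_p` of the shift `h` -/
noncomputable def zf (h : ℤ) (p : ℕ) (x : ZMod N) : ℝ :=
  if (ZMod.cast x : ZMod p) + (h : ZMod p) = 0 then (p : ℝ) - 1 else -1

lemma zf_sq (h : ℤ) (p : ℕ) :
    zf N h p * zf N h p = ((p : ℝ) - 2) • zf N h p + ((p : ℝ) - 1) • (1 : ZMod N → ℝ) := by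
  funext x
  simp only [Pi.mul_apply, Pi.add_apply, Pi.smul_apply, smul_eq_mul, Pi.one_apply, zf]
  split_ifs <;> ring

lemma zf_inv (h : ℤ) {p q : ℕ} (hp : p ∈ N.primeFactors) (hq : q ∈ N.primeFactors) (hpq : p ≠ q) :
    (sys N).e q (zf N h p) = zf N h p := by
  rw [sys_e]
  refine av_inv _ _ fun x y => ?_
  have hpN : p ∣ N := Nat.dvd_of_mem_primeFactors hp
  have hpp := Nat.prime_of_mem_primeFactors hp
  have hqp := Nat.prime_of_mem_primeFactors hq
  have hd : p ∣ cp N q := dvd_cp (NeZero.ne N) hqp hpN (by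
    intro h'
    exact hpq ((Nat.prime_dvd_prime_iff_eq hqp hpp).1 h').symm)
  have h0 : (((cp N q : ℕ) : ZMod p)) = 0 := (ZMod.natCast_eq_zero_iff _ _).2 hd
  unfold zf
  rw [ZMod.cast_add hpN, ZMod.cast_mul hpN, ZMod.cast_natCast hpN, h0, zero_mul, add_zero]

lemma sum_phi (h : ℤ) {p : ℕ} [NeZero p] :
    ∑ c : ZMod p, (if c + (h : ZMod p) = 0 then (p : ℝ) - 1 else -1) = 0 := by
  have e : ∀ c : ZMod p, (if c + (h : ZMod p) = 0 then (p : ℝ) - 1 else -1) =
      (if c = -(h : ZMod p) then (p : ℝ) else 0) - 1 := by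
    intro c
    by_cases hc : c = -(h : ZMod p)
    · rw [if_pos hc, if_pos (by rw [hc]; ring)]
    · rw [if_neg hc, if_neg (by intro h'; exact hc (eq_neg_of_add_eq_zero_left h'))]
      ring
  rw [Finset.sum_congr rfl fun c _ => e c, Finset.sum_sub_distrib, Finset.sum_ite_eq']
  simp

lemma zf_e (h : ℤ) {p : ℕ} (hp : p ∈ N.primeFactors) : (sys N).e p (zf N h p) = 0 := by
  rw [sys_e]
  have hpN : p ∣ N := Nat.dvd_of_mem_primeFactors hp
  have hpp := Nat.prime_of_mem_primeFactors hp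
  have : NeZero p := ⟨hpp.ne_zero⟩
  have : Fact p.Prime := ⟨hpp⟩
  funext x
  rw [av_apply, Pi.zero_apply]
  have h0 : (((cp N p : ℕ) : ZMod p)) ≠ 0 := by
    intro h'
    exact cp_coprime (NeZero.ne N) hpp ((ZMod.natCast_eq_zero_iff _ _).1 h')
  set u : ZMod p := ((cp N p : ℕ) : ZMod p) with hu
  have e1 : ∀ y : ZMod N, zf N h p (x + ((cp N p : ℕ) : ZMod N) * y) =
      (fun c : ZMod p => if (ZMod.cast x + u * c) + (h : ZMod p) = 0 then (p : ℝ) - 1 else -1)
        (ZMod.cast y) := by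
    intro y
    unfold zf
    rw [ZMod.cast_add hpN, ZMod.cast_mul hpN, ZMod.cast_natCast hpN]
  rw [Finset.sum_congr rfl fun y _ => e1 y]
  have e2 := sum_cast (N := N) hpN
    (fun c : ZMod p => if (ZMod.cast x + u * c) + (h : ZMod p) = 0 then (p : ℝ) - 1 else -1)
  have e3 : ∑ c : ZMod p, (fun c : ZMod p => if (ZMod.cast x + u * c) + (h : ZMod p) = 0 then
      (p : ℝ) - 1 else -1) c = 0 := by
    rw [← sum_phi h (p := p)]
    have := Equiv.sum_comp ((Equiv.mulLeft₀ u h0).trans (Equiv.addLeft (ZMod.cast x : ZMod p)))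
      (fun c : ZMod p => if c + (h : ZMod p) = 0 then (p : ℝ) - 1 else -1)
    rw [← this]
    rfl
  rw [e3, mul_zero] at e2
  have hp0 : (p : ℝ) ≠ 0 := by exact_mod_cast hpp.ne_zero
  have e4 := (mul_eq_zero.1 e2).resolve_left hp0
  rw [e4, mul_zero]

/-- the shift by `h` -/
noncomputable def shift (h : ℤ) : Shift (sys N) where
  z := zf N h
  inv _ hp _ hq hpq := zf_inv N h hp hq hpq
  ez _ hp := zf_e N h hp
  sq p _ := zf_sq N h p

lemma shift_z (h : ℤ) (p : ℕ) (x : ZMod N) : (shift N h).z p x =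
    if (ZMod.cast x : ZMod p) + (h : ZMod p) = 0 then (p : ℝ) - 1 else -1 := rfl

/-- the hits of distinct residue classes are disjoint -/
lemma hits_disjoint {k : ℕ} (h : Fin k → ℤ) {p : ℕ} (hp : 1 ≤ p)
    (hd : ∀ i j, i ≠ j → ¬ (p : ℤ) ∣ h i - h j) (x : ZMod N) :
    ∑ i, ((shift N (h i)).z p x + 1) ≤ p := by
  simp only [shift_z]
  by_cases hx : ∃ i₀, (ZMod.cast x : ZMod p) + (h i₀ : ZMod p) = 0
  · obtain ⟨i₀, hi₀⟩ := hx
    rw [Finset.sum_eq_single i₀]
    · rw [if_pos hi₀]; linarith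
    · intro j _ hj
      rw [if_neg, neg_add_cancel]
      intro h'
      apply hd j i₀ hj
      have h1 : (h j : ZMod p) = (h i₀ : ZMod p) := by
        have := h'.trans hi₀.symm
        exact add_left_cancel this
      have h2 : ((h j - h i₀ : ℤ) : ZMod p) = 0 := by
        push_cast
        rw [h1, sub_self]
      exact (ZMod.intCast_zmod_eq_zero_iff_dvd _ _).1 h2
    · intro h'; exact absurd (mem_univ _) h'
  · push Not at hx
    have h0 : ∀ i ∈ (univ : Finset (Fin k)), ((if (ZMod.cast x : ZMod p) + (h i : ZMod p) = 0 then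
        (p : ℝ) - 1 else -1) + 1) = 0 := by
      intro i _
      rw [if_neg (hx i), neg_add_cancel]
    rw [Finset.sum_eq_zero h0]
    positivity

lemma w_val (h : ℤ) {p : ℕ} (hp : p ∈ N.primeFactors) (x : ZMod N) :
    (shift N h).w p x = if (ZMod.cast x : ZMod p) + (h : ZMod p) = 0 then 0 else
      (p : ℝ) / ((p : ℝ) - 1) := by
  have hp1 : (1 : ℝ) ≤ (p : ℝ) - 1 := (sys N).one_lt hp
  have hp0 : (0 : ℝ) < (p : ℝ) - 1 := by linarith
  rw [Shift.w_apply, shift_z]
  split_ifs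
  · rw [inv_mul_cancel₀ hp0.ne', sub_self]
  · field_simp
    ring

/-- the weight of all primes is the normalised indicator function of the numbers prime to `N` -/
lemma W_val (h : ℤ) (n : ℕ) :
    (shift N h).W N.primeFactors ((n : ℕ) : ZMod N) =
      if Int.gcd (n + h) N = 1 then (N : ℝ) / (N.totient : ℝ) else 0 := by
  rw [Shift.W_apply]
  have hN := NeZero.ne N
  have hhit : ∀ p ∈ N.primeFactors, ((ZMod.cast ((n : ℕ) : ZMod N) : ZMod p) + (h : ZMod p) = 0 ↔
      (p : ℤ) ∣ n + h) := by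
    intro p hp
    rw [ZMod.cast_natCast (Nat.dvd_of_mem_primeFactors hp), ← ZMod.intCast_zmod_eq_zero_iff_dvd]
    push_cast
    rfl
  by_cases hg : Int.gcd (n + h) N = 1
  · rw [if_pos hg]
    have h1 : ∀ p ∈ N.primeFactors, (shift N h).w p ((n : ℕ) : ZMod N) =
        (1 - (p : ℝ)⁻¹)⁻¹ := by
      intro p hp
      have hpp := Nat.prime_of_mem_primeFactors hp
      have hp0 : (p : ℝ) ≠ 0 := by exact_mod_cast hpp.ne_zero
      rw [w_val N h hp, if_neg]
      · rw [inv_eq_one_div (p : ℝ), one_sub_div hp0, inv_div]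
      · rw [hhit p hp]
        intro hd
        have h2 : (p : ℤ) ∣ (Int.gcd (n + h) N : ℤ) :=
          Int.dvd_coe_gcd hd (by exact_mod_cast Nat.dvd_of_mem_primeFactors hp)
        rw [hg] at h2
        have h3 : p ∣ 1 := by exact_mod_cast h2
        exact hpp.one_lt.ne' (Nat.dvd_one.1 h3)
    rw [Finset.prod_congr rfl h1, Finset.prod_inv_distrib]
    have h2 : (N.totient : ℝ) = N * ∏ p ∈ N.primeFactors, (1 - (p : ℝ)⁻¹) := by
      have h6 := congrArg (fun q : ℚ => (q : ℝ)) (Nat.totient_eq_mul_prod_factors N)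
      simp only [Rat.cast_natCast, Rat.cast_mul, Rat.cast_prod, Rat.cast_sub, Rat.cast_one,
        Rat.cast_inv] at h6
      exact h6
    have h3 : (N : ℝ) ≠ 0 := by exact_mod_cast hN
    have h4 : (0 : ℝ) < (N.totient : ℝ) := by exact_mod_cast Nat.totient_pos.2 (Nat.pos_of_ne_zero hN)
    rw [h2] at h4 ⊢
    have h5 : ∏ p ∈ N.primeFactors, (1 - (p : ℝ)⁻¹) ≠ 0 := by
      intro h6
      rw [h6, mul_zero] at h4
      exact lt_irrefl _ h4
    field_simp
  · rw [if_neg hg]
    have hne : Int.gcd (n + h) N ≠ 0 := by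
      intro h0
      rw [Int.gcd_eq_zero_iff] at h0
      exact hN (by exact_mod_cast h0.2)
    obtain ⟨p, hpp, hpd⟩ := Nat.exists_prime_and_dvd hg
    have h1 : (p : ℤ) ∣ n + h := (Int.natCast_dvd_natCast.2 hpd).trans (Int.gcd_dvd_left ..)
    have h2 : p ∣ N := by
      have := (Int.natCast_dvd_natCast.2 hpd).trans (Int.gcd_dvd_right (n + h) (N : ℤ))
      exact_mod_cast this
    have h3 : p ∈ N.primeFactors := Nat.mem_primeFactors.2 ⟨hpp, h2, hN⟩
    refine Finset.prod_eq_zero h3 ?_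
    rw [w_val N h h3, if_pos ((hhit p h3).2 h1)]

lemma sum_range_zmod (F : ZMod N → ℝ) : ∑ n ∈ range N, F ((n : ℕ) : ZMod N) = ∑ x, F x := by
  refine Finset.sum_bij (fun n _ => ((n : ℕ) : ZMod N)) (fun _ _ => mem_univ _) ?_ ?_ (fun _ _ => rfl)
  · intro a ha b hb hab
    have h1 : ((a : ℕ) : ZMod N).val = ((b : ℕ) : ZMod N).val := by rw [hab]
    rwa [ZMod.val_natCast_of_lt (mem_range.1 ha), ZMod.val_natCast_of_lt (mem_range.1 hb)] at h1
  · intro b _
    exact ⟨b.val, mem_range.2 (ZMod.val_lt b), ZMod.natCast_zmod_val b⟩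

/-- functions with period `q ≤ R` have level `log R` -/
lemma lev_periodic {R q : ℕ} (hq1 : 1 ≤ q) (hqR : q ≤ R) (hqN : q ∣ N) (f : ZMod N → ℝ)
    (hf : ∀ x y : ZMod N, f (x + (q : ZMod N) * y) = f x) :
    f ∈ Lev (sys N) (fun p => Real.log p) N.primeFactors (Real.log R) := by
  refine Submodule.subset_span ⟨q.primeFactors, Nat.primeFactors_mono hqN (NeZero.ne N), ?_, ?_⟩
  · have h1 : ∑ p ∈ q.primeFactors, Real.log p = Real.log ((∏ p ∈ q.primeFactors, p : ℕ) : ℝ) := by
      rw [Nat.cast_prod, Real.log_prod]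
      intro p hp
      have := (Nat.prime_of_mem_primeFactors hp).ne_zero
      exact_mod_cast this
    rw [h1]
    have h2 : 0 < ∏ p ∈ q.primeFactors, p :=
      Finset.prod_pos fun p hp => (Nat.prime_of_mem_primeFactors hp).pos
    have h3 : ∏ p ∈ q.primeFactors, p ≤ q := Nat.le_of_dvd hq1 (Nat.prod_primeFactors_dvd q)
    exact Real.log_le_log (by exact_mod_cast h2) (by exact_mod_cast h3.trans hqR)
  · intro p hp hpq
    have hpp := Nat.prime_of_mem_primeFactors hp
    have h1 : ¬ p ∣ q := fun h => hpq (Nat.mem_primeFactors.2 ⟨hpp, h, by omega⟩)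
    obtain ⟨c, hc⟩ := dvd_cp (NeZero.ne N) hpp hqN h1
    rw [sys_e]
    refine av_inv _ _ fun x y => ?_
    rw [hc]
    have : ((q * c : ℕ) : ZMod N) * y = (q : ZMod N) * ((c : ZMod N) * y) := by push_cast; ring
    rw [this, hf]

end sys

end Pool.Agent.D0H37.KS
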