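import Pool.Agent.D0H37.KS.Asm

/-! The choice of the parameters, and the statement for functions of integers. Author: helper37. -/

set_option autoImplicit false

open Finset Filter

namespace Pool.Agent.D0H37.KS

lemma log_le_root : ∀ᶠ L : ℝ in atTop, Real.log L ≤ L ^ (1 / 8 : ℝ) := by
  have h := (isLittleO_log_rpow_atTop (r := (1 / 8 : ℝ)) (by norm_num)).bound
    (c := 1) one_pos
  filter_upwards [h, eventually_ge_atTop 1] with L h1 hL
  have h2 : 0 ≤ L ^ (1 / 8 : ℝ) := Real.rpow_nonneg (by linarith) _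
  rw [one_mul, Real.norm_eq_abs, Real.norm_eq_abs, abs_of_nonneg h2] at h1
  exact (le_abs_self _).trans h1

/-- the two conditions hold for large `L` -/
lemma params (K₁ K₂ c : ℝ) (hK₁ : 0 ≤ K₁) (hK₂ : 0 < K₂) (hc : 0 < c) : ∀ᶠ L : ℝ in atTop,
    1 ≤ L ∧ 2 * (Real.log L * (1 + Real.log L) + 1) + K₁ ≤ c * L ∧
    K₂ + Real.exp (6 + 1 / 2 * Real.log L) *
      ((Real.log L * (1 + Real.log L) + 1) + K₂ * (3 + Real.log L)) ≤ c * L := by
  set K : ℝ := (6 + K₁) / c + (K₂ + Real.exp 6 * (3 + 4 * K₂)) / c + 1 with hK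
  have ht : Tendsto (fun L : ℝ => L ^ (1 / 8 : ℝ)) atTop atTop := tendsto_rpow_atTop (by norm_num)
  filter_upwards [log_le_root, eventually_ge_atTop 1, ht.eventually_ge_atTop K] with L h1 hL h2
  set s : ℝ := L ^ (1 / 8 : ℝ) with hs
  have hL0 : 0 < L := by linarith
  have hs8 : s ^ 8 = L := by
    rw [hs, ← Real.rpow_natCast, ← Real.rpow_mul hL0.le]
    norm_num
  have hlog0 : 0 ≤ Real.log L := Real.log_nonneg hL
  have hex : Real.exp (6 + 1 / 2 * Real.log L) = Real.exp 6 * s ^ 4 := by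
    rw [Real.exp_add]
    congr 1
    rw [hs, ← Real.rpow_natCast, ← Real.rpow_mul hL0.le, Real.rpow_def_of_pos hL0]
    congr 1
    norm_num
    ring
  have e6 := Real.exp_pos 6
  have hKa : (6 + K₁) / c ≤ s := by
    have : 0 ≤ (K₂ + Real.exp 6 * (3 + 4 * K₂)) / c := by positivity
    linarith
  have hKb : (K₂ + Real.exp 6 * (3 + 4 * K₂)) / c ≤ s := by
    have : 0 ≤ (6 + K₁) / c := by positivity
    linarith
  have hs1 : 1 ≤ s := by
    have : 0 ≤ (6 + K₁) / c := by positivity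
    have : 0 ≤ (K₂ + Real.exp 6 * (3 + 4 * K₂)) / c := by positivity
    linarith
  rw [div_le_iff₀ hc] at hKa hKb
  have hs0 : 0 < s := by linarith
  have p2 : 1 ≤ s ^ 2 := one_le_pow₀ hs1
  have p4 : 1 ≤ s ^ 4 := one_le_pow₀ hs1
  have q1 : s ≤ s ^ 2 := by nlinarith
  have q2 : s ^ 3 ≤ s ^ 8 := pow_le_pow_right₀ hs1 (by norm_num)
  have q3 : s ^ 7 ≤ s ^ 8 := pow_le_pow_right₀ hs1 (by norm_num)
  have hA : Real.log L * (1 + Real.log L) + 1 ≤ 3 * s ^ 2 := by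
    have : Real.log L * (1 + Real.log L) ≤ s * (1 + s) :=
      mul_le_mul h1 (by linarith) (by linarith) hs0.le
    nlinarith
  refine ⟨hL, ?_, ?_⟩
  · calc 2 * (Real.log L * (1 + Real.log L) + 1) + K₁ ≤ (6 + K₁) * s ^ 2 := by nlinarith
      _ ≤ (s * c) * s ^ 2 := mul_le_mul_of_nonneg_right hKa (by positivity)
      _ = c * s ^ 3 := by ring
      _ ≤ c * s ^ 8 := mul_le_mul_of_nonneg_left q2 hc.le
      _ = c * L := by rw [hs8]
  · rw [hex]
    have hB : (Real.log L * (1 + Real.log L) + 1) + K₂ * (3 + Real.log L) ≤ (3 + 4 * K₂) * s ^ 2 := by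
      nlinarith [mul_le_mul_of_nonneg_left h1 hK₂.le, mul_le_mul_of_nonneg_left q1 hK₂.le,
        mul_le_mul_of_nonneg_left p2 hK₂.le]
    have hB2 : Real.exp 6 * s ^ 4 * ((Real.log L * (1 + Real.log L) + 1) + K₂ * (3 + Real.log L)) ≤
        Real.exp 6 * s ^ 4 * ((3 + 4 * K₂) * s ^ 2) := mul_le_mul_of_nonneg_left hB (by positivity)
    have p6 : 1 ≤ s ^ 6 := one_le_pow₀ hs1
    calc K₂ + Real.exp 6 * s ^ 4 * ((Real.log L * (1 + Real.log L) + 1) + K₂ * (3 + Real.log L))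
        ≤ K₂ * s ^ 6 + Real.exp 6 * s ^ 4 * ((3 + 4 * K₂) * s ^ 2) := by nlinarith
      _ = (K₂ + Real.exp 6 * (3 + 4 * K₂)) * s ^ 6 := by ring
      _ ≤ (s * c) * s ^ 6 := mul_le_mul_of_nonneg_right hKb (by positivity)
      _ = c * s ^ 7 := by ring
      _ ≤ c * s ^ 8 := mul_le_mul_of_nonneg_left q3 hc.le
      _ = c * L := by rw [hs8]

theorem model (k : ℕ) (hk : 2 ≤ k) (ε : ℝ) (hε : 0 < ε) : ∃ δ : ℝ, 0 < δ ∧ ∃ R₀ : ℕ, 2 ≤ R₀ ∧
    ∀ R : ℕ, R₀ ≤ R → ∀ h : Fin k → ℤ, Function.Injective h → (∀ i, |(h i : ℝ)| ≤ (R : ℝ) ^ δ) →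
      ∀ (N : ℕ) [NeZero N] (g : ZMod N → ℝ),
        g ∈ Lev (sys N) (fun p => Real.log p) N.primeFactors (Real.log R) →
        ∑ i, ∑ x, (shift N (h i)).W N.primeFactors x * g x ^ 2 ≤
          ((k : ℝ) / ((k : ℝ) - 1) * Real.log k + ε) * Real.log R * nrm g := by
  have hk2 : (2 : ℝ) ≤ k := by exact_mod_cast hk
  have hk1 : (0 : ℝ) < (k : ℝ) - 1 := by linarith
  have hlogk : 0 < Real.log k := Real.log_pos (by linarith)
  set l : ℝ := Real.log k / ((k : ℝ) - 1) with hl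
  have hl0 : 0 < l := by positivity
  set η : ℝ := min 1 (ε / (k * (l + 2))) with hη
  have hη0 : 0 < η := by rw [hη]; exact lt_min one_pos (by positivity)
  have hη1 : η ≤ 1 := min_le_left _ _
  have hη2 : k * (l + 2) * η ≤ ε := by
    have : η ≤ ε / (k * (l + 2)) := min_le_right _ _
    rw [le_div_iff₀ (by positivity)] at this
    linarith
  set δ : ℝ := η / (8 * (k : ℝ) ^ 3) with hδ
  have hδ0 : 0 < δ := by positivity
  obtain ⟨C₀, hC₀, hG1, hG2⟩ := G_log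
  have hlog2 : 0 < Real.log 2 := Real.log_pos one_lt_two
  have hp := params (((k : ℝ) - 1) * (k : ℝ) ^ 2 * Real.log 2) C₀ (η ^ 2 / 4)
    (by positivity) hC₀ (by positivity)
  have hp' := (Real.tendsto_log_atTop.comp (tendsto_natCast_atTop_atTop (R := ℝ))).eventually hp
  obtain ⟨R₁, hR₁⟩ := eventually_atTop.1 hp'
  refine ⟨δ, hδ0, max R₁ 2, le_max_right _ _, fun R hR h hinj hh N _ g hg => ?_⟩
  obtain ⟨hL, c1, c2⟩ := hR₁ R ((le_max_left _ _).trans hR)
  simp only [Function.comp] at hL c1 c2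
  have hR2 : 2 ≤ R := (le_max_right _ _).trans hR
  have hR0 : (0 : ℝ) < R := by
    have : 0 < R := by omega
    exact_mod_cast this
  have hR1 : (1 : ℝ) ≤ R := by
    have : 1 ≤ R := by omega
    exact_mod_cast this
  set L := Real.log (R : ℝ) with hLdef
  have hX : (1 : ℝ) ≤ (R : ℝ) ^ δ := Real.one_le_rpow hR1 hδ0.le
  have hlogX : Real.log (2 * (R : ℝ) ^ δ) = Real.log 2 + δ * L := by
    rw [Real.log_mul (by norm_num) (by positivity), Real.log_rpow hR0]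
  have hηη : η ^ 2 ≤ η := by nlinarith
  have c1' : 2 * (Real.log L * (1 + Real.log L) + 1) +
      ((k : ℝ) - 1) * ((k : ℝ) ^ 2 * Real.log (2 * (R : ℝ) ^ δ)) ≤ η / 2 * L := by
    rw [hlogX]
    have e1 : ((k : ℝ) - 1) * ((k : ℝ) ^ 2 * (Real.log 2 + δ * L)) =
        ((k : ℝ) - 1) * (k : ℝ) ^ 2 * Real.log 2 + ((k : ℝ) - 1) * (k : ℝ) ^ 2 * δ * L := by ring
    have e2 : ((k : ℝ) - 1) * (k : ℝ) ^ 2 * δ ≤ η / 8 := by
      have e3 : (k : ℝ) ^ 3 * δ = η / 8 := by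
        rw [hδ]
        field_simp
      rw [← e3]
      refine mul_le_mul_of_nonneg_right ?_ hδ0.le
      nlinarith [sq_nonneg (k : ℝ)]
    have e4 : ((k : ℝ) - 1) * (k : ℝ) ^ 2 * δ * L ≤ η / 8 * L :=
      mul_le_mul_of_nonneg_right e2 (by linarith)
    have e5 : η ^ 2 / 4 * L ≤ η / 4 * L := mul_le_mul_of_nonneg_right (by linarith) (by linarith)
    have e6 : 0 ≤ η * L := by positivity
    rw [e1]
    linarith
  have c2' : C₀ + Real.exp (6 + 1 / 2 * Real.log L) *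
      ((Real.log L * (1 + Real.log L) + 1) + C₀ * (3 + Real.log L)) ≤ η ^ 2 / 2 * L := by
    have : η ^ 2 / 4 * L ≤ η ^ 2 / 2 * L := by
      have : 0 ≤ η ^ 2 * L := by positivity
      linarith
    linarith
  have hcore := core hk h hinj ((R : ℝ) ^ δ) hX hh N L η C₀ hL hη0 hC₀ hG1 hG2 c1' c2' g hg
  refine hcore.trans ?_
  have hn : 0 ≤ nrm g := nrm_nonneg g
  have e1 : (k : ℝ) / ((k : ℝ) - 1) * Real.log k = k * l := by
    rw [hl]; ring
  rw [e1]
  have e2 : (η + l) * (k * ((1 + η) * L) * nrm g) = (k * ((1 + η) * (η + l))) * L * nrm g := by ring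
  rw [e2]
  refine mul_le_mul_of_nonneg_right (mul_le_mul_of_nonneg_right ?_ (by linarith)) hn
  have e3 : k * ((1 + η) * (η + l)) = k * l + k * (l + 1 + η) * η := by ring
  rw [e3]
  have e4 : k * (l + 1 + η) * η ≤ k * (l + 2) * η :=
    mul_le_mul_of_nonneg_right (mul_le_mul_of_nonneg_left (by linarith) (by linarith)) hη0.le
  linarith

end Pool.Agent.D0H37.KS
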