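import Pool.Agent.D0H37.KS.Fin

/-! Functions of integers of level `R`. Author: helper37. -/

set_option autoImplicit false

open Finset Filter

namespace Pool.Agent.D0H37.KS

/-- functions of level `R`: sums of functions with periods `d ≤ R` -/
def Level (R : ℕ) (g : ℤ → ℝ) : Prop := ∃ c : ℕ → ℤ → ℝ, ∀ n, g n = ∑ d ∈ Icc 1 R, c d (n % d)

/-- no prime factor `p ≤ R` -/
def Free (R : ℕ) (n : ℤ) : Prop := ∀ p : ℕ, p.Prime → p ≤ R → ¬ (p : ℤ) ∣ n

lemma factorial_ne (R : ℕ) : R.factorial ≠ 0 := Nat.factorial_ne_zero R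

lemma free_iff (R : ℕ) (n : ℤ) : Free R n ↔ Int.gcd n R.factorial = 1 := by
  constructor
  · intro h
    by_contra hg
    obtain ⟨p, hp, hd⟩ := Nat.exists_prime_and_dvd hg
    have h1 : (p : ℤ) ∣ n := (Int.natCast_dvd_natCast.2 hd).trans (Int.gcd_dvd_left ..)
    have h2 : p ∣ R.factorial := by
      have := (Int.natCast_dvd_natCast.2 hd).trans (Int.gcd_dvd_right n (R.factorial : ℤ))
      exact_mod_cast this
    exact h p hp ((Nat.Prime.dvd_factorial hp).1 h2) h1
  · intro h p hp hpR hd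
    have h2 : (p : ℤ) ∣ (Int.gcd n R.factorial : ℤ) :=
      Int.dvd_coe_gcd hd (by exact_mod_cast (Nat.Prime.dvd_factorial hp).2 hpR)
    rw [h] at h2
    have h3 : p ∣ 1 := by exact_mod_cast h2
    exact hp.one_lt.ne' (Nat.dvd_one.1 h3)

/-- the function modulo `N` of a function of level `R` -/
lemma level_lev {R N : ℕ} [NeZero N] (hN : ∀ d, 1 ≤ d → d ≤ R → d ∣ N) (g : ℤ → ℝ)
    (hg : Level R g) : ∃ g' : ZMod N → ℝ, (∀ n : ℤ, g' (n : ZMod N) = g n) ∧
      g' ∈ Lev (sys N) (fun p => Real.log p) N.primeFactors (Real.log R) := by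
  obtain ⟨c, hc⟩ := hg
  refine ⟨fun x => ∑ d ∈ Icc 1 R, c d ((x.val : ℤ) % d), fun n => ?_, ?_⟩
  · rw [hc]
    refine Finset.sum_congr rfl fun d hd => ?_
    rw [mem_Icc] at hd
    congr 1
    have h1 := hN d hd.1 hd.2
    have h2 : (((n : ZMod N).val : ℕ) : ℤ) = n % N := ZMod.val_intCast n
    rw [h2]
    exact Int.emod_emod_of_dvd n (by exact_mod_cast h1)
  · have : (fun x : ZMod N => ∑ d ∈ Icc 1 R, c d ((x.val : ℤ) % d)) =
        ∑ d ∈ Icc 1 R, fun x : ZMod N => c d ((x.val : ℤ) % d) := by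
      funext x
      rw [Finset.sum_apply]
    rw [this]
    refine Submodule.sum_mem _ fun d hd => ?_
    rw [mem_Icc] at hd
    have hdN := hN d hd.1 hd.2
    refine lev_periodic N hd.1 hd.2 hdN _ fun x y => ?_
    congr 1
    have h1 : (((x + (d : ZMod N) * y).val : ℕ) : ZMod d) = ((x.val : ℕ) : ZMod d) := by
      have e1 : ∀ z : ZMod N, ((z.val : ℕ) : ZMod d) = (ZMod.cast z : ZMod d) := fun z =>
        ZMod.natCast_val z
      rw [e1, e1, ZMod.cast_add hdN, ZMod.cast_mul hdN, ZMod.cast_natCast hdN, ZMod.natCast_self,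
        zero_mul, add_zero]
    have h2 := (ZMod.natCast_eq_natCast_iff' _ _ _).1 h1
    exact_mod_cast h2

/-- the mean of the weight `W` -/
lemma sum_W (N : ℕ) [NeZero N] (h : ℤ) (L : Finset ℕ) (hL : L ⊆ N.primeFactors) :
    ∑ x, (shift N h).W L x = N := by
  induction L using Finset.induction_on with
  | empty => simp [Shift.W]
  | insert p L hpL ih =>
    have hp := hL (mem_insert_self p L)
    have hL' : L ⊆ N.primeFactors := fun q hq => hL (mem_insert_of_mem hq)
    have h1 := (shift N h).sum_wmz hL' hp hpL 1 0 ((sys N).one p hp) (map_zero _)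
    simp only [Pi.one_apply, Pi.zero_apply, mul_zero, add_zero, sub_zero, one_pow, mul_one] at h1
    rw [h1, ih hL']

open Classical in
/-- number of the `n` in a period with `n + h` free of small primes -/
lemma card_free (R : ℕ) (h : ℤ) :
    (((range R.factorial).filter (fun n : ℕ => Free R (n + h))).card : ℝ) = R.factorial.totient := by
  have : NeZero R.factorial := ⟨factorial_ne R⟩
  set N := R.factorial with hN
  have h1 := sum_W N h N.primeFactors (Finset.Subset.refl _)
  rw [← sum_range_zmod] at h1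
  simp only [W_val] at h1
  rw [← Finset.sum_filter, Finset.sum_const, nsmul_eq_mul] at h1
  have hN0 : (0 : ℝ) < N := by
    have := NeZero.pos N
    exact_mod_cast this
  have ht : (0 : ℝ) < (N.totient : ℝ) := by exact_mod_cast Nat.totient_pos.2 (NeZero.pos N)
  have h2 : (range N).filter (fun n : ℕ => Free R (n + h)) =
      (range N).filter (fun n : ℕ => Int.gcd (n + h) N = 1) := by
    refine Finset.filter_congr fun n _ => ?_
    rw [free_iff]
  rw [h2]
  rw [mul_div_assoc', div_eq_iff ht.ne'] at h1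
  have h3 := mul_right_cancel₀ hN0.ne' (h1.trans (mul_comm _ _))
  refine Eq.trans ?_ h3
  congr 1

/-- the mean value -/
noncomputable def mean (R : ℕ) (F : ℤ → ℝ) : ℝ :=
  (∑ n ∈ range R.factorial, F n) / (R.factorial : ℝ)

open Classical in
/-- the mean value over the `n` with `n + h` free of the primes `p ≤ R` -/
noncomputable def meanFree (R : ℕ) (h : ℤ) (F : ℤ → ℝ) : ℝ :=
  (∑ n ∈ (range R.factorial).filter (fun n : ℕ => Free R (n + h)), F n) /
    (((range R.factorial).filter (fun n : ℕ => Free R (n + h))).card : ℝ)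

/-- sums of squares of functions of level `R` -/
def SumSq (R : ℕ) (w : ℤ → ℝ) : Prop :=
  ∃ (J : ℕ) (g : Fin J → ℤ → ℝ), (∀ j, Level R (g j)) ∧ ∀ n, w n = ∑ j, g j n ^ 2

open Classical in
lemma meanFree_eq (R : ℕ) [NeZero R.factorial] (h : ℤ) (F : ℤ → ℝ) (F' : ZMod R.factorial → ℝ)
    (hF : ∀ n : ℤ, F' (n : ZMod R.factorial) = F n) :
    meanFree R h F = (∑ x, (shift R.factorial h).W R.factorial.primeFactors x * F' x) /
      (R.factorial : ℝ) := by
  unfold meanFree
  rw [card_free, ← sum_range_zmod]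
  simp only [W_val]
  have hN0 : (0 : ℝ) < R.factorial := by
    have := NeZero.pos R.factorial
    exact_mod_cast this
  have ht : (0 : ℝ) < (R.factorial.totient : ℝ) := by
    exact_mod_cast Nat.totient_pos.2 (NeZero.pos R.factorial)
  rw [Finset.sum_filter, Finset.sum_div, Finset.sum_div]
  refine Finset.sum_congr rfl fun n _ => ?_
  have e : F' ((n : ℕ) : ZMod R.factorial) = F n := by
    have := hF n
    rwa [Int.cast_natCast] at this
  rw [e]
  by_cases hf : Free R (n + h)
  · rw [if_pos hf, if_pos ((free_iff R _).1 hf)]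
    field_simp
  · rw [if_neg hf, if_neg (fun h' => hf ((free_iff R _).2 h'))]
    simp

lemma mean_eq (R : ℕ) [NeZero R.factorial] (F : ℤ → ℝ) (F' : ZMod R.factorial → ℝ)
    (hF : ∀ n : ℤ, F' (n : ZMod R.factorial) = F n) :
    mean R F = (∑ x, F' x) / (R.factorial : ℝ) := by
  unfold mean
  rw [← sum_range_zmod]
  congr 1
  refine Finset.sum_congr rfl fun n _ => ?_
  have := hF n
  rw [Int.cast_natCast] at this
  rw [this]

theorem int_form (k : ℕ) (hk : 2 ≤ k) (ε : ℝ) (hε : 0 < ε) : ∃ δ : ℝ, 0 < δ ∧ ∃ R₀ : ℕ, 2 ≤ R₀ ∧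
    ∀ R : ℕ, R₀ ≤ R → ∀ h : Fin k → ℤ, Function.Injective h → (∀ i, |(h i : ℝ)| ≤ (R : ℝ) ^ δ) →
      ∀ w : ℤ → ℝ, SumSq R w → ∑ i, meanFree R (h i) w ≤
        ((k : ℝ) / ((k : ℝ) - 1) * Real.log k + ε) * Real.log R * mean R w := by
  obtain ⟨δ, hδ, R₀, hR₀, H⟩ := model k hk ε hε
  refine ⟨δ, hδ, R₀, hR₀, fun R hR h hinj hh w hw => ?_⟩
  have : NeZero R.factorial := ⟨factorial_ne R⟩
  obtain ⟨J, g, hg, hw⟩ := hw
  have hdN : ∀ d, 1 ≤ d → d ≤ R → d ∣ R.factorial := fun d h1 h2 => Nat.dvd_factorial h1 h2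
  choose g' hg1 hg2 using fun j => level_lev hdN (g j) (hg j)
  have hw' : ∀ n : ℤ, (fun x : ZMod R.factorial => ∑ j, g' j x ^ 2) (n : ZMod R.factorial) = w n := by
    intro n
    simp only [hg1]
    exact (hw n).symm
  have hN0 : (0 : ℝ) < R.factorial := by
    have := NeZero.pos R.factorial
    exact_mod_cast this
  have e1 : ∀ i, meanFree R (h i) w = (∑ x, (shift R.factorial (h i)).W R.factorial.primeFactors x *
      (∑ j, g' j x ^ 2)) / (R.factorial : ℝ) := fun i => meanFree_eq R (h i) w _ hw'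
  rw [Finset.sum_congr rfl fun i _ => e1 i, mean_eq R w (fun x : ZMod R.factorial => ∑ j, g' j x ^ 2) hw', ← Finset.sum_div, ← mul_div_assoc]
  refine div_le_div_of_nonneg_right ?_ hN0.le
  have e2 : ∑ i, ∑ x, (shift R.factorial (h i)).W R.factorial.primeFactors x * (∑ j, g' j x ^ 2) =
      ∑ j, ∑ i, ∑ x, (shift R.factorial (h i)).W R.factorial.primeFactors x * g' j x ^ 2 := by
    rw [Finset.sum_comm]
    have : ∀ x, ∑ i, (shift R.factorial (h i)).W R.factorial.primeFactors x * (∑ j, g' j x ^ 2) =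
        ∑ j, ∑ i, (shift R.factorial (h i)).W R.factorial.primeFactors x * g' j x ^ 2 := by
      intro x
      rw [Finset.sum_comm]
      refine Finset.sum_congr rfl fun i _ => ?_
      rw [Finset.mul_sum]
    rw [Finset.sum_congr rfl fun x _ => this x, Finset.sum_comm]
    refine Finset.sum_congr rfl fun j _ => ?_
    rw [Finset.sum_comm]
  have e3 : ∑ x, ∑ j, g' j x ^ 2 = ∑ j, nrm (g' j) := by
    rw [Finset.sum_comm]
    rfl
  rw [e2, e3, Finset.mul_sum]
  exact Finset.sum_le_sum fun j _ => H R hR h hinj hh R.factorial (g' j) (hg2 j)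

end Pool.Agent.D0H37.KS
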