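import Pool.Agent.D0H37.KS.Prm

/-! The statement about primes. Author: helper37. -/

set_option autoImplicit false

open Finset Filter Topology

namespace Pool.Agent.D0H37.KS

lemma sumSq_nonneg {R : ℕ} {w : ℤ → ℝ} (hw : SumSq R w) (n : ℤ) : 0 ≤ w n := by
  obtain ⟨J, g, -, h⟩ := hw
  rw [h]
  exact Finset.sum_nonneg fun j _ => sq_nonneg _

lemma sumSq_periodic {R : ℕ} [NeZero R.factorial] {w : ℤ → ℝ} (hw : SumSq R w) :
    ∃ w' : ZMod R.factorial → ℝ, ∀ n : ℤ, w' (n : ZMod R.factorial) = w n := by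
  obtain ⟨J, g, hg, h⟩ := hw
  have hdN : ∀ d, 1 ≤ d → d ≤ R → d ∣ R.factorial := fun d h1 h2 => Nat.dvd_factorial h1 h2
  choose g' hg1 hg2 using fun j => level_lev hdN (g j) (hg j)
  refine ⟨fun x => ∑ j, g' j x ^ 2, fun n => ?_⟩
  simp only [hg1]
  exact (h n).symm

theorem prime_form (k : ℕ) (hk : 2 ≤ k) (ε : ℝ) (hε : 0 < ε) : ∃ δ : ℝ, 0 < δ ∧ ∃ R₀ : ℕ, 2 ≤ R₀ ∧
    ∀ R : ℕ, R₀ ≤ R → ∀ h : Fin k → ℤ, Function.Injective h → (∀ i, |(h i : ℝ)| ≤ (R : ℝ) ^ δ) →
      ∀ w : ℤ → ℝ, SumSq R w →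
        (∑ i, meanFree R (h i) w ≤
          ((k : ℝ) / ((k : ℝ) - 1) * Real.log k + ε) * Real.log R * mean R w) ∧
        ∃ x₀ : ℕ, ∀ x : ℕ, x₀ ≤ x →
          ∑ n ∈ Icc 1 x, w n * ((univ.filter fun i => ((n : ℤ) + h i).toNat.Prime).card : ℝ) ≤
            ((k : ℝ) / ((k : ℝ) - 1) * Real.log k + ε) * (Real.log R / Real.log x) *
              ∑ n ∈ Icc 1 x, w n := by
  obtain ⟨δ, hδ, R₀, hR₀, H⟩ := int_form k hk (ε / 2) (half_pos hε)
  refine ⟨δ, hδ, R₀, hR₀, fun R hR h hinj hh w hw => ?_⟩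
  have hmain := H R hR h hinj hh w hw
  have hk2 : (2 : ℝ) ≤ k := by exact_mod_cast hk
  have hk1 : (0 : ℝ) < (k : ℝ) - 1 := by linarith
  have hlogk : 0 < Real.log k := Real.log_pos (by linarith)
  set C : ℝ := (k : ℝ) / ((k : ℝ) - 1) * Real.log k with hC
  have hC0 : 0 < C := by positivity
  have hR2 : (2 : ℝ) ≤ R := by exact_mod_cast hR₀.trans hR
  have hlR : 0 < Real.log R := Real.log_pos (by linarith)
  have hw0 := sumSq_nonneg hw
  have hne : NeZero R.factorial := ⟨factorial_ne R⟩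
  obtain ⟨w', hw'⟩ := sumSq_periodic hw
  have hN0 : (0 : ℝ) < R.factorial := by
    have := Nat.factorial_pos R
    exact_mod_cast this
  have hw'0 : ∀ a, 0 ≤ w' a := by
    intro a
    have := hw' (a.val : ℤ)
    rw [Int.cast_natCast, ZMod.natCast_zmod_val] at this
    rw [this]
    exact hw0 _
  have hm : mean R w = (∑ x, w' x) / (R.factorial : ℝ) := mean_eq R w w' hw'
  have hm0 : 0 ≤ mean R w := by
    rw [hm]
    exact div_nonneg (Finset.sum_nonneg fun a _ => hw'0 a) hN0.le
  refine ⟨hmain.trans ?_, ?_⟩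
  · have : 0 ≤ ε / 2 * Real.log R * mean R w := by positivity
    nlinarith
  rcases hm0.eq_or_lt with hz | hpos
  · -- the weight vanishes
    have hs : ∑ x, w' x = 0 := by
      rw [hm, eq_comm, div_eq_zero_iff] at hz
      exact hz.resolve_right hN0.ne'
    have hall : ∀ n : ℤ, w n = 0 := by
      intro n
      rw [← hw']
      exact (Finset.sum_eq_zero_iff_of_nonneg (fun a _ => hw'0 a)).1 hs _ (mem_univ _)
    refine ⟨0, fun x _ => ?_⟩
    simp [hall]
  · set M := mean R w with hM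
    set η : ℝ := ε / 8 * Real.log R * M / k with hη
    have hkp : (0 : ℝ) < k := by linarith
    have hη0 : 0 < η := by positivity
    have h1 : ∀ i : Fin k, ∀ᶠ x : ℕ in atTop,
        (∑ n ∈ (Icc 1 x).filter (fun n : ℕ => ((n : ℤ) + h i).toNat.Prime), w n) *
          Real.log x ≤ (meanFree R (h i) w + η) * x := by
      intro i
      have h2 := shifted_count w w' hw' hw0 (h i) η hη0
      rw [unit_form R (h i) w w' hw'] at h2
      exact h2
    have h2 : ∀ᶠ x : ℕ in atTop, ∀ i : Fin k,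
        (∑ n ∈ (Icc 1 x).filter (fun n : ℕ => ((n : ℤ) + h i).toNat.Prime), w n) *
          Real.log x ≤ (meanFree R (h i) w + η) * x := eventually_all.2 h1
    obtain ⟨x₁, hx₁⟩ := eventually_atTop.1 h2
    have h3 := (tendsto_natCast_atTop_atTop (R := ℝ)).eventually_ge_atTop
      ((C + ε) * R.factorial / (ε / 4))
    obtain ⟨x₂, hx₂⟩ := eventually_atTop.1 h3
    refine ⟨max (max x₁ x₂) 3, fun x hx => ?_⟩
    have hxa : x₁ ≤ x := (le_max_left _ _).trans ((le_max_left _ _).trans hx)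
    have hxb : x₂ ≤ x := (le_max_right _ _).trans ((le_max_left _ _).trans hx)
    have hxc : 3 ≤ x := (le_max_right _ _).trans hx
    have hx3 : (3 : ℝ) ≤ x := by exact_mod_cast hxc
    have hlx : 0 < Real.log x := Real.log_pos (by linarith)
    have e1 := hx₁ x hxa
    have e2 := hx₂ x hxb
    rw [div_le_iff₀ (by positivity)] at e2
    have e3 := periodic_lower w w' hw' hw0 x
    rw [← hm] at e3
    -- the sum over the shifts
    have e4 : ∑ n ∈ Icc 1 x, w n * ((univ.filter fun i => ((n : ℤ) + h i).toNat.Prime).card : ℝ) =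
        ∑ i, ∑ n ∈ (Icc 1 x).filter (fun n : ℕ => ((n : ℤ) + h i).toNat.Prime), w n := by
      have : ∀ n : ℕ, w n * ((univ.filter fun i => ((n : ℤ) + h i).toNat.Prime).card : ℝ) =
          ∑ i, if ((n : ℤ) + h i).toNat.Prime then w n else 0 := by
        intro n
        rw [← Finset.sum_filter, Finset.sum_const, nsmul_eq_mul, mul_comm]
      rw [Finset.sum_congr rfl fun n _ => this n, Finset.sum_comm]
      refine Finset.sum_congr rfl fun i _ => ?_
      rw [Finset.sum_filter]
    rw [e4]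
    have e5 : (∑ i, ∑ n ∈ (Icc 1 x).filter (fun n : ℕ => ((n : ℤ) + h i).toNat.Prime), w n) *
        Real.log x ≤ ((C + ε / 2) * Real.log R * M + ε / 8 * Real.log R * M) * x := by
      rw [Finset.sum_mul]
      refine (Finset.sum_le_sum fun i _ => e1 i).trans ?_
      rw [← Finset.sum_mul, Finset.sum_add_distrib, Finset.sum_const, card_univ, Fintype.card_fin,
        nsmul_eq_mul]
      refine mul_le_mul_of_nonneg_right ?_ (by linarith)
      have : (k : ℝ) * η = ε / 8 * Real.log R * M := by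
        rw [hη]; field_simp
      rw [this]
      linarith
    have e6 : ((C + ε / 2) * Real.log R * M + ε / 8 * Real.log R * M) * x ≤
        (C + ε) * Real.log R * (((x : ℝ) - R.factorial) * M) := by
      have hRM : 0 < Real.log R * M := by positivity
      have : ((C + ε / 2) + ε / 8) * x ≤ (C + ε) * ((x : ℝ) - R.factorial) := by
        nlinarith
      calc ((C + ε / 2) * Real.log R * M + ε / 8 * Real.log R * M) * x
          = (Real.log R * M) * (((C + ε / 2) + ε / 8) * x) := by ring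
        _ ≤ (Real.log R * M) * ((C + ε) * ((x : ℝ) - R.factorial)) :=
          mul_le_mul_of_nonneg_left this hRM.le
        _ = _ := by ring
    have e7 : (C + ε) * Real.log R * (((x : ℝ) - R.factorial) * M) ≤
        (C + ε) * Real.log R * ∑ n ∈ Icc 1 x, w n :=
      mul_le_mul_of_nonneg_left e3 (by positivity)
    have e8 : (C + ε) * (Real.log R / Real.log x) * ∑ n ∈ Icc 1 x, w n =
        ((C + ε) * Real.log R * ∑ n ∈ Icc 1 x, w n) / Real.log x := by ring
    rw [e8, le_div_iff₀ hlx]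
    exact e5.trans (e6.trans e7)

end Pool.Agent.D0H37.KS
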