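import Pool.Agent.D0H37.KS.Alg

/-! The two inductions over the primes. Author: helper37. -/

set_option autoImplicit false

open Finset

namespace Pool.Agent.D0H37.KS

variable {Ω : Type} [Fintype Ω] {P : Finset ℕ}

/-- the function `β` -/
noncomputable def bet (lg dd : ℕ → ℝ) (L : Finset ℕ) (a y : ℝ) : ℝ :=
  ∑ R ∈ L.powerset, if ∑ p ∈ R, lg p ≤ y then (∏ p ∈ R, ((p : ℝ) - 1)⁻¹) / (a + ∑ p ∈ R, dd p) else 0

lemma bet_insert (lg dd : ℕ → ℝ) {L : Finset ℕ} {p : ℕ} (hp : p ∉ L) (a y : ℝ) :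
    bet lg dd (insert p L) a y =
      bet lg dd L a y + ((p : ℝ) - 1)⁻¹ * bet lg dd L (a + dd p) (y - lg p) := by
  unfold bet
  rw [Finset.sum_powerset_insert hp, Finset.mul_sum]
  congr 1
  refine Finset.sum_congr rfl fun R hR => ?_
  have hpR : p ∉ R := fun h => hp (mem_powerset.1 hR h)
  rw [Finset.sum_insert hpR, Finset.prod_insert hpR, Finset.sum_insert hpR]
  by_cases h : ∑ q ∈ R, lg q ≤ y - lg p
  · rw [if_pos h, if_pos (by linarith), add_assoc]
    ring
  · rw [if_neg h, if_neg (by intro h'; exact h (by linarith)), mul_zero]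

lemma bet_nonneg (lg dd : ℕ → ℝ) {L : Finset ℕ} (h2 : ∀ p ∈ L, 2 ≤ p) (hd : ∀ p ∈ L, 0 ≤ dd p)
    {a : ℝ} (ha : 0 ≤ a) (y : ℝ) : 0 ≤ bet lg dd L a y := by
  unfold bet
  refine Finset.sum_nonneg fun R hR => ?_
  split_ifs
  · refine div_nonneg (Finset.prod_nonneg fun p hp => ?_) ?_
    · have : (2 : ℝ) ≤ p := by exact_mod_cast h2 p (mem_powerset.1 hR hp)
      exact inv_nonneg.2 (by linarith)
    · exact add_nonneg ha (Finset.sum_nonneg fun p hp => hd p (mem_powerset.1 hR hp))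
  · exact le_rfl

lemma bet_pos (lg dd : ℕ → ℝ) {L : Finset ℕ} (h2 : ∀ p ∈ L, 2 ≤ p) (hd : ∀ p ∈ L, 0 ≤ dd p)
    {a y : ℝ} (ha : 0 < a) (hy : 0 ≤ y) : 0 < bet lg dd L a y := by
  unfold bet
  refine Finset.sum_pos' (fun R hR => ?_) ⟨∅, by simp, ?_⟩
  · split_ifs
    · refine div_nonneg (Finset.prod_nonneg fun p hp => ?_) ?_
      · have : (2 : ℝ) ≤ p := by exact_mod_cast h2 p (mem_powerset.1 hR hp)
        exact inv_nonneg.2 (by linarith)
      · exact add_nonneg ha.le (Finset.sum_nonneg fun p hp => hd p (mem_powerset.1 hR hp))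
    · exact le_rfl
  · simp only [Finset.sum_empty, Finset.prod_empty, if_pos hy, add_zero]
    exact one_div_pos.2 ha

/-- generators of the space of functions of level `y` -/
def LevGen (S : Sys Ω P) (lg : ℕ → ℝ) (L : Finset ℕ) (y : ℝ) : Set (Ω → ℝ) :=
  {f | ∃ D, D ⊆ L ∧ ∑ p ∈ D, lg p ≤ y ∧ ∀ q ∈ L, q ∉ D → S.e q f = f}

/-- functions of level `y` -/
def Lev (S : Sys Ω P) (lg : ℕ → ℝ) (L : Finset ℕ) (y : ℝ) : Submodule ℝ (Ω → ℝ) :=
  Submodule.span ℝ (LevGen S lg L y)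

lemma lev_map {S : Sys Ω P} {lg : ℕ → ℝ} {L L' : Finset ℕ} {y y' : ℝ} (X : Module.End ℝ (Ω → ℝ))
    (h : ∀ f ∈ LevGen S lg L y, X f ∈ Lev S lg L' y') {g : Ω → ℝ} (hg : g ∈ Lev S lg L y) :
    X g ∈ Lev S lg L' y' := by
  have h1 : Lev S lg L y ≤ (Lev S lg L' y').comap X := Submodule.span_le.2 h
  exact h1 hg

lemma lev_neg {S : Sys Ω P} {lg : ℕ → ℝ} {L : Finset ℕ} {y : ℝ} (hlg : ∀ p ∈ L, 0 ≤ lg p)
    (hy : y < 0) {g : Ω → ℝ} (hg : g ∈ Lev S lg L y) : g = 0 := by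
  have h0 : LevGen S lg L y = ∅ := by
    rw [Set.eq_empty_iff_forall_notMem]
    rintro f ⟨D, hD, hs, -⟩
    have : 0 ≤ ∑ p ∈ D, lg p := Finset.sum_nonneg fun p hp => hlg p (hD hp)
    linarith
  unfold Lev at hg
  rw [h0, Submodule.span_empty] at hg
  exact (Submodule.mem_bot ℝ).1 hg

namespace Shift
variable {S : Sys Ω P} (T : Shift S)

lemma A_of_e {p : ℕ} (hp : p ∈ P) (f : Ω → ℝ) (hf : S.e p f = f) : T.A p f = f := by
  rw [A_apply, T.H_e hp f hf, mul_zero, add_zero, hf]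

lemma U_of_e {p : ℕ} (hp : p ∈ P) (f : Ω → ℝ) (hf : S.e p f = f) : T.U p f = 0 := by
  rw [U_apply, T.A_of_e hp f hf, sub_self]

lemma lev_e (lg : ℕ → ℝ) {L : Finset ℕ} {p : ℕ} (hL : insert p L ⊆ P) (hpL : p ∉ L)
    (hlg : ∀ p ∈ P, 0 ≤ lg p) {y : ℝ} {g : Ω → ℝ} (hg : g ∈ Lev S lg (insert p L) y) :
    S.e p g ∈ Lev S lg L y := by
  refine lev_map (S.e p) (fun f hf => Submodule.subset_span ?_) hg
  obtain ⟨D, hD, hs, hi⟩ := hf
  refine ⟨D.erase p, fun q hq => ?_, ?_, fun q hq hqD => ?_⟩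
  · rw [mem_erase] at hq
    exact (mem_insert.1 (hD hq.2)).resolve_left hq.1
  · refine le_trans (Finset.sum_le_sum_of_subset_of_nonneg (erase_subset p D) fun q hq _ => ?_) hs
    exact hlg q (hL (hD hq))
  · have hqp : q ≠ p := fun h => hpL (h ▸ hq)
    have h1 := hi q (mem_insert_of_mem hq) (fun h => hqD (mem_erase.2 ⟨hqp, h⟩))
    have hqP : q ∈ P := hL (mem_insert_of_mem hq)
    have hpP : p ∈ P := hL (mem_insert_self p L)
    rw [ap (S.comm q hqP p hpP), h1]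

lemma lev_X (lg : ℕ → ℝ) {L : Finset ℕ} {p : ℕ} (hL : insert p L ⊆ P) (hpL : p ∉ L)
    (X : Module.End ℝ (Ω → ℝ)) (hX : ∀ q ∈ P, q ≠ p → Commute (S.e q) X)
    (hX0 : ∀ f, S.e p f = f → X f = 0) {y : ℝ} {g : Ω → ℝ} (hg : g ∈ Lev S lg (insert p L) y) :
    X g ∈ Lev S lg L (y - lg p) := by
  refine lev_map X (fun f hf => ?_) hg
  obtain ⟨D, hD, hs, hi⟩ := hf
  by_cases hpD : p ∈ D
  · refine Submodule.subset_span ⟨D.erase p, fun q hq => ?_, ?_, fun q hq hqD => ?_⟩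
    · rw [mem_erase] at hq
      exact (mem_insert.1 (hD hq.2)).resolve_left hq.1
    · have := Finset.add_sum_erase D lg hpD
      linarith
    · have hqp : q ≠ p := fun h => hpL (h ▸ hq)
      have h1 := hi q (mem_insert_of_mem hq) (fun h => hqD (mem_erase.2 ⟨hqp, h⟩))
      have hqP : q ∈ P := hL (mem_insert_of_mem hq)
      rw [ap (hX q hqP hqp), h1]
  · rw [hX0 f (hi p (mem_insert_self p L) hpD)]
    exact Submodule.zero_mem _

lemma lev_H (lg : ℕ → ℝ) {L : Finset ℕ} {p : ℕ} (hL : insert p L ⊆ P) (hpL : p ∉ L)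
    {y : ℝ} {g : Ω → ℝ} (hg : g ∈ Lev S lg (insert p L) y) :
    T.H p g ∈ Lev S lg L (y - lg p) :=
  lev_X lg hL hpL (T.H p) (fun _ hq hqp => T.comm_eH hq (hL (mem_insert_self p L)) hqp)
    (fun f hf => T.H_e (hL (mem_insert_self p L)) f hf) hg

lemma lev_U (lg : ℕ → ℝ) {L : Finset ℕ} {p : ℕ} (hL : insert p L ⊆ P) (hpL : p ∉ L)
    {y : ℝ} {g : Ω → ℝ} (hg : g ∈ Lev S lg (insert p L) y) :
    T.U p g ∈ Lev S lg L (y - lg p) :=
  lev_X lg hL hpL (T.U p) (fun _ hq hqp => T.comm_eU hq (hL (mem_insert_self p L)) hqp)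
    (fun f hf => T.U_of_e (hL (mem_insert_self p L)) f hf) hg

lemma lev_A (lg : ℕ → ℝ) {L : Finset ℕ} {p : ℕ} (hL : insert p L ⊆ P)
    {y : ℝ} {g : Ω → ℝ} (hg : g ∈ Lev S lg (insert p L) y) :
    T.A p g ∈ Lev S lg (insert p L) y := by
  have hpP : p ∈ P := hL (mem_insert_self p L)
  refine lev_map (T.A p) (fun f hf => Submodule.subset_span ?_) hg
  obtain ⟨D, hD, hs, hi⟩ := hf
  refine ⟨D, hD, hs, fun q hq hqD => ?_⟩
  have h1 := hi q hq hqD
  by_cases hqp : q = p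
  · subst hqp
    rw [T.A_of_e hpP f h1, h1]
  · rw [ap (T.comm_eA (hL hq) hpP hqp), h1]

/-- the energy of the second phase -/
noncomputable def en2 (dd : ℕ → ℝ) (L : Finset ℕ) (g : Ω → ℝ) : ℝ :=
  ∑ q ∈ L, dd q * (((q : ℝ) - 1) * nrm (T.H q g))

lemma en2_nonneg (dd : ℕ → ℝ) {L : Finset ℕ} (hL : L ⊆ P) (hdd : ∀ p ∈ P, 0 ≤ dd p) (g : Ω → ℝ) :
    0 ≤ T.en2 dd L g := by
  unfold en2
  refine Finset.sum_nonneg fun q hq => mul_nonneg (hdd q (hL hq)) (mul_nonneg ?_ (nrm_nonneg _))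
  have := S.one_lt (hL hq)
  linarith

theorem phase2 (lg dd : ℕ → ℝ) (hlg : ∀ p ∈ P, 0 ≤ lg p) (hdd : ∀ p ∈ P, 0 ≤ dd p)
    (L : Finset ℕ) (hL : L ⊆ P) : ∀ (a y : ℝ) (g : Ω → ℝ), 0 < a → g ∈ Lev S lg L y →
      (∀ q ∈ L, T.U q g = 0) →
        ∑ x, T.W L x * g x ^ 2 ≤ bet lg dd L a y * (a * nrm g + T.en2 dd L g) := by
  induction L using Finset.induction_on with
  | empty =>
    intro a y g ha hg _
    rcases lt_or_ge y 0 with hy | hy
    · rw [lev_neg (fun p hp => absurd hp (notMem_empty p)) hy hg]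
      simp [nrm, en2]
    · have h1 : bet lg dd ∅ a y = 1 / a := by simp [bet, hy]
      rw [h1]
      have h2 : ∑ x, T.W ∅ x * g x ^ 2 = nrm g := by simp [W, nrm]
      rw [h2, en2, Finset.sum_empty, add_zero, one_div, inv_mul_cancel_left₀ ha.ne']
  | insert p L hpL ih =>
    intro a y g ha hg hU
    have hpP : p ∈ P := hL (mem_insert_self p L)
    have hL' : L ⊆ P := fun q hq => hL (mem_insert_of_mem hq)
    have ih' := ih hL'
    have hp1 : (1 : ℝ) ≤ (p : ℝ) - 1 := S.one_lt hpP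
    have hp0 : (0 : ℝ) < (p : ℝ) - 1 := by linarith
    rcases lt_or_ge y 0 with hy | hy
    · rw [lev_neg (fun q hq => hlg q (hL hq)) hy hg]
      simp [nrm, en2]
    set m := S.e p g with hm
    set h := T.H p g with hh
    have hgA : T.A p g = g := by
      have := hU p (mem_insert_self p L)
      rw [U_apply] at this
      exact (sub_eq_zero.1 this).symm
    have hmi : S.e p m = m := S.idem p hpP g
    have hhi : S.e p h = h := T.e_H hpP g
    have hg' : g = m + T.z p * h := by rw [← A_apply, hgA]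
    -- left side
    have hl : ∑ x, T.W (insert p L) x * g x ^ 2 = ∑ x, T.W L x * (m x - h x) ^ 2 := by
      rw [← T.sum_wmz hL' hpP hpL m h hmi hhi]
      refine Finset.sum_congr rfl fun x _ => ?_
      have : g x = m x + T.z p x * h x := congrFun hg' x
      rw [← this]
    rw [hl]
    -- levels
    have hml : m ∈ Lev S lg L y := lev_e lg hL hpL hlg hg
    have hhl : h ∈ Lev S lg L (y - lg p) := T.lev_H lg hL hpL hg
    have hmU : ∀ q ∈ L, T.U q m = 0 := by
      intro q hq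
      have hqp : p ≠ q := fun h => hpL (h ▸ hq)
      rw [hm, ← ap (T.comm_eU hpP (hL' hq) hqp), hU q (mem_insert_of_mem hq), map_zero]
    have hhU : ∀ q ∈ L, T.U q h = 0 := by
      intro q hq
      have hqp : p ≠ q := fun h => hpL (h ▸ hq)
      rw [hh, ← ap (T.comm_HU hpP (hL' hq) hqp), hU q (mem_insert_of_mem hq), map_zero]
    have i0 := ih' a y m ha hml hmU
    have ha1 : 0 < a + dd p := by linarith [hdd p hpP]
    have i1 := ih' (a + dd p) (y - lg p) h ha1 hhl hhU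
    have b0 : 0 < bet lg dd L a y :=
      bet_pos lg dd (fun q hq => S.two q (hL' hq)) (fun q hq => hdd q (hL' hq)) ha hy
    have b1 : 0 ≤ bet lg dd L (a + dd p) (y - lg p) :=
      bet_nonneg lg dd (fun q hq => S.two q (hL' hq)) (fun q hq => hdd q (hL' hq)) ha1.le _
    -- energies
    have hE : a * nrm g + T.en2 dd (insert p L) g =
        (a * nrm m + T.en2 dd L m) + ((p : ℝ) - 1) * ((a + dd p) * nrm h + T.en2 dd L h) := by
      have n1 : nrm g = nrm m + ((p : ℝ) - 1) * nrm h := by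
        have := T.nrm_A hpP g
        rwa [hgA] at this
      have n2 : T.en2 dd L g = T.en2 dd L m + ((p : ℝ) - 1) * T.en2 dd L h := by
        unfold en2
        rw [Finset.mul_sum, ← Finset.sum_add_distrib]
        refine Finset.sum_congr rfl fun q hq => ?_
        have hqp : p ≠ q := fun h => hpL (h ▸ hq)
        have hqP := hL' hq
        have c1 : T.A p (T.H q g) = T.H q g := by
          rw [← ap (T.comm_HA hqP hpP (Ne.symm hqp)), hgA]
        have c2 := T.nrm_A hpP (T.H q g)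
        rw [c1, ap (T.comm_eH hpP hqP hqp), ap (T.comm_HH hpP hqP hqp)] at c2
        rw [c2]
        ring
      have n3 : T.en2 dd (insert p L) g = dd p * (((p : ℝ) - 1) * nrm h) + T.en2 dd L g := by
        unfold en2
        rw [Finset.sum_insert hpL]
      rw [n3, n2, n1]
      ring
    rw [hE, bet_insert lg dd hpL]
    set β₀ := bet lg dd L a y with hβ₀
    set β₁ := bet lg dd L (a + dd p) (y - lg p) with hβ₁
    set E0 := a * nrm m + T.en2 dd L m with hE0
    set E1 := (a + dd p) * nrm h + T.en2 dd L h with hE1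
    have hE1n : 0 ≤ E1 := add_nonneg (mul_nonneg ha1.le (nrm_nonneg _)) (T.en2_nonneg dd hL' hdd h)
    have hE0n : 0 ≤ E0 := add_nonneg (mul_nonneg ha.le (nrm_nonneg _)) (T.en2_nonneg dd hL' hdd m)
    have hpi : (0 : ℝ) < ((p : ℝ) - 1)⁻¹ := inv_pos.2 hp0
    rcases lt_or_ge (y - lg p) 0 with hy1 | hy1
    · have h0 : h = 0 := lev_neg (fun q hq => hlg q (hL' hq)) hy1 hhl
      have e1 : ∑ x, T.W L x * (m x - h x) ^ 2 = ∑ x, T.W L x * m x ^ 2 := by
        refine Finset.sum_congr rfl fun x _ => ?_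
        rw [h0]; simp
      rw [e1]
      refine i0.trans ?_
      have : β₀ * E0 ≤ (β₀ + ((p : ℝ) - 1)⁻¹ * β₁) * E0 :=
        mul_le_mul_of_nonneg_right (le_add_of_nonneg_right (mul_nonneg hpi.le b1)) hE0n
      refine this.trans (mul_le_mul_of_nonneg_left ?_ (by positivity))
      exact le_add_of_nonneg_right (mul_nonneg hp0.le hE1n)
    · have b1' : 0 < β₁ :=
        bet_pos lg dd (fun q hq => S.two q (hL' hq)) (fun q hq => hdd q (hL' hq)) ha1 hy1
      have pt : ∀ x, T.W L x * (m x - h x) ^ 2 ≤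
          (β₀ + ((p : ℝ) - 1)⁻¹ * β₁) / β₀ * (T.W L x * m x ^ 2) +
          (β₀ + ((p : ℝ) - 1)⁻¹ * β₁) * (((p : ℝ) - 1) / β₁) * (T.W L x * h x ^ 2) := by
        intro x
        have hW := T.W_nonneg hL' x
        set t := ((p : ℝ) - 1)⁻¹ * β₁ / β₀ with ht
        have ht0 : 0 < t := by positivity
        have e1 : (β₀ + ((p : ℝ) - 1)⁻¹ * β₁) / β₀ = 1 + t := by
          rw [ht, add_div, div_self b0.ne']
        have e2 : (β₀ + ((p : ℝ) - 1)⁻¹ * β₁) * (((p : ℝ) - 1) / β₁) = 1 + t⁻¹ := by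
          rw [ht]
          field_simp
          ring
        rw [e1, e2]
        have h3 : (m x - h x) ^ 2 ≤ (1 + t) * m x ^ 2 + (1 + t⁻¹) * h x ^ 2 := by
          have h4 : 0 ≤ t⁻¹ * (t * m x + h x) ^ 2 := by positivity
          have h5 : t⁻¹ * (t * m x + h x) ^ 2 = t * m x ^ 2 + 2 * (m x * h x) + t⁻¹ * h x ^ 2 := by
            field_simp
            ring
          rw [h5] at h4
          nlinarith [h4]
        calc T.W L x * (m x - h x) ^ 2 ≤ T.W L x * ((1 + t) * m x ^ 2 + (1 + t⁻¹) * h x ^ 2) :=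
              mul_le_mul_of_nonneg_left h3 hW
          _ = _ := by ring
      refine (Finset.sum_le_sum fun x _ => pt x).trans ?_
      rw [Finset.sum_add_distrib, ← Finset.mul_sum, ← Finset.mul_sum]
      have c0 : 0 ≤ (β₀ + ((p : ℝ) - 1)⁻¹ * β₁) / β₀ := by positivity
      have c1 : 0 ≤ (β₀ + ((p : ℝ) - 1)⁻¹ * β₁) * (((p : ℝ) - 1) / β₁) := by positivity
      refine (add_le_add (mul_le_mul_of_nonneg_left i0 c0) (mul_le_mul_of_nonneg_left i1 c1)).trans
        (le_of_eq ?_)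
      field_simp

/-- the energy of the first phase -/
noncomputable def en1 (uu : ℕ → ℝ) (l : Finset ℕ) (g : Ω → ℝ) : ℝ :=
  ∑ q ∈ l, uu q * nrm (T.U q g)

theorem phase1 (lg dd uu : ℕ → ℝ) (hlg : ∀ p ∈ P, 0 ≤ lg p) (hdd : ∀ p ∈ P, 0 ≤ dd p)
    (l : Finset ℕ) : ∀ (l₂ : Finset ℕ), l ⊆ P → l₂ ⊆ P → Disjoint l l₂ →
      ∀ (c a y B : ℝ) (g : Ω → ℝ), 0 ≤ c →
      (∀ m, m ⊆ l → ∑ p ∈ m, lg p ≤ y → 0 < a - ∑ p ∈ m, uu p ∧
        c * (∏ p ∈ m, (p : ℝ) / ((p : ℝ) - 1)) *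
          bet lg dd ((l \ m) ∪ l₂) (a - ∑ p ∈ m, uu p) (y - ∑ p ∈ m, lg p) ≤ B) →
      g ∈ Lev S lg (l ∪ l₂) y → (∀ q ∈ l₂, T.U q g = 0) →
      c * ∑ x, T.W (l ∪ l₂) x * g x ^ 2 ≤
        B * (a * nrm g - T.en1 uu l g + T.en2 dd (l ∪ l₂) g) := by
  induction l using Finset.induction_on with
  | empty =>
    intro l₂ _ hl₂ _ c a y B g hc hcond hg hU
    rw [empty_union] at hg ⊢
    rcases lt_or_ge y 0 with hy | hy
    · rw [lev_neg (fun q hq => hlg q (hl₂ hq)) hy hg]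
      simp [nrm, en2, en1]
    have h1 := hcond ∅ (subset_refl _) (by simpa using hy)
    simp only [Finset.sum_empty, Finset.prod_empty, sub_zero, mul_one, empty_sdiff,
      empty_union] at h1
    obtain ⟨ha, hB⟩ := h1
    have h2 := T.phase2 lg dd hlg hdd l₂ hl₂ a y g ha hg hU
    have hE : 0 ≤ a * nrm g + T.en2 dd l₂ g :=
      add_nonneg (mul_nonneg ha.le (nrm_nonneg _)) (T.en2_nonneg dd hl₂ hdd g)
    have h3 : T.en1 uu ∅ g = 0 := by simp [en1]
    rw [h3, sub_zero]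
    calc c * ∑ x, T.W l₂ x * g x ^ 2 ≤ c * (bet lg dd l₂ a y * (a * nrm g + T.en2 dd l₂ g)) :=
          mul_le_mul_of_nonneg_left h2 hc
      _ = (c * bet lg dd l₂ a y) * (a * nrm g + T.en2 dd l₂ g) := by ring
      _ ≤ _ := mul_le_mul_of_nonneg_right hB hE
  | insert p l hpl ih =>
    intro l₂ hl hl₂ hdis c a y B g hc hcond hg hU
    have hpP : p ∈ P := hl (mem_insert_self p l)
    have hl' : l ⊆ P := fun q hq => hl (mem_insert_of_mem hq)
    have hpl₂ : p ∉ l₂ := fun h => (Finset.disjoint_left.1 hdis) (mem_insert_self p l) h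
    have hdis' : Disjoint l l₂ := Finset.disjoint_of_subset_left (subset_insert p l) hdis
    have hp1 : (1 : ℝ) ≤ (p : ℝ) - 1 := S.one_lt hpP
    have hp0 : (0 : ℝ) < (p : ℝ) - 1 := by linarith
    have hpp : (0 : ℝ) ≤ (p : ℝ) / ((p : ℝ) - 1) := by positivity
    have hpL : p ∉ l ∪ l₂ := by rw [mem_union]; tauto
    have hLP : l ∪ l₂ ⊆ P := union_subset hl' hl₂
    have hiu : insert p l ∪ l₂ = insert p (l ∪ l₂) := insert_union p l l₂
    have hui : l ∪ insert p l₂ = insert p (l ∪ l₂) := union_insert p l l₂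
    have hLP' : insert p (l ∪ l₂) ⊆ P := insert_subset hpP hLP
    rw [hiu] at hg ⊢
    -- first part: `A p g`
    have j1 : c * ∑ x, T.W (insert p (l ∪ l₂)) x * (T.A p g x) ^ 2 ≤
        B * (a * nrm (T.A p g) - T.en1 uu l (T.A p g) + T.en2 dd (insert p (l ∪ l₂)) (T.A p g)) := by
      rw [← hui]
      refine ih (insert p l₂) hl' (insert_subset hpP hl₂) ?_ c a y B (T.A p g) hc ?_ ?_ ?_
      · rw [Finset.disjoint_insert_right]
        exact ⟨hpl, hdis'⟩
      · intro m hm hms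
        have hpm : p ∉ m := fun h => hpl (hm h)
        have h1 := hcond m (hm.trans (subset_insert p l)) hms
        have h2 : (insert p l \ m) ∪ l₂ = (l \ m) ∪ insert p l₂ := by
          rw [insert_sdiff_of_notMem _ hpm, insert_union, union_insert]
        rwa [h2] at h1
      · rw [hui]
        exact T.lev_A lg hLP' hg
      · intro q hq
        rcases mem_insert.1 hq with h | h
        · subst h; exact T.U_A hpP g
        · have hqp : p ≠ q := fun h' => hpl₂ (h' ▸ h)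
          rw [← ap (T.comm_AU hpP (hl₂ h) hqp), hU q h, map_zero]
    -- second part: `U p g`
    have j2 : (c * ((p : ℝ) / ((p : ℝ) - 1))) * ∑ x, T.W (l ∪ l₂) x * (T.U p g x) ^ 2 ≤
        B * ((a - uu p) * nrm (T.U p g) - T.en1 uu l (T.U p g) + T.en2 dd (l ∪ l₂) (T.U p g)) := by
      refine ih l₂ hl' hl₂ hdis' (c * ((p : ℝ) / ((p : ℝ) - 1))) (a - uu p) (y - lg p) B (T.U p g)
        (mul_nonneg hc hpp) ?_ (T.lev_U lg hLP' hpL hg) ?_
      · intro m hm hms
        have hpm : p ∉ m := fun h => hpl (hm h)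
        have h1 := hcond (insert p m) (insert_subset_insert p hm)
          (by rw [Finset.sum_insert hpm]; linarith)
        rw [Finset.sum_insert hpm, Finset.sum_insert hpm, Finset.prod_insert hpm] at h1
        have h2 : insert p l \ insert p m = l \ m := by
          ext q
          simp only [mem_sdiff, mem_insert]
          constructor
          · rintro ⟨h3, h4⟩
            push Not at h4
            exact ⟨h3.resolve_left h4.1, h4.2⟩
          · rintro ⟨h3, h4⟩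
            refine ⟨Or.inr h3, ?_⟩
            rintro (h5 | h5)
            · exact hpl (h5 ▸ h3)
            · exact h4 h5
        rw [h2] at h1
        have h3 : a - (uu p + ∑ q ∈ m, uu q) = a - uu p - ∑ q ∈ m, uu q := by ring
        have h4 : y - (lg p + ∑ q ∈ m, lg q) = y - lg p - ∑ q ∈ m, lg q := by ring
        rw [h3, h4] at h1
        refine ⟨h1.1, le_trans (le_of_eq ?_) h1.2⟩
        ring
      · intro q hq
        have hqp : p ≠ q := fun h' => hpl₂ (h' ▸ hq)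
        rw [← ap (T.comm_UU hpP (hl₂ hq) hqp), hU q hq, map_zero]
    have j0 := T.sum_wU hLP hpP hpL g
    have j3 := mul_le_mul_of_nonneg_left j0 hc
    refine j3.trans ?_
    have j4 : c * (∑ x, T.W (insert p (l ∪ l₂)) x * (T.A p g x) ^ 2 +
        (p : ℝ) / ((p : ℝ) - 1) * ∑ x, T.W (l ∪ l₂) x * (T.U p g x) ^ 2) =
        c * ∑ x, T.W (insert p (l ∪ l₂)) x * (T.A p g x) ^ 2 +
        (c * ((p : ℝ) / ((p : ℝ) - 1))) * ∑ x, T.W (l ∪ l₂) x * (T.U p g x) ^ 2 := by ring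
    rw [j4]
    refine (add_le_add j1 j2).trans (le_of_eq ?_)
    -- the energy identity
    have n1 : nrm g = nrm (T.A p g) + nrm (T.U p g) := T.nrm_AU hpP g
    have n2 : T.en1 uu (insert p l) g = uu p * nrm (T.U p g) + (T.en1 uu l (T.A p g) +
        T.en1 uu l (T.U p g)) := by
      unfold en1
      rw [Finset.sum_insert hpl, ← Finset.sum_add_distrib]
      congr 1
      refine Finset.sum_congr rfl fun q hq => ?_
      have hqp : p ≠ q := fun h => hpl (h ▸ hq)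
      have hqP := hl' hq
      rw [T.nrm_AU hpP (T.U q g), ap (T.comm_AU hpP hqP hqp), ap (T.comm_UU hpP hqP hqp)]
      ring
    have n3 : T.en2 dd (insert p (l ∪ l₂)) g = dd p * (((p : ℝ) - 1) * nrm (T.H p g)) +
        (T.en2 dd (l ∪ l₂) (T.A p g) + T.en2 dd (l ∪ l₂) (T.U p g)) := by
      unfold en2
      rw [Finset.sum_insert hpL, ← Finset.sum_add_distrib]
      congr 1
      refine Finset.sum_congr rfl fun q hq => ?_
      have hqp : p ≠ q := fun h => hpL (h ▸ hq)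
      have hqP := hLP hq
      rw [T.nrm_AU hpP (T.H q g), ← ap (T.comm_HA hqP hpP (Ne.symm hqp)),
        ← ap (T.comm_HU hqP hpP (Ne.symm hqp))]
      ring
    have n4 : T.en2 dd (insert p (l ∪ l₂)) (T.A p g) = dd p * (((p : ℝ) - 1) * nrm (T.H p g)) +
        T.en2 dd (l ∪ l₂) (T.A p g) := by
      unfold en2
      rw [Finset.sum_insert hpL, T.H_A hpP]
    rw [n1, n2, n3, n4]
    ring

end Shift

end Pool.Agent.D0H37.KS
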