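import Pool.Agent.D0H37.KS.Int
import Pool.Agent.Cov.PNT

/-! Primes. Author: helper37. -/

set_option autoImplicit false

open Finset Filter Topology

namespace Pool.Agent.D0H37.KS

open Classical in
/-- the indicator function of the units -/
noncomputable def uni {N : ℕ} (a : ZMod N) : ℝ := if IsUnit a then 1 else 0

lemma uni_pos {N : ℕ} {a : ZMod N} (h : IsUnit a) : uni a = 1 := by
  unfold uni; rw [if_pos h]

lemma uni_neg {N : ℕ} {a : ZMod N} (h : ¬ IsUnit a) : uni a = 0 := by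
  unfold uni; rw [if_neg h]

lemma uni_nonneg {N : ℕ} (a : ZMod N) : 0 ≤ uni a := by
  unfold uni; split_ifs <;> norm_num

open ArithmeticFunction in
/-- the sum over the primes in the classes prime to `N` -/
lemma unit_sum {N : ℕ} [NeZero N] (v : ZMod N → ℝ) :
    Tendsto (fun X : ℕ => (∑ m ∈ Icc 1 X, uni (m : ZMod N) * (v m * vonMangoldt m)) / X)
      atTop (𝓝 ((∑ a : ZMod N, uni a * v a) / (N.totient : ℝ))) := by
  have h1 : ∀ a : ZMod N, Tendsto (fun X : ℕ => (uni a * v a) *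
      ((∑ m ∈ Icc 1 X, vonMangoldt.residueClass a m) / X)) atTop
      (𝓝 ((uni a * v a) * ((N.totient : ℝ)⁻¹))) := by
    intro a
    by_cases ha : IsUnit a
    · have h2 := (Pool.Agent.Cov.PNT.pnt_residueClass ha).comp
        (tendsto_natCast_atTop_atTop (R := ℝ))
      have h3 : Tendsto (fun X : ℕ => (∑ m ∈ Icc 1 X, vonMangoldt.residueClass a m) / (X : ℝ)) atTop
          (𝓝 ((N.totient : ℝ)⁻¹)) := by
        refine h2.congr fun X => ?_
        simp only [Function.comp, Nat.floor_natCast]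
      exact h3.const_mul _
    · simp only [uni_neg ha, zero_mul]
      exact tendsto_const_nhds
  have h2 := tendsto_finsetSum (univ : Finset (ZMod N)) fun a _ => h1 a
  have e2 : ∑ a : ZMod N, (uni a * v a) * ((N.totient : ℝ)⁻¹) =
      (∑ a : ZMod N, uni a * v a) / (N.totient : ℝ) := by
    rw [← Finset.sum_mul, div_eq_mul_inv]
  rw [e2] at h2
  refine h2.congr fun X => ?_
  have e3 : ∀ a : ZMod N, (uni a * v a) *
      ((∑ m ∈ Icc 1 X, vonMangoldt.residueClass a m) / (X : ℝ)) =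
      (∑ m ∈ Icc 1 X, (uni a * v a) * vonMangoldt.residueClass a m) / (X : ℝ) := by
    intro a
    rw [← Finset.mul_sum, mul_div_assoc]
  rw [Finset.sum_congr rfl fun a _ => e3 a, ← Finset.sum_div, Finset.sum_comm]
  congr 1
  refine Finset.sum_congr rfl fun m _ => ?_
  rw [Finset.sum_eq_single (m : ZMod N)]
  · rw [vonMangoldt.residueClass, Set.indicator_of_mem, mul_assoc]
    rfl
  · intro a _ ha
    rw [vonMangoldt.residueClass, Set.indicator_of_notMem, mul_zero]
    exact fun h => ha h.symm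
  · intro h; exact absurd (mem_univ _) h

/-- primes, logarithmic weights: upper bound -/
lemma prime_log {N : ℕ} [NeZero N] (v : ZMod N → ℝ) (hv : ∀ a, 0 ≤ v a) (η : ℝ) (hη : 0 < η) :
    ∀ᶠ X : ℕ in atTop, ∑ m ∈ (Icc 1 X).filter Nat.Prime, v m * Real.log m ≤
      ((∑ a : ZMod N, uni a * v a) / (N.totient : ℝ) + η) * X := by
  classical
  set C : ℝ := ∑ m ∈ Icc 1 N, v m * Real.log m with hC
  have hC0 : 0 ≤ C := Finset.sum_nonneg fun m _ => mul_nonneg (hv _) (Real.log_natCast_nonneg m)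
  have h1 := (unit_sum v).eventually (gt_mem_nhds (lt_add_of_pos_right _ (half_pos hη)))
  have h2 := (tendsto_natCast_atTop_atTop (R := ℝ)).eventually_ge_atTop (C / (η / 2))
  filter_upwards [h1, h2, eventually_ge_atTop 1] with X hX1 hX2 hX3
  have hX0 : (0 : ℝ) < X := by exact_mod_cast hX3
  rw [div_lt_iff₀ hX0] at hX1
  rw [div_le_iff₀ (by positivity)] at hX2
  have key : ∑ m ∈ (Icc 1 X).filter Nat.Prime, v m * Real.log m ≤
      ∑ m ∈ Icc 1 X, uni (m : ZMod N) * (v m * ArithmeticFunction.vonMangoldt m) + C := by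
    rw [← Finset.sum_filter_add_sum_filter_not ((Icc 1 X).filter Nat.Prime)
      (fun m => IsUnit (m : ZMod N))]
    refine add_le_add ?_ ?_
    · rw [Finset.sum_filter, Finset.sum_filter]
      refine Finset.sum_le_sum fun m _ => ?_
      have hnn : 0 ≤ uni (m : ZMod N) * (v m * ArithmeticFunction.vonMangoldt m) :=
        mul_nonneg (uni_nonneg _) (mul_nonneg (hv _) ArithmeticFunction.vonMangoldt_nonneg)
      by_cases hp : m.Prime
      · rw [if_pos hp]
        by_cases hu : IsUnit (m : ZMod N)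
        · rw [if_pos hu, uni_pos hu, one_mul, ArithmeticFunction.vonMangoldt_apply_prime hp]
        · rw [if_neg hu]
          exact hnn
      · rw [if_neg hp]
        exact hnn
    · refine Finset.sum_le_sum_of_subset_of_nonneg ?_ fun m _ _ =>
        mul_nonneg (hv _) (Real.log_natCast_nonneg m)
      intro m hm
      rw [mem_filter, mem_filter] at hm
      obtain ⟨⟨-, hp⟩, hu⟩ := hm
      rw [ZMod.isUnit_iff_coprime] at hu
      have h3 : m ∣ N := by
        by_contra h
        exact hu ((Nat.Prime.coprime_iff_not_dvd hp).2 h)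
      rw [mem_Icc]
      exact ⟨hp.one_le, Nat.le_of_dvd (NeZero.pos N) h3⟩
  refine key.trans ?_
  rw [add_mul] at hX1 ⊢
  have e : η * (X : ℝ) = η / 2 * X + η / 2 * X := by ring
  rw [e]
  linarith

/-- primes: upper bound -/
lemma prime_count {N : ℕ} [NeZero N] (v : ZMod N → ℝ) (hv : ∀ a, 0 ≤ v a) (η : ℝ) (hη : 0 < η) :
    ∀ᶠ X : ℕ in atTop, (∑ m ∈ (Icc 1 X).filter Nat.Prime, v m) * Real.log X ≤
      ((∑ a : ZMod N, uni a * v a) / (N.totient : ℝ) + η) * X := by
  classical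
  set A : ℝ := (∑ a : ZMod N, uni a * v a) / (N.totient : ℝ) with hA
  have hA0 : 0 ≤ A := by
    rw [hA]
    exact div_nonneg (Finset.sum_nonneg fun a _ => mul_nonneg (uni_nonneg a) (hv a))
      (Nat.cast_nonneg _)
  -- `θ < 1` with `(A + η/2)/θ ≤ A + 3η/4`
  set θ : ℝ := (A + η / 2) / (A + 3 * η / 4) with hθ
  have hθ0 : 0 < θ := by positivity
  have hθ1 : θ < 1 := by
    rw [hθ, div_lt_one (by positivity)]
    linarith
  set V : ℝ := ∑ a : ZMod N, v a with hV
  have hVa : ∀ a, v a ≤ V := fun a => Finset.single_le_sum (fun b _ => hv b) (mem_univ a)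
  have hV0 : 0 ≤ V := Finset.sum_nonneg fun a _ => hv a
  have h1 := prime_log v hv (η / 2) (half_pos hη)
  -- `V X^θ log X ≤ η/4 X`
  have h2 : ∀ᶠ X : ℕ in atTop, V * (X : ℝ) ^ θ * Real.log X ≤ η / 4 * X := by
    have h3 : Tendsto (fun x : ℝ => Real.log x / x ^ (1 - θ)) atTop (𝓝 0) := by
      have := isLittleO_log_rpow_atTop (r := 1 - θ) (by linarith)
      exact this.tendsto_div_nhds_zero
    have h4 := (h3.const_mul V)
    rw [mul_zero] at h4
    have h5 := (h4.comp (tendsto_natCast_atTop_atTop (R := ℝ))).eventually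
      (gt_mem_nhds (show (0 : ℝ) < η / 4 by positivity))
    filter_upwards [h5, eventually_ge_atTop 1] with X hX hX1
    have hX0 : (0 : ℝ) < X := by exact_mod_cast hX1
    simp only [Function.comp] at hX
    rw [← mul_div_assoc, div_lt_iff₀ (by positivity)] at hX
    have e : (X : ℝ) ^ (1 - θ) * (X : ℝ) ^ θ = X := by
      rw [← Real.rpow_add hX0]
      simp
    have := mul_le_mul_of_nonneg_right hX.le (Real.rpow_nonneg hX0.le θ)
    calc V * (X : ℝ) ^ θ * Real.log X = V * Real.log X * (X : ℝ) ^ θ := by ring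
      _ ≤ η / 4 * (X : ℝ) ^ (1 - θ) * (X : ℝ) ^ θ := this
      _ = η / 4 * X := by rw [mul_assoc, e]
  filter_upwards [h1, h2, eventually_ge_atTop 1] with X hX1 hX2 hX3
  have hX0 : (0 : ℝ) < X := by exact_mod_cast hX3
  have hX1' : (1 : ℝ) ≤ X := by exact_mod_cast hX3
  have hlog : 0 ≤ Real.log (X : ℝ) := Real.log_natCast_nonneg X
  rw [← Finset.sum_filter_add_sum_filter_not ((Icc 1 X).filter Nat.Prime)
    (fun m : ℕ => (m : ℝ) ≤ (X : ℝ) ^ θ), add_mul]
  have a1 : (∑ m ∈ ((Icc 1 X).filter Nat.Prime).filter (fun m : ℕ => (m : ℝ) ≤ (X : ℝ) ^ θ), v m) *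
      Real.log X ≤ η / 4 * X := by
    refine le_trans (mul_le_mul_of_nonneg_right ?_ hlog) hX2
    have b1 : ∑ m ∈ ((Icc 1 X).filter Nat.Prime).filter (fun m : ℕ => (m : ℝ) ≤ (X : ℝ) ^ θ), v m ≤
        ∑ m ∈ Icc 1 ⌊(X : ℝ) ^ θ⌋₊, V := by
      refine (Finset.sum_le_sum fun (m : ℕ) _ => hVa (m : ZMod N)).trans ?_
      refine Finset.sum_le_sum_of_subset_of_nonneg ?_ fun _ _ _ => hV0
      intro m hm
      rw [mem_filter, mem_filter, mem_Icc] at hm
      rw [mem_Icc]
      exact ⟨hm.1.1.1, Nat.le_floor hm.2⟩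
    refine b1.trans ?_
    rw [Finset.sum_const, Nat.card_Icc, nsmul_eq_mul, mul_comm]
    refine mul_le_mul_of_nonneg_left ?_ hV0
    rw [Nat.add_sub_cancel]
    exact Nat.floor_le (by positivity)
  have a2 : (∑ m ∈ ((Icc 1 X).filter Nat.Prime).filter (fun m : ℕ => ¬ (m : ℝ) ≤ (X : ℝ) ^ θ), v m) *
      Real.log X ≤ (A + 3 * η / 4) * X := by
    have b1 : θ * ((∑ m ∈ ((Icc 1 X).filter Nat.Prime).filter
        (fun m : ℕ => ¬ (m : ℝ) ≤ (X : ℝ) ^ θ), v m) * Real.log X) ≤
        ∑ m ∈ (Icc 1 X).filter Nat.Prime, v m * Real.log m := by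
      calc θ * ((∑ m ∈ ((Icc 1 X).filter Nat.Prime).filter
          (fun m : ℕ => ¬ (m : ℝ) ≤ (X : ℝ) ^ θ), v m) * Real.log X)
          = ∑ m ∈ ((Icc 1 X).filter Nat.Prime).filter (fun m : ℕ => ¬ (m : ℝ) ≤ (X : ℝ) ^ θ),
            v m * (θ * Real.log X) := by
            rw [← Finset.sum_mul]; ring
        _ ≤ ∑ m ∈ ((Icc 1 X).filter Nat.Prime).filter (fun m : ℕ => ¬ (m : ℝ) ≤ (X : ℝ) ^ θ),
            v m * Real.log m := by
            refine Finset.sum_le_sum fun m hm => mul_le_mul_of_nonneg_left ?_ (hv _)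
            rw [mem_filter, not_le] at hm
            rw [← Real.log_rpow hX0]
            exact Real.log_le_log (by positivity) hm.2.le
        _ ≤ _ := Finset.sum_le_sum_of_subset_of_nonneg (filter_subset _ _)
            fun m _ _ => mul_nonneg (hv _) (Real.log_natCast_nonneg m)
    have b2 := b1.trans hX1
    have b3 : (A + η / 2) * X = θ * ((A + 3 * η / 4) * X) := by
      rw [hθ]
      field_simp
    rw [b3] at b2
    exact le_of_mul_le_mul_left b2 hθ0
  have : (A + η) * (X : ℝ) = η / 4 * X + (A + 3 * η / 4) * X := by ring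
  rw [this]
  exact add_le_add a1 a2

/-- the primes among the `n + h` -/
lemma shifted_count {N : ℕ} [NeZero N] (w : ℤ → ℝ) (w' : ZMod N → ℝ)
    (hw : ∀ n : ℤ, w' (n : ZMod N) = w n) (hw0 : ∀ n, 0 ≤ w n) (h : ℤ) (η : ℝ) (hη : 0 < η) :
    ∀ᶠ x : ℕ in atTop, (∑ n ∈ (Icc 1 x).filter (fun n : ℕ => ((n : ℤ) + h).toNat.Prime), w n) *
      Real.log x ≤
      ((∑ a : ZMod N, uni a * w' (a - h)) / (N.totient : ℝ) + η) * x := by
  classical
  set A : ℝ := (∑ a : ZMod N, uni a * w' (a - h)) / (N.totient : ℝ) with hA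
  have hv : ∀ a : ZMod N, 0 ≤ w' a := by
    intro a
    have := hw (a.val : ℤ)
    rw [Int.cast_natCast, ZMod.natCast_zmod_val] at this
    rw [this]
    exact hw0 _
  have hA0 : 0 ≤ A := by
    rw [hA]
    exact div_nonneg (Finset.sum_nonneg fun a _ => mul_nonneg (uni_nonneg a) (hv _))
      (Nat.cast_nonneg _)
  have h1 : ∀ᶠ X : ℕ in atTop, (∑ m ∈ (Icc 1 X).filter Nat.Prime, w' ((m : ZMod N) - h)) *
      Real.log X ≤ (A + η / 2) * X :=
    prime_count (fun a : ZMod N => w' (a - h)) (fun a => hv _) (η / 2) (half_pos hη)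
  obtain ⟨X₁, hX₁⟩ := eventually_atTop.1 h1
  have h3 := (tendsto_natCast_atTop_atTop (R := ℝ)).eventually_ge_atTop
    ((A + η / 2) * h.natAbs / (η / 2))
  filter_upwards [eventually_ge_atTop X₁, h3, eventually_ge_atTop 1] with x hx0 hx2 hx1
  have hx := hX₁ (x + h.natAbs) (by omega)
  have hx0' : (0 : ℝ) < x := by exact_mod_cast hx1
  rw [div_le_iff₀ (by positivity)] at hx2
  have key : ∑ n ∈ (Icc 1 x).filter (fun n : ℕ => ((n : ℤ) + h).toNat.Prime), w n ≤
      ∑ m ∈ (Icc 1 (x + h.natAbs)).filter Nat.Prime, w' ((m : ZMod N) - h) := by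
    have e1 : ∀ n ∈ (Icc 1 x).filter (fun n : ℕ => ((n : ℤ) + h).toNat.Prime),
        (((n : ℤ) + h).toNat : ℤ) = (n : ℤ) + h := by
      intro n hn
      rw [mem_filter] at hn
      have h4 := hn.2.pos
      omega
    have e2 : ∑ n ∈ (Icc 1 x).filter (fun n : ℕ => ((n : ℤ) + h).toNat.Prime), w n =
        ∑ m ∈ ((Icc 1 x).filter (fun n : ℕ => ((n : ℤ) + h).toNat.Prime)).image
          (fun n : ℕ => ((n : ℤ) + h).toNat), w' ((m : ZMod N) - h) := by
      rw [Finset.sum_image]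
      · refine Finset.sum_congr rfl fun n hn => ?_
        have h4 := e1 n hn
        have h5 : ((((n : ℤ) + h).toNat : ℕ) : ZMod N) = (n : ZMod N) + (h : ZMod N) := by
          rw [← Int.cast_natCast (R := ZMod N) (((n : ℤ) + h).toNat), h4, Int.cast_add,
            Int.cast_natCast]
        rw [h5, add_sub_cancel_right, ← hw, Int.cast_natCast]
      · intro a ha b hb hab
        have h4 := e1 a ha
        have h5 := e1 b hb
        have hab' : ((a : ℤ) + h).toNat = ((b : ℤ) + h).toNat := hab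
        omega
    rw [e2]
    refine Finset.sum_le_sum_of_subset_of_nonneg ?_ fun m _ _ => hv _
    intro m hm
    rw [mem_image] at hm
    obtain ⟨n, hn, rfl⟩ := hm
    have h4 := e1 n hn
    rw [mem_filter, mem_Icc] at hn
    rw [mem_filter, mem_Icc]
    refine ⟨⟨hn.2.one_le, ?_⟩, hn.2⟩
    omega
  have hXx : Real.log (x : ℝ) ≤ Real.log ((x + h.natAbs : ℕ) : ℝ) :=
    Real.log_le_log hx0' (by push_cast; linarith [Nat.cast_nonneg (α := ℝ) h.natAbs])
  have hS0 : 0 ≤ ∑ m ∈ (Icc 1 (x + h.natAbs)).filter Nat.Prime, w' ((m : ZMod N) - h) :=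
    Finset.sum_nonneg fun m _ => hv _
  calc (∑ n ∈ (Icc 1 x).filter (fun n : ℕ => ((n : ℤ) + h).toNat.Prime), w n) * Real.log x
      ≤ (∑ m ∈ (Icc 1 (x + h.natAbs)).filter Nat.Prime, w' ((m : ZMod N) - h)) * Real.log x :=
        mul_le_mul_of_nonneg_right key (Real.log_natCast_nonneg x)
    _ ≤ (∑ m ∈ (Icc 1 (x + h.natAbs)).filter Nat.Prime, w' ((m : ZMod N) - h)) *
        Real.log ((x + h.natAbs : ℕ) : ℝ) := mul_le_mul_of_nonneg_left hXx hS0
    _ ≤ (A + η / 2) * ((x + h.natAbs : ℕ) : ℝ) := hx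
    _ = (A + η / 2) * x + (A + η / 2) * h.natAbs := by push_cast; ring
    _ ≤ (A + η / 2) * x + x * (η / 2) := by linarith
    _ = (A + η) * x := by ring

open Classical in
lemma unit_form (R : ℕ) [NeZero R.factorial] (h : ℤ) (F : ℤ → ℝ) (F' : ZMod R.factorial → ℝ)
    (hF : ∀ n : ℤ, F' (n : ZMod R.factorial) = F n) :
    (∑ a : ZMod R.factorial, uni a * F' (a - h)) / (R.factorial.totient : ℝ) =
      meanFree R h F := by
  unfold meanFree
  rw [card_free]
  congr 1
  rw [← Equiv.sum_comp (Equiv.addRight (h : ZMod R.factorial))]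
  simp only [Equiv.coe_addRight, add_sub_cancel_right]
  rw [← sum_range_zmod, Finset.sum_filter]
  refine Finset.sum_congr rfl fun n _ => ?_
  have e : F' ((n : ℕ) : ZMod R.factorial) = F n := by
    have := hF n
    rwa [Int.cast_natCast] at this
  rw [e]
  have hu : IsUnit (((n : ℕ) : ZMod R.factorial) + (h : ZMod R.factorial)) ↔ Free R (n + h) := by
    rw [free_iff]
    have e2 : ((n : ℕ) : ZMod R.factorial) + (h : ZMod R.factorial) =
        (((n : ℤ) + h : ℤ) : ZMod R.factorial) := by push_cast; rfl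
    rw [e2, ZMod.coe_int_isUnit_iff_isCoprime, isCoprime_comm, Int.isCoprime_iff_gcd_eq_one]
  by_cases hf : Free R (n + h)
  · rw [if_pos hf, uni_pos (hu.2 hf), one_mul]
  · rw [if_neg hf, uni_neg (fun h' => hf (hu.1 h')), zero_mul]

/-- lower bound for the sum of a periodic function -/
lemma periodic_lower {N : ℕ} [NeZero N] (w : ℤ → ℝ) (w' : ZMod N → ℝ)
    (hw : ∀ n : ℤ, w' (n : ZMod N) = w n) (hw0 : ∀ n, 0 ≤ w n) (x : ℕ) :
    ((x : ℝ) - N) * ((∑ a, w' a) / N) ≤ ∑ n ∈ Icc 1 x, w n := by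
  have hN0 : (0 : ℝ) < N := by
    have := NeZero.pos N
    exact_mod_cast this
  have h1 : ∀ q : ℕ, ∑ n ∈ range (N * q), w ((n : ℤ) + 1) = q * ∑ a, w' a := by
    intro q
    induction q with
    | zero => simp
    | succ q ih =>
      rw [Nat.mul_succ, Finset.sum_range_add, ih]
      have e : ∑ j ∈ range N, w (((N * q + j : ℕ) : ℤ) + 1) = ∑ a, w' a := by
        rw [← Equiv.sum_comp (Equiv.addRight (1 : ZMod N)), ← sum_range_zmod]
        refine Finset.sum_congr rfl fun j _ => ?_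
        rw [← hw, Equiv.coe_addRight]
        congr 1
        push_cast
        rw [ZMod.natCast_self, zero_mul, zero_add]
      rw [e]
      push_cast
      ring
  have h2 := h1 (x / N)
  have hs0 : 0 ≤ ∑ a, w' a := by
    refine Finset.sum_nonneg fun a _ => ?_
    have := hw (a.val : ℤ)
    rw [Int.cast_natCast, ZMod.natCast_zmod_val] at this
    rw [this]
    exact hw0 _
  have h3 : ∑ n ∈ range (N * (x / N)), w ((n : ℤ) + 1) ≤ ∑ n ∈ Icc 1 x, w n := by
    have e : ∑ n ∈ Icc 1 x, w n = ∑ n ∈ range x, w ((n : ℤ) + 1) := by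
      have e1 : Icc 1 x = Ico (0 + 1) (x + 1) := by
        ext n; simp only [mem_Icc, mem_Ico]; omega
      rw [e1, ← Finset.sum_Ico_add' (fun n : ℕ => w (n : ℤ)) 0 x 1, Finset.range_eq_Ico]
      refine Finset.sum_congr rfl fun n _ => ?_
      push_cast
      rfl
    rw [e]
    refine Finset.sum_le_sum_of_subset_of_nonneg ?_ fun _ _ _ => hw0 _
    exact Finset.range_mono (Nat.mul_div_le x N)
  rw [h2] at h3
  refine le_trans ?_ h3
  rw [← mul_div_assoc, div_le_iff₀ hN0]
  have h4 : (x : ℝ) - N ≤ ((x / N : ℕ) : ℝ) * N := by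
    have h5 : x ≤ (x / N) * N + N := by
      have h6 := Nat.div_add_mod x N
      have h7 := Nat.mod_lt x (NeZero.pos N)
      rw [mul_comm] at h6
      omega
    have h6 : (x : ℝ) ≤ ((x / N : ℕ) : ℝ) * N + N := by exact_mod_cast h5
    linarith
  nlinarith

end Pool.Agent.D0H37.KS
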