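import Pool.Agent.D0H37.KS.Phase

/-! Sum over the shifts. Author: helper37. -/

set_option autoImplicit false

open Finset

namespace Pool.Agent.D0H37.KS

variable {Ω : Type} [Fintype Ω] {P : Finset ℕ}

namespace Shift
variable {S : Sys Ω P}

lemma nrm_H_le (T : Shift S) {p : ℕ} (hp : p ∈ P) (g : Ω → ℝ) :
    ((p : ℝ) - 1) * nrm (T.H p g) ≤ nrm (g - S.e p g) := by
  rw [T.nrm_F hp]
  exact le_add_of_nonneg_right (nrm_nonneg _)

/-- the bound of one component by the mass on the hits -/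
lemma nrm_H_hit (T : Shift S) {p : ℕ} (hp : p ∈ P) (g : Ω → ℝ) :
    ((p : ℝ) - 1) * nrm (T.H p g) ≤
      ((p : ℝ) - 1)⁻¹ * ∑ x, (T.z p x + 1) * (g - S.e p g) x ^ 2 := by
  have hp1 : (1 : ℝ) ≤ (p : ℝ) - 1 := S.one_lt hp
  have hp0 : (0 : ℝ) < (p : ℝ) - 1 := by linarith
  set F := g - S.e p g with hF
  have hF0 : S.e p F = 0 := by rw [hF, map_sub, S.idem p hp, sub_self]
  set c := S.e p (T.z p * F) with hc
  have hci : S.e p c = c := S.idem p hp _
  have hH : T.H p g = ((p : ℝ) - 1)⁻¹ • c := by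
    rw [H_apply, hc, hF, mul_sub, map_sub, T.e_zi hp _ (S.idem p hp g), sub_zero]
  have hn : nrm (T.H p g) = (((p : ℝ) - 1)⁻¹) ^ 2 * nrm c := by
    rw [hH]
    unfold nrm
    rw [Finset.mul_sum]
    refine Finset.sum_congr rfl fun x _ => ?_
    simp only [Pi.smul_apply, smul_eq_mul]
    ring
  -- the nonnegative sum
  have hcc : S.e p (c * c) = c * c := by rw [S.mod p hp c c hci, hci]
  have s1 : ∑ x, c x * ((T.z p x + 1) * F x) = nrm c := by
    have h1 : S.e p (c * (T.z p * F + F)) = c * c := by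
      rw [S.mod p hp c _ hci, map_add, hF0, add_zero]
    have h2 := sum_eq S hp _ _ h1
    unfold nrm
    calc ∑ x, c x * ((T.z p x + 1) * F x) = ∑ x, (c * (T.z p * F + F)) x := by
          refine Finset.sum_congr rfl fun x _ => ?_
          simp only [Pi.mul_apply, Pi.add_apply]; ring
      _ = ∑ x, (c * c) x := h2
      _ = _ := Finset.sum_congr rfl fun x _ => by simp only [Pi.mul_apply]; ring
  have s2 : ∑ x, (T.z p x + 1) * c x ^ 2 = nrm c := by
    have h1 : S.e p (c * c * (T.z p + 1)) = c * c := by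
      rw [S.mod p hp _ _ hcc, map_add, T.ez p hp, S.one p hp, zero_add, mul_one]
    have h2 := sum_eq S hp _ _ h1
    unfold nrm
    calc ∑ x, (T.z p x + 1) * c x ^ 2 = ∑ x, (c * c * (T.z p + 1)) x := by
          refine Finset.sum_congr rfl fun x _ => ?_
          simp only [Pi.mul_apply, Pi.add_apply, Pi.one_apply]; ring
      _ = ∑ x, (c * c) x := h2
      _ = _ := Finset.sum_congr rfl fun x _ => by simp only [Pi.mul_apply]; ring
  have s3 : 0 ≤ ∑ x, (T.z p x + 1) * (F x - c x) ^ 2 := by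
    refine Finset.sum_nonneg fun x _ => mul_nonneg ?_ (sq_nonneg _)
    rcases T.z_cases hp x with h | h <;> rw [h] <;> linarith
  have s4 : ∑ x, (T.z p x + 1) * (F x - c x) ^ 2 =
      ∑ x, (T.z p x + 1) * F x ^ 2 - 2 * ∑ x, c x * ((T.z p x + 1) * F x) +
        ∑ x, (T.z p x + 1) * c x ^ 2 := by
    rw [Finset.mul_sum, ← Finset.sum_sub_distrib, ← Finset.sum_add_distrib]
    exact Finset.sum_congr rfl fun x _ => by ring
  rw [s4, s1, s2] at s3
  have s5 : nrm c ≤ ∑ x, (T.z p x + 1) * F x ^ 2 := by linarith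
  rw [hn]
  have e : ((p : ℝ) - 1) * ((((p : ℝ) - 1)⁻¹) ^ 2 * nrm c) = ((p : ℝ) - 1)⁻¹ * nrm c := by
    field_simp
  rw [e]
  exact mul_le_mul_of_nonneg_left s5 (inv_nonneg.2 hp0.le)

/-- disjoint hits -/
lemma sum_H_disjoint {k : ℕ} (T : Fin k → Shift S) {p : ℕ} (hp : p ∈ P)
    (hd : ∀ x, ∑ i, ((T i).z p x + 1) ≤ p) (g : Ω → ℝ) :
    ∑ i, ((p : ℝ) - 1) * nrm ((T i).H p g) ≤ (p : ℝ) / ((p : ℝ) - 1) * nrm (g - S.e p g) := by
  have hp1 : (1 : ℝ) ≤ (p : ℝ) - 1 := S.one_lt hp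
  have hp0 : (0 : ℝ) < (p : ℝ) - 1 := by linarith
  refine (Finset.sum_le_sum fun i _ => (T i).nrm_H_hit hp g).trans ?_
  rw [← Finset.mul_sum, Finset.sum_comm]
  have h1 : ∑ x, ∑ i, ((T i).z p x + 1) * (g - S.e p g) x ^ 2 ≤ (p : ℝ) * nrm (g - S.e p g) := by
    unfold nrm
    rw [Finset.mul_sum]
    refine Finset.sum_le_sum fun x _ => ?_
    rw [← Finset.sum_mul]
    exact mul_le_mul_of_nonneg_right (hd x) (sq_nonneg _)
  calc ((p : ℝ) - 1)⁻¹ * ∑ x, ∑ i, ((T i).z p x + 1) * (g - S.e p g) x ^ 2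
      ≤ ((p : ℝ) - 1)⁻¹ * ((p : ℝ) * nrm (g - S.e p g)) :=
        mul_le_mul_of_nonneg_left h1 (inv_nonneg.2 hp0.le)
    _ = _ := by rw [div_eq_mul_inv]; ring

lemma sum_H_all {k : ℕ} (T : Fin k → Shift S) {p : ℕ} (hp : p ∈ P) (g : Ω → ℝ) :
    ∑ i, ((p : ℝ) - 1) * nrm ((T i).H p g) ≤ (k : ℝ) * nrm (g - S.e p g) := by
  refine (Finset.sum_le_sum fun i _ => (T i).nrm_H_le hp g).trans ?_
  simp

end Shift

/-- the large sieve for several shifts -/
theorem main_alg {S : Sys Ω P} {k : ℕ} (T : Fin k → Shift S) (lg uu : ℕ → ℝ)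
    (hlg : ∀ p ∈ P, 0 ≤ lg p) (huu : ∀ p ∈ P, uu p ≤ k * lg p)
    (hs : ∀ p ∈ P, ∀ g : Ω → ℝ,
      lg p * ∑ i, ((p : ℝ) - 1) * nrm ((T i).H p g) ≤ uu p * nrm (g - S.e p g))
    (a y B : ℝ) (hB : 0 ≤ B)
    (hcond : ∀ m, m ⊆ P → ∑ p ∈ m, lg p ≤ y → 0 < a - ∑ p ∈ m, uu p ∧
        (∏ p ∈ m, (p : ℝ) / ((p : ℝ) - 1)) *
          bet lg (fun p => k * lg p - uu p) (P \ m) (a - ∑ p ∈ m, uu p) (y - ∑ p ∈ m, lg p) ≤ B)
    (g : Ω → ℝ) (hg : g ∈ Lev S lg P y) :
    ∑ i, ∑ x, (T i).W P x * g x ^ 2 ≤ B * (k * a * nrm g) := by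
  set dd : ℕ → ℝ := fun p => k * lg p - uu p with hdd
  have h1 : ∀ i : Fin k, ∑ x, (T i).W P x * g x ^ 2 ≤
      B * (a * nrm g + (∑ q ∈ P, (k * lg q * (((q : ℝ) - 1) * nrm ((T i).H q g)) -
        uu q * nrm (g - S.e q g)))) := by
    intro i
    have h2 := (T i).phase1 lg dd uu hlg (fun p hp => by
      have := huu p hp
      simp only [hdd]; linarith) P ∅ (subset_refl _) (empty_subset _)
      (disjoint_empty_right _) 1 a y B g zero_le_one
      (by
        intro m hm hms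
        have := hcond m hm hms
        rw [union_empty, one_mul]
        exact this)
      (by rw [union_empty]; exact hg) (by simp)
    rw [union_empty, one_mul] at h2
    refine h2.trans (le_of_eq ?_)
    congr 1
    unfold Shift.en1 Shift.en2
    rw [sub_add, ← Finset.sum_sub_distrib, sub_eq_add_neg, ← Finset.sum_neg_distrib]
    congr 1
    refine Finset.sum_congr rfl fun q hq => ?_
    rw [(T i).nrm_F hq g]
    simp only [hdd]
    ring
  refine (Finset.sum_le_sum fun i _ => h1 i).trans ?_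
  rw [← Finset.mul_sum]
  refine mul_le_mul_of_nonneg_left ?_ hB
  rw [Finset.sum_add_distrib, Finset.sum_const, Finset.card_univ, Fintype.card_fin, nsmul_eq_mul,
    Finset.sum_comm]
  have h3 : ∑ q ∈ P, ∑ i : Fin k, (k * lg q * (((q : ℝ) - 1) * nrm ((T i).H q g)) -
        uu q * nrm (g - S.e q g)) ≤ 0 := by
    refine Finset.sum_nonpos fun q hq => ?_
    rw [Finset.sum_sub_distrib, ← Finset.mul_sum, Finset.sum_const, Finset.card_univ,
      Fintype.card_fin, nsmul_eq_mul]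
    have h4 := hs q hq g
    have hk : (0 : ℝ) ≤ (k : ℝ) := Nat.cast_nonneg k
    nlinarith [mul_le_mul_of_nonneg_left h4 hk]
  linarith

end Pool.Agent.D0H37.KS
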